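import Pool.Agent.N422.MK.Stm

/-! Project MK, task MK/CA (helper152): the combinatorial inequality, the main terms. -/

set_option autoImplicit false

open Finset

namespace Pool.Agent.N422.MK

/-- the places with the colour `some none` -/
def CA_S {n k : ℕ} (c : Fin n → Col k) : Finset (Fin n) := univ.filter fun i => c i = some none

/-- the places with the colour of the site `j` -/
def CA_T {n k : ℕ} (c : Fin n → Col k) (j : Fin k) : Finset (Fin n) :=
  univ.filter fun i => c i = some (some j)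

theorem CA_inj {n k : ℕ} {c c' : Fin n → Col k} (h : CA_S c = CA_S c')
    (h' : CA_T c = CA_T c') : c = c' := by
  funext i
  have h1 : c i = some none ↔ c' i = some none := by
    have := Finset.ext_iff.1 h i
    simpa [CA_S] using this
  have h2 : ∀ j, c i = some (some j) ↔ c' i = some (some j) := by
    intro j
    have := Finset.ext_iff.1 (congrFun h' j) i
    simpa [CA_T] using this
  rcases hc : c i with _ | _ | j
  · rcases hc' : c' i with _ | _ | j
    · rfl
    · rw [h1.2 hc'] at hc; simp at hc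
    · rw [(h2 j).2 hc'] at hc; simp at hc
  · exact (h1.1 hc).symm
  · exact ((h2 j).1 hc).symm

theorem CA_w0 {n k : ℕ} (q : Fin n → ℝ) (c : Fin n → Col k) :
    ∏ i, w0 (q i) (c i) = ∏ j, ∏ i ∈ CA_T c j, 1 / q i := by
  have h : ∀ j, ∏ i ∈ CA_T c j, 1 / q i = ∏ i, if c i = some (some j) then 1 / q i else 1 := by
    intro j
    unfold CA_T
    rw [Finset.prod_filter]
  simp_rw [h]
  rw [Finset.prod_comm]
  refine Finset.prod_congr rfl fun i _ => ?_
  rcases c i with _ | _ | l
  · simp [w0]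
  · simp [w0]
  · rw [Finset.prod_eq_single l]
    · simp [w0]
    · intro b _ hb
      rw [if_neg]
      simpa using hb.symm
    · simp

theorem CA_sig {n k : ℕ} {σ : Fin n → ℝ} (hσ : ∀ i, 0 ≤ σ i) (c : Fin n → Col k) :
    ∑ j, ∑ i ∈ CA_T c j, σ i ≤ ∑ i ∈ univ.filter (fun i => c i ≠ none), σ i := by
  have h : ∀ j, ∑ i ∈ CA_T c j, σ i = ∑ i, if c i = some (some j) then σ i else 0 := by
    intro j
    unfold CA_T
    rw [Finset.sum_filter]
  simp_rw [h]
  rw [Finset.sum_comm, Finset.sum_filter]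
  refine Finset.sum_le_sum fun i _ => ?_
  rcases hc : c i with _ | _ | l
  · simp
  · simpa using hσ i
  · rw [Finset.sum_eq_single l]
    · simp
    · intro b _ hb
      rw [if_neg]
      simpa using hb.symm
    · simp

/-- the function of the transport lemma -/
noncomputable def CA_f {n k : ℕ} (g : (Fin n → Col k) → ℝ) (S : Finset (Fin n))
    (T : Fin k → Finset (Fin n)) : ℝ :=
  ∑ c ∈ univ.filter (fun c : Fin n → Col k => CA_S c = S ∧ CA_T c = T), g c

theorem CA_f_eq {n k : ℕ} (g : (Fin n → Col k) → ℝ) (c : Fin n → Col k) :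
    CA_f g (CA_S c) (CA_T c) = g c := by
  unfold CA_f
  rw [Finset.sum_eq_single c]
  · intro b hb hbc
    rw [Finset.mem_filter] at hb
    exact absurd (CA_inj hb.2.1 hb.2.2) hbc
  · simp

theorem CA_f_ne {n k : ℕ} {g : (Fin n → Col k) → ℝ} {S : Finset (Fin n)}
    {T : Fin k → Finset (Fin n)} (h : CA_f g S T ≠ 0) :
    ∃ c, CA_S c = S ∧ CA_T c = T ∧ g c ≠ 0 := by
  unfold CA_f at h
  obtain ⟨c, hc, hc'⟩ := Finset.exists_ne_zero_of_sum_ne_zero h
  rw [Finset.mem_filter] at hc
  exact ⟨c, hc.2.1, hc.2.2, hc'⟩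

theorem CA_right {n k : ℕ} (q : Fin n → ℝ) (g : (Fin n → Col k) → ℝ) :
    ∑ S : Finset (Fin n), ∑ T : Fin k → Finset (Fin n),
      (∏ j, ∏ i ∈ T j, 1 / q i) * CA_f g S T ^ 2 =
    ∑ c : Fin n → Col k, (∏ i, w0 (q i) (c i)) * g c ^ 2 := by
  rw [← Fintype.sum_prod_type' (fun (S : Finset (Fin n)) (T : Fin k → Finset (Fin n)) =>
    (∏ j, ∏ i ∈ T j, 1 / q i) * CA_f g S T ^ 2)]
  symm
  refine Finset.sum_of_injOn (fun c => (CA_S c, CA_T c)) ?_ ?_ ?_ ?_
  · intro c _ c' _ h
    simp only [Prod.mk.injEq] at h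
    exact CA_inj h.1 h.2
  · intro c _
    simp
  · rintro ⟨S, T⟩ _ h
    have : CA_f g S T = 0 := by
      by_contra h0
      obtain ⟨c, h1, h2, _⟩ := CA_f_ne h0
      exact h ⟨c, by simp, by simp [h1, h2]⟩
    simp [this]
  · intro c _
    simp only
    rw [CA_f_eq, CA_w0]

theorem CA_inner {n m : ℕ} (q : Fin n → ℝ) (g : (Fin n → Col (m + 1)) → ℝ) (j : Fin (m + 1))
    {c : Fin n → Col (m + 1)} (hc : ∀ i, c i ≠ some (some j)) :
    ∑ t ∈ (Es c).powerset, (∏ i ∈ t, 1 / q i) * g (recol c j t) =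
    ∑ t : Finset (Fin n), (∏ i ∈ t, 1 / q i) *
      CA_f g (CA_S c) (j.insertNth t fun i => CA_T c (j.succAbove i)) := by
  have key : ∀ t ∈ (Es c).powerset, g (recol c j t) =
      CA_f g (CA_S c) (j.insertNth t fun i => CA_T c (j.succAbove i)) := by
    intro t ht
    rw [Finset.mem_powerset] at ht
    have ht' : ∀ i ∈ t, c i = none := by
      intro i hi
      have := ht hi
      simpa [Es] using this
    have h1 : CA_S (recol c j t) = CA_S c := by
      ext i
      simp only [CA_S, Finset.mem_filter, Finset.mem_univ, true_and, recol]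
      by_cases hi : i ∈ t
      · simp [hi, ht' i hi]
      · simp [hi]
    have h2 : CA_T (recol c j t) = j.insertNth t fun i => CA_T c (j.succAbove i) := by
      funext l
      refine Fin.succAboveCases j ?_ (fun l => ?_) l
      · rw [Fin.insertNth_apply_same]
        ext i
        simp only [CA_T, Finset.mem_filter, Finset.mem_univ, true_and, recol]
        by_cases hi : i ∈ t
        · simp [hi]
        · simp [hi, hc i]
      · rw [Fin.insertNth_apply_succAbove]
        ext i
        simp only [CA_T, Finset.mem_filter, Finset.mem_univ, true_and, recol]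
        by_cases hi : i ∈ t
        · simp [hi, ht' i hi, (Fin.succAbove_ne j l).symm]
        · simp [hi]
    rw [← h1, ← h2, CA_f_eq]
  rw [Finset.sum_congr rfl fun t ht => by rw [key t ht]]
  refine Finset.sum_subset (Finset.subset_univ _) fun t _ ht => ?_
  have : CA_f g (CA_S c) (j.insertNth t fun i => CA_T c (j.succAbove i)) = 0 := by
    by_contra h0
    obtain ⟨c', h1, h2, _⟩ := CA_f_ne h0
    apply ht
    rw [Finset.mem_powerset]
    intro i hi
    have h3 : c' i = some (some j) := by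
      have h4 := congrFun h2 j
      rw [Fin.insertNth_apply_same] at h4
      rw [← h4] at hi
      simpa [CA_T] using hi
    simp only [Es, Finset.mem_filter, Finset.mem_univ, true_and]
    rcases hci : c i with _ | _ | l
    · rfl
    · exfalso
      have h4 : i ∈ CA_S c := by simp [CA_S, hci]
      rw [← h1] at h4
      simp [CA_S, h3] at h4
    · exfalso
      have hlj : l ≠ j := fun h => hc i (by rw [hci, h])
      obtain ⟨l', hl'⟩ := Fin.exists_succAbove_eq hlj
      have h4 := congrFun h2 l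
      rw [← hl', Fin.insertNth_apply_succAbove, hl'] at h4
      have h5 : i ∈ CA_T c l := by simp [CA_T, hci]
      rw [← h4] at h5
      simp [CA_T, h3, hlj.symm] at h5
  rw [this, mul_zero]

theorem CA_left {n m : ℕ} (q : Fin n → ℝ) (hq : ∀ i, 0 < q i) (g : (Fin n → Col (m + 1)) → ℝ)
    (j : Fin (m + 1)) :
    ∑ c ∈ univ.filter (fun c : Fin n → Col (m + 1) => ∀ i, c i ≠ some (some j)),
        (∏ i, w0 (q i) (c i)) * (∑ t ∈ (Es c).powerset, (∏ i ∈ t, 1 / q i) * g (recol c j t)) ^ 2 ≤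
    ∑ S : Finset (Fin n), ∑ T : Fin m → Finset (Fin n), (∏ l, ∏ i ∈ T l, 1 / q i) *
      (∑ t : Finset (Fin n), (∏ i ∈ t, 1 / q i) * CA_f g S (j.insertNth t T)) ^ 2 := by
  rw [← Fintype.sum_prod_type' (fun (S : Finset (Fin n)) (T : Fin m → Finset (Fin n)) =>
    (∏ l, ∏ i ∈ T l, 1 / q i) *
      (∑ t : Finset (Fin n), (∏ i ∈ t, 1 / q i) * CA_f g S (j.insertNth t T)) ^ 2)]
  set A := univ.filter (fun c : Fin n → Col (m + 1) => ∀ i, c i ≠ some (some j)) with hA
  have hT : ∀ c ∈ A, CA_T c j = ∅ := by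
    intro c hc
    rw [hA, Finset.mem_filter] at hc
    ext i
    simp [CA_T, hc.2 i]
  have hinj : Set.InjOn (fun c : Fin n → Col (m + 1) =>
      (CA_S c, fun i => CA_T c (j.succAbove i))) (A : Set (Fin n → Col (m + 1))) := by
    intro c hc c' hc' h
    simp only [Prod.mk.injEq] at h
    refine CA_inj h.1 (funext fun l => ?_)
    refine Fin.succAboveCases j ?_ (fun l => ?_) l
    · rw [hT c hc, hT c' hc']
    · exact congrFun h.2 l
  have h1 : ∀ c ∈ A, (∏ i, w0 (q i) (c i)) *
      (∑ t ∈ (Es c).powerset, (∏ i ∈ t, 1 / q i) * g (recol c j t)) ^ 2 =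
      (fun x : Finset (Fin n) × (Fin m → Finset (Fin n)) => (∏ l, ∏ i ∈ x.2 l, 1 / q i) *
      (∑ t : Finset (Fin n), (∏ i ∈ t, 1 / q i) * CA_f g x.1 (j.insertNth t x.2)) ^ 2)
      (CA_S c, fun i => CA_T c (j.succAbove i)) := by
    intro c hc
    have hc' := hc
    rw [hA, Finset.mem_filter] at hc'
    rw [CA_inner q g j hc'.2, CA_w0, Fin.prod_univ_succAbove _ j, hT c hc, Finset.prod_empty,
      one_mul]
  rw [Finset.sum_congr rfl h1, ← Finset.sum_image (f := fun x : Finset (Fin n) ×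
      (Fin m → Finset (Fin n)) => (∏ l, ∏ i ∈ x.2 l, 1 / q i) *
      (∑ t : Finset (Fin n), (∏ i ∈ t, 1 / q i) * CA_f g x.1 (j.insertNth t x.2)) ^ 2) hinj]
  refine Finset.sum_le_sum_of_subset_of_nonneg (Finset.subset_univ _) fun x _ _ => ?_
  refine mul_nonneg ?_ (sq_nonneg _)
  exact Finset.prod_nonneg fun l _ => Finset.prod_nonneg fun i _ => (one_div_pos.2 (hq i)).le

theorem t_CA (h : S_TR) : S_CA := by
  intro m M hM n q σ hq hσ Λ C ε hΛ hC hε hcount g hg
  have hq0 : ∀ i, 0 < q i := fun i => by linarith [hq i]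
  calc ∑ j : Fin (m + 1), ∑ c ∈ univ.filter (fun c : Fin n → Col (m + 1) =>
          ∀ i, c i ≠ some (some j)), (∏ i, w0 (q i) (c i)) *
          (∑ t ∈ (Es c).powerset, (∏ i ∈ t, 1 / q i) * g (recol c j t)) ^ 2
      ≤ ∑ j : Fin (m + 1), ∑ S : Finset (Fin n), ∑ T : Fin m → Finset (Fin n),
          (∏ l, ∏ i ∈ T l, 1 / q i) *
          (∑ t : Finset (Fin n), (∏ i ∈ t, 1 / q i) * CA_f g S (j.insertNth t T)) ^ 2 :=
        Finset.sum_le_sum fun j _ => CA_left q hq0 g j
    _ = ∑ S : Finset (Fin n), ∑ j : Fin (m + 1), ∑ T : Fin m → Finset (Fin n),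
          (∏ l, ∏ i ∈ T l, 1 / q i) *
          (∑ t : Finset (Fin n), (∏ i ∈ t, 1 / q i) * CA_f g S (j.insertNth t T)) ^ 2 :=
        Finset.sum_comm
    _ ≤ ∑ S : Finset (Fin n), C * (1 + (m + 1) * ε) * M *
          ∑ T : Fin (m + 1) → Finset (Fin n), (∏ l, ∏ i ∈ T l, 1 / q i) * CA_f g S T ^ 2 := by
        refine Finset.sum_le_sum fun S _ => ?_
        refine h m M hM (Finset (Fin n)) (fun t => ∏ i ∈ t, 1 / q i) (fun t => ∑ i ∈ t, σ i)
          (fun t => Finset.prod_pos fun i _ => one_div_pos.2 (hq0 i))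
          (fun t => Finset.sum_nonneg fun i _ => hσ i) Λ C ε hΛ hC hε hcount
          (fun T => CA_f g S T) ?_
        intro T hT
        obtain ⟨c, -, h2, h3⟩ := CA_f_ne hT
        rw [← h2]
        exact (CA_sig hσ c).trans (hg c h3)
    _ = C * (1 + (m + 1) * ε) * M * ∑ c : Fin n → Col (m + 1),
          (∏ i, w0 (q i) (c i)) * g c ^ 2 := by
        rw [← Finset.mul_sum, CA_right]

end Pool.Agent.N422.MK
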