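import Pool.Agent.N422.MK.Stm

/-! Project MK: the combinatorial inequality over colourings, the errors at one site (`S_CB`). By helper279. -/

set_option autoImplicit false

open Finset

namespace Pool.Agent.N422.MK

/-- the places with the colour of the site `j` -/
def CBB {n k : ℕ} (c : Fin n → Col k) (j : Fin k) : Finset (Fin n) :=
  univ.filter (fun i => c i = some (some j))

/-- the places of `t` get the colour `none` -/
def CBer {n k : ℕ} (c : Fin n → Col k) (t : Finset (Fin n)) : Fin n → Col k :=
  fun i => if i ∈ t then none else c i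

lemma CB_mem {n k : ℕ} {c : Fin n → Col k} {j : Fin k} {i : Fin n} :
    i ∈ CBB c j ↔ c i = some (some j) := by
  simp [CBB]

lemma CB_er_recol {n k : ℕ} {c : Fin n → Col k} {j : Fin k} {t : Finset (Fin n)} (ht : t ⊆ Es c) :
    CBer (recol c j t) t = c := by
  funext i
  unfold CBer recol
  by_cases h : i ∈ t
  · have := ht h
    simp only [Es, mem_filter, mem_univ, true_and] at this
    simp [h, this]
  · simp [h]

lemma CB_recol_er {n k : ℕ} {c : Fin n → Col k} {j : Fin k} {t : Finset (Fin n)} (ht : t ⊆ CBB c j) :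
    recol (CBer c t) j t = c := by
  funext i
  unfold CBer recol
  by_cases h : i ∈ t
  · have := ht h
    simp only [CBB, mem_filter, mem_univ, true_and] at this
    simp [h, this]
  · simp [h]

lemma CB_sdiff {n k : ℕ} {c : Fin n → Col k} {j : Fin k} {t : Finset (Fin n)} (ht : t ⊆ Es c) :
    CBB (recol c j t) j \ t = CBB c j := by
  ext i
  rw [mem_sdiff, CB_mem, CB_mem]
  constructor
  · rintro ⟨h1, h2⟩
    have h3 : recol c j t i = c i := if_neg h2
    rwa [h3] at h1
  · intro h
    have h2 : i ∉ t := by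
      intro h3
      have := ht h3
      simp only [Es, mem_filter, mem_univ, true_and] at this
      rw [this] at h
      exact absurd h (by simp)
    have h3 : recol c j t i = c i := if_neg h2
    exact ⟨by rw [h3]; exact h, h2⟩

lemma CB_sub {n k : ℕ} {c : Fin n → Col k} {j : Fin k} {t : Finset (Fin n)} :
    t ⊆ CBB (recol c j t) j := by
  intro i hi
  simp [CBB, recol, hi]

lemma CB_subEs {n k : ℕ} {c : Fin n → Col k} {t : Finset (Fin n)} : t ⊆ Es (CBer c t) := by
  intro i hi
  simp [Es, CBer, hi]

lemma CB_Ber {n k : ℕ} {c : Fin n → Col k} {j : Fin k} {t : Finset (Fin n)} :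
    CBB (CBer c t) j = CBB c j \ t := by
  ext i
  simp only [CBB, CBer, mem_filter, mem_univ, true_and, mem_sdiff]
  by_cases h : i ∈ t <;> simp [h]

/-- regrouping -/
lemma CB_regroup {n k : ℕ} (j : Fin k) (F : (Fin n → Col k) → ℝ) (G : Finset (Fin n) → ℝ) :
    ∑ c ∈ univ.filter (fun c : Fin n → Col k => ∃ i, c i = some (some j)),
      ∑ t ∈ (Es c).powerset, G (CBB c j) * F (recol c j t) =
    ∑ c : Fin n → Col k, F c * ∑ t ∈ (CBB c j).powerset.filter (fun t => (CBB c j \ t).Nonempty),
      G (CBB c j \ t) := by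
  simp only [mul_sum]
  rw [sum_sigma', sum_sigma']
  refine sum_nbij' (fun p => ⟨recol p.1 j p.2, p.2⟩) (fun p => ⟨CBer p.1 p.2, p.2⟩) ?_ ?_ ?_ ?_ ?_
  · rintro ⟨c, t⟩ h
    simp only [mem_sigma, mem_filter, mem_univ, true_and, mem_powerset] at h ⊢
    refine ⟨CB_sub, ?_⟩
    rw [CB_sdiff h.2]
    obtain ⟨i, hi⟩ := h.1
    exact ⟨i, by simp [CBB, hi]⟩
  · rintro ⟨c, t⟩ h
    simp only [mem_sigma, mem_filter, mem_univ, true_and, mem_powerset] at h ⊢
    refine ⟨?_, CB_subEs⟩
    obtain ⟨i, hi⟩ := h.2
    rw [← CB_Ber] at hi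
    exact ⟨i, by simpa [CBB] using hi⟩
  · rintro ⟨c, t⟩ h
    simp only [mem_sigma, mem_filter, mem_univ, true_and, mem_powerset] at h
    simp only [CB_er_recol h.2]
  · rintro ⟨c, t⟩ h
    simp only [mem_sigma, mem_filter, mem_univ, true_and, mem_powerset] at h
    simp only [CB_recol_er h.1]
  · rintro ⟨c, t⟩ h
    simp only [mem_sigma, mem_filter, mem_univ, true_and, mem_powerset] at h
    simp only [CB_sdiff h.2]
    ring

lemma CB_w0_nonneg {k : ℕ} {q : ℝ} (hq : 2 ≤ q) (a : Col k) : 0 ≤ w0 q a := by
  rcases a with _ | _ | a <;> simp only [w0] <;> positivity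

lemma CB_P0 {n k : ℕ} (q : Fin n → ℝ) {c : Fin n → Col k} {j : Fin k} {t : Finset (Fin n)}
    (ht : t ⊆ Es c) :
    ∏ i, w0 (q i) (recol c j t i) = (∏ i, w0 (q i) (c i)) * ∏ i ∈ t, 1 / q i := by
  have h1 : ∏ i ∈ t, 1 / q i = ∏ i, (if i ∈ t then 1 / q i else 1) := by
    rw [prod_ite_mem, univ_inter]
  rw [h1, ← prod_mul_distrib]
  refine prod_congr rfl fun i _ => ?_
  by_cases h : i ∈ t
  · have := ht h
    simp only [Es, mem_filter, mem_univ, true_and] at this
    simp [recol, h, w0, this]
  · simp [recol, h]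

/-- the local inequality -/
lemma CB_loc {k : ℕ} {q : ℝ} (hk : 1 ≤ k) (hq : (k : ℝ) < q) (hq2 : 2 ≤ q) (j : Fin k) (a : Col k) :
    w1 q j a ≤ (1 - 1 / q) * Real.exp (if a ≠ none then (k + 1) / (q - k) else 0) *
      (w0 q a * (if a = some (some j) then k / (q - k) else 1)) ∧ 0 ≤ w1 q j a := by
  have hk' : (1 : ℝ) ≤ k := by exact_mod_cast hk
  have h0 : 0 < q := by linarith
  have hqk : 0 < q - k := by linarith
  have hq1 : 0 < q - 1 := by linarith
  have e1 : 1 ≤ (1 - 1 / q) * Real.exp (1 / (q - k)) := by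
    have h1 : 1 + 1 / (q - 1) ≤ Real.exp (1 / (q - k)) := by
      refine le_trans ?_ (Real.add_one_le_exp _)
      have : 1 / (q - 1) ≤ 1 / (q - k) := one_div_le_one_div_of_le hqk (by linarith)
      linarith
    have h2 : (1 - 1 / q) * (1 + 1 / (q - 1)) = 1 := by
      field_simp
      ring
    have h3 : 0 ≤ 1 - 1 / q := by
      rw [sub_nonneg, div_le_one h0]; linarith
    calc (1 : ℝ) = (1 - 1 / q) * (1 + 1 / (q - 1)) := h2.symm
      _ ≤ _ := mul_le_mul_of_nonneg_left h1 h3
  have e2 : 1 ≤ (1 - 1 / q) * Real.exp ((k + 1) / (q - k)) := by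
    refine e1.trans ?_
    have h3 : 0 ≤ 1 - 1 / q := by
      rw [sub_nonneg, div_le_one h0]; linarith
    refine mul_le_mul_of_nonneg_left (Real.exp_le_exp.2 ?_) h3
    exact div_le_div_of_nonneg_right (by linarith) hqk.le
  have e3 : 1 / (q - k) ≤ (1 - 1 / q) * Real.exp ((k + 1) / (q - k)) * (1 / q) := by
    have h1 : 1 / (q - k) = (1 / q) * (1 + k / (q - k)) := by
      field_simp
      ring
    have h2 : 1 + k / (q - k) ≤ Real.exp (k / (q - k)) := by
      have := Real.add_one_le_exp ((k : ℝ) / (q - k))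
      linarith
    have h4 : Real.exp ((k + 1) / (q - k)) = Real.exp (1 / (q - k)) * Real.exp (k / (q - k)) := by
      rw [← Real.exp_add]
      congr 1
      ring
    have h5 : (1 - 1 / q) * (Real.exp (1 / (q - k)) * Real.exp (k / (q - k))) * (1 / q) =
        ((1 - 1 / q) * Real.exp (1 / (q - k))) * ((1 / q) * Real.exp (k / (q - k))) := by ring
    rw [h4, h5]
    calc 1 / (q - k) = 1 / q * (1 + k / (q - k)) := h1
      _ ≤ 1 / q * Real.exp (k / (q - k)) :=
          mul_le_mul_of_nonneg_left h2 (by positivity)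
      _ ≤ _ := le_mul_of_one_le_left (by positivity) e1
  rcases a with _ | _ | a
  · refine ⟨?_, ?_⟩
    · simp [w1, w0]
    · simp only [w1]
      rw [sub_nonneg, div_le_one h0]; linarith
  · refine ⟨?_, ?_⟩
    · simpa [w1, w0] using e2
    · simp [w1]
  · by_cases haj : a = j
    · subst haj
      refine ⟨?_, ?_⟩
      · simp only [w1, w0, if_true, ne_eq, reduceCtorEq, not_false_eq_true]
        have : (k : ℝ) / (q * (q - k)) = 1 / q * (k / (q - k)) := by
          field_simp
        rw [this]
        exact le_mul_of_one_le_left (by positivity) e2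
      · simp only [w1, if_true]; positivity
    · refine ⟨?_, ?_⟩
      · have hne : ¬ (some (some a) : Col k) = some (some j) := by
          intro h; exact haj (by simpa using h)
        simp only [w1, w0, if_neg haj, if_neg hne, mul_one, ne_eq, reduceCtorEq,
          not_false_eq_true, if_true]
        exact e3
      · simp only [w1, if_neg haj]; positivity

/-- **The errors at one site.** -/
theorem t_CB : S_CB := by
  intro k n q σ hqk hq2 hσ Λ C ε x hΛ hC hε hx hx1 hμ g hg j
  have hk : 1 ≤ k := Nat.one_le_of_lt j.2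
  have hk' : (1 : ℝ) ≤ k := by exact_mod_cast hk
  set V : ℝ := ∏ i, (1 - 1 / q i) with hV
  have hq0 : ∀ i, 0 < q i := fun i => by linarith [hq2 i]
  have hqk0 : ∀ i, 0 < q i - k := fun i => by linarith [hqk i]
  have hq10 : ∀ i, 0 < q i - 1 := fun i => by linarith [hq2 i]
  have hV0 : 0 ≤ V := prod_nonneg fun i _ => by
    rw [sub_nonneg, div_le_one (hq0 i)]; linarith [hq2 i]
  have hP0 : ∀ c : Fin n → Col k, 0 ≤ ∏ i, w0 (q i) (c i) := fun c =>
    prod_nonneg fun i _ => CB_w0_nonneg (hq2 i) _
  set K : ℝ := V * Real.exp ((k + 3) * x) * C * (1 + ε) with hK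
  have hK0 : 0 ≤ K := by positivity
  set d : Finset (Fin n) → ℝ := fun B => ∏ i ∈ B, (k : ℝ) / (q i - k) with hd
  have hd0 : ∀ B, 0 ≤ d B := fun B => prod_nonneg fun i _ => div_nonneg (by positivity) (hqk0 i).le
  -- the inequality for one colouring
  have hone : ∀ c : Fin n → Col k,
      (∏ i, w1 (q i) j (c i)) * (∑ t ∈ (Es c).powerset, (∏ i ∈ t, 1 / (q i - 1)) * g (recol c j t)) ^ 2 ≤
        K * ∑ t ∈ (Es c).powerset, d (CBB c j) *
          ((∏ i, w0 (q i) (recol c j t i)) * g (recol c j t) ^ 2) := by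
    intro c
    by_cases hall : ∀ t ∈ (Es c).powerset, g (recol c j t) = 0
    · rw [sum_eq_zero (fun t ht => by rw [hall t ht, mul_zero])]
      have : 0 ≤ K * ∑ t ∈ (Es c).powerset, d (CBB c j) *
          ((∏ i, w0 (q i) (recol c j t i)) * g (recol c j t) ^ 2) :=
        mul_nonneg hK0 (sum_nonneg fun t _ => mul_nonneg (hd0 _) (mul_nonneg (hP0 _) (sq_nonneg _)))
      simpa using this
    · push Not at hall
      obtain ⟨t₀, ht₀, hgt₀⟩ := hall
      rw [mem_powerset] at ht₀
      -- the sum of `1 / (q - k)` over the coloured places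
      have hN : ∑ i ∈ univ.filter (fun i => c i ≠ none), 1 / (q i - k) ≤ x := by
        refine hx1 _ (le_trans ?_ (hg _ hgt₀))
        refine sum_le_sum_of_subset_of_nonneg ?_ fun i _ _ => hσ i
        intro i hi
        simp only [mem_filter, mem_univ, true_and] at hi ⊢
        unfold recol
        split_ifs
        · simp
        · exact hi
      -- the product of the `w1`
      have hW : ∏ i, w1 (q i) j (c i) ≤ V * Real.exp ((k + 1) * x) *
          ((∏ i, w0 (q i) (c i)) * d (CBB c j)) := by
        have h1 : ∏ i, w1 (q i) j (c i) ≤ ∏ i, ((1 - 1 / q i) *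
            Real.exp (if c i ≠ none then (k + 1) / (q i - k) else 0) *
            (w0 (q i) (c i) * (if c i = some (some j) then (k : ℝ) / (q i - k) else 1))) :=
          prod_le_prod (fun i _ => (CB_loc hk (hqk i) (hq2 i) j (c i)).2)
            fun i _ => (CB_loc hk (hqk i) (hq2 i) j (c i)).1
        refine h1.trans ?_
        rw [prod_mul_distrib, prod_mul_distrib, prod_mul_distrib, ← Real.exp_sum]
        have h2 : ∑ i, (if c i ≠ none then ((k : ℝ) + 1) / (q i - k) else 0) ≤ (k + 1) * x := by
          rw [← sum_filter]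
          have h3 : ∑ i ∈ univ.filter (fun i => c i ≠ none), ((k : ℝ) + 1) / (q i - k) =
              (k + 1) * ∑ i ∈ univ.filter (fun i => c i ≠ none), 1 / (q i - k) := by
            rw [mul_sum]
            exact sum_congr rfl fun i _ => by ring
          rw [h3]
          exact mul_le_mul_of_nonneg_left hN (by positivity)
        have h4 : ∏ i, (if c i = some (some j) then (k : ℝ) / (q i - k) else 1) = d (CBB c j) := by
          simp only [hd, CBB, prod_filter]
        rw [h4]
        refine mul_le_mul_of_nonneg_right ?_ (mul_nonneg (hP0 c) (hd0 _))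
        exact mul_le_mul_of_nonneg_left (Real.exp_le_exp.2 h2) hV0
      have hW0 : 0 ≤ ∏ i, w1 (q i) j (c i) :=
        prod_nonneg fun i _ => (CB_loc hk (hqk i) (hq2 i) j (c i)).2
      -- the square
      have hS : (∑ t ∈ (Es c).powerset, (∏ i ∈ t, 1 / (q i - 1)) * g (recol c j t)) ^ 2 ≤
          Real.exp (2 * x) * (C * (1 + ε)) *
            ∑ t ∈ (Es c).powerset, (∏ i ∈ t, 1 / q i) * g (recol c j t) ^ 2 := by
        set 𝒯 := (Es c).powerset.filter (fun t => g (recol c j t) ≠ 0) with h𝒯
        have hS1 : ∑ t ∈ (Es c).powerset, (∏ i ∈ t, 1 / (q i - 1)) * g (recol c j t) =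
            ∑ t ∈ 𝒯, (∏ i ∈ t, 1 / (q i - 1)) * g (recol c j t) := by
          rw [h𝒯, sum_filter_of_ne]
          intro t _ h h0
          exact h (by rw [h0, mul_zero])
        have hσt : ∀ t ∈ 𝒯, ∑ i ∈ t, σ i ≤ Λ := by
          intro t ht
          rw [h𝒯, mem_filter] at ht
          refine le_trans ?_ (hg _ ht.2)
          refine sum_le_sum_of_subset_of_nonneg ?_ fun i _ _ => hσ i
          intro i hi
          rw [mem_filter]
          have h3 : recol c j t i = some (some j) := if_pos hi
          exact ⟨mem_univ _, by rw [h3]; simp⟩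
        have hmu0 : ∀ t : Finset (Fin n), 0 ≤ ∏ i ∈ t, 1 / q i := fun t =>
          prod_nonneg fun i _ => (div_pos one_pos (hq0 i)).le
        have ha0 : ∀ t : Finset (Fin n), 0 ≤ ∏ i ∈ t, 1 / (q i - 1) := fun t =>
          prod_nonneg fun i _ => (div_pos one_pos (hq10 i)).le
        have ha : ∀ t ∈ 𝒯, ∏ i ∈ t, 1 / (q i - 1) ≤ Real.exp x * ∏ i ∈ t, 1 / q i := by
          intro t ht
          have h1 : ∏ i ∈ t, 1 / (q i - 1) ≤ ∏ i ∈ t, (Real.exp (1 / (q i - k)) * (1 / q i)) := by
            refine prod_le_prod (fun i _ => (div_pos one_pos (hq10 i)).le) fun i _ => ?_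
            have h2 : 1 / (q i - 1) = (1 + 1 / (q i - 1)) * (1 / q i) := by
              have := (hq10 i).ne'
              have := (hq0 i).ne'
              field_simp
              ring
            rw [h2]
            refine mul_le_mul_of_nonneg_right ?_ (div_pos one_pos (hq0 i)).le
            have h3 : 1 / (q i - 1) ≤ 1 / (q i - k) :=
              one_div_le_one_div_of_le (hqk0 i) (by linarith)
            have h4 := Real.add_one_le_exp (1 / (q i - k))
            linarith
          refine h1.trans ?_
          rw [prod_mul_distrib, ← Real.exp_sum]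
          exact mul_le_mul_of_nonneg_right (Real.exp_le_exp.2 (hx1 t (hσt t ht))) (hmu0 t)
        rw [hS1]
        have hCS := sum_sq_le_sum_mul_sum_of_sq_le_mul 𝒯
          (r := fun t => (∏ i ∈ t, 1 / (q i - 1)) * g (recol c j t))
          (f := fun t => ∏ i ∈ t, 1 / (q i - 1))
          (g := fun t => (∏ i ∈ t, 1 / (q i - 1)) * g (recol c j t) ^ 2)
          (fun t _ => ha0 t) (fun t _ => mul_nonneg (ha0 t) (sq_nonneg _))
          (fun t _ => le_of_eq (by ring))
        refine hCS.trans ?_
        have hA : ∑ t ∈ 𝒯, ∏ i ∈ t, 1 / (q i - 1) ≤ Real.exp x * (C * (1 + ε)) := by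
          calc ∑ t ∈ 𝒯, ∏ i ∈ t, 1 / (q i - 1) ≤ ∑ t ∈ 𝒯, Real.exp x * ∏ i ∈ t, 1 / q i :=
                sum_le_sum ha
            _ = Real.exp x * ∑ t ∈ 𝒯, ∏ i ∈ t, 1 / q i := by rw [mul_sum]
            _ ≤ Real.exp x * ∑ t ∈ univ.filter (fun t : Finset (Fin n) => ∑ i ∈ t, σ i ≤ Λ),
                ∏ i ∈ t, 1 / q i := by
                refine mul_le_mul_of_nonneg_left ?_ (Real.exp_pos _).le
                refine sum_le_sum_of_subset_of_nonneg ?_ fun t _ _ => hmu0 t
                intro t ht
                rw [mem_filter]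
                exact ⟨mem_univ _, hσt t ht⟩
            _ ≤ _ := mul_le_mul_of_nonneg_left hμ (Real.exp_pos _).le
        have hB : ∑ t ∈ 𝒯, (∏ i ∈ t, 1 / (q i - 1)) * g (recol c j t) ^ 2 ≤
            Real.exp x * ∑ t ∈ (Es c).powerset, (∏ i ∈ t, 1 / q i) * g (recol c j t) ^ 2 := by
          calc ∑ t ∈ 𝒯, (∏ i ∈ t, 1 / (q i - 1)) * g (recol c j t) ^ 2
              ≤ ∑ t ∈ 𝒯, Real.exp x * ((∏ i ∈ t, 1 / q i) * g (recol c j t) ^ 2) := by
                refine sum_le_sum fun t ht => ?_
                rw [← mul_assoc]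
                exact mul_le_mul_of_nonneg_right (ha t ht) (sq_nonneg _)
            _ = Real.exp x * ∑ t ∈ 𝒯, (∏ i ∈ t, 1 / q i) * g (recol c j t) ^ 2 := by rw [mul_sum]
            _ ≤ _ := by
                refine mul_le_mul_of_nonneg_left ?_ (Real.exp_pos _).le
                exact sum_le_sum_of_subset_of_nonneg (filter_subset _ _)
                  fun t _ _ => mul_nonneg (hmu0 t) (sq_nonneg _)
        have h2x : Real.exp (2 * x) = Real.exp x * Real.exp x := by
          rw [← Real.exp_add]; congr 1; ring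
        calc (∑ t ∈ 𝒯, ∏ i ∈ t, 1 / (q i - 1)) *
              ∑ t ∈ 𝒯, (∏ i ∈ t, 1 / (q i - 1)) * g (recol c j t) ^ 2
            ≤ (Real.exp x * (C * (1 + ε))) *
              (Real.exp x * ∑ t ∈ (Es c).powerset, (∏ i ∈ t, 1 / q i) * g (recol c j t) ^ 2) :=
              mul_le_mul hA hB (sum_nonneg fun t _ => mul_nonneg (ha0 t) (sq_nonneg _))
                (by positivity)
          _ = _ := by rw [h2x]; ring
      calc (∏ i, w1 (q i) j (c i)) *
            (∑ t ∈ (Es c).powerset, (∏ i ∈ t, 1 / (q i - 1)) * g (recol c j t)) ^ 2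
          ≤ (V * Real.exp ((k + 1) * x) * ((∏ i, w0 (q i) (c i)) * d (CBB c j))) *
            (Real.exp (2 * x) * (C * (1 + ε)) *
              ∑ t ∈ (Es c).powerset, (∏ i ∈ t, 1 / q i) * g (recol c j t) ^ 2) :=
            mul_le_mul hW hS (sq_nonneg _) (by
              have := hP0 c
              have := hd0 (CBB c j)
              positivity)
        _ = K * ∑ t ∈ (Es c).powerset, d (CBB c j) *
              (((∏ i, w0 (q i) (c i)) * ∏ i ∈ t, 1 / q i) * g (recol c j t) ^ 2) := by
            have h3x : Real.exp ((k + 3) * x) = Real.exp ((k + 1) * x) * Real.exp (2 * x) := by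
              rw [← Real.exp_add]; congr 1; ring
            rw [hK, h3x, mul_sum, mul_sum, mul_sum]
            refine sum_congr rfl fun t _ => ?_
            ring
        _ = _ := by
            congr 1
            refine sum_congr rfl fun t ht => ?_
            rw [CB_P0 q (mem_powerset.1 ht)]
  -- summation
  calc ∑ c ∈ univ.filter (fun c : Fin n → Col k => ∃ i, c i = some (some j)),
        (∏ i, w1 (q i) j (c i)) *
          (∑ t ∈ (Es c).powerset, (∏ i ∈ t, 1 / (q i - 1)) * g (recol c j t)) ^ 2
      ≤ ∑ c ∈ univ.filter (fun c : Fin n → Col k => ∃ i, c i = some (some j)),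
        K * ∑ t ∈ (Es c).powerset, d (CBB c j) *
          ((∏ i, w0 (q i) (recol c j t i)) * g (recol c j t) ^ 2) := sum_le_sum fun c _ => hone c
    _ = K * ∑ c : Fin n → Col k, ((∏ i, w0 (q i) (c i)) * g c ^ 2) *
        ∑ t ∈ (CBB c j).powerset.filter (fun t => (CBB c j \ t).Nonempty), d (CBB c j \ t) := by
        rw [← mul_sum]
        congr 1
        exact CB_regroup j (fun c => (∏ i, w0 (q i) (c i)) * g c ^ 2) d
    _ ≤ K * ∑ c : Fin n → Col k, ((∏ i, w0 (q i) (c i)) * g c ^ 2) * (Real.exp (k * x) - 1) := by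
        refine mul_le_mul_of_nonneg_left (sum_le_sum fun c _ => ?_) hK0
        by_cases hgc : g c = 0
        · rw [hgc]; simp
        · refine mul_le_mul_of_nonneg_left ?_ (mul_nonneg (hP0 c) (sq_nonneg _))
          -- the sum over the nonempty subsets
          have h1 : ∑ t ∈ (CBB c j).powerset.filter (fun t => (CBB c j \ t).Nonempty),
              d (CBB c j \ t) = ∏ i ∈ CBB c j, (1 + (k : ℝ) / (q i - k)) - 1 := by
            have h2 : ∏ i ∈ CBB c j, (1 + (k : ℝ) / (q i - k)) =
                ∑ t ∈ (CBB c j).powerset, d (CBB c j \ t) := by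
              rw [prod_add]
              refine sum_congr rfl fun t _ => ?_
              rw [prod_const_one, one_mul]
            rw [h2, ← sum_filter_add_sum_filter_not (CBB c j).powerset
              (fun t => (CBB c j \ t).Nonempty)]
            have h3 : (CBB c j).powerset.filter (fun t => ¬ (CBB c j \ t).Nonempty) = {CBB c j} := by
              ext t
              simp only [mem_filter, mem_powerset, not_nonempty_iff_eq_empty, sdiff_eq_empty_iff_subset,
                mem_singleton]
              exact ⟨fun h => subset_antisymm h.1 h.2, fun h => by rw [h]; exact ⟨subset_rfl, subset_rfl⟩⟩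
            rw [h3, sum_singleton, sdiff_self]
            have h4 : d (∅ : Finset (Fin n)) = 1 := by simp [hd]
            have h5 : (⊥ : Finset (Fin n)) = ∅ := rfl
            rw [h5, h4]
            ring
          rw [h1]
          have hσD : ∑ i ∈ CBB c j, σ i ≤ Λ := by
            refine le_trans ?_ (hg _ hgc)
            refine sum_le_sum_of_subset_of_nonneg ?_ fun i _ _ => hσ i
            intro i hi
            simp only [CBB, mem_filter, mem_univ, true_and] at hi ⊢
            rw [hi]; simp
          have h6 : ∏ i ∈ CBB c j, (1 + (k : ℝ) / (q i - k)) ≤ Real.exp (k * x) := by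
            calc ∏ i ∈ CBB c j, (1 + (k : ℝ) / (q i - k))
                ≤ ∏ i ∈ CBB c j, Real.exp ((k : ℝ) / (q i - k)) := by
                  refine prod_le_prod (fun i _ => ?_) fun i _ => ?_
                  · have := div_nonneg (zero_le_one.trans hk') (hqk0 i).le
                    linarith
                  · have := Real.add_one_le_exp ((k : ℝ) / (q i - k))
                    linarith
              _ = Real.exp (∑ i ∈ CBB c j, (k : ℝ) / (q i - k)) := (Real.exp_sum _ _).symm
              _ ≤ _ := by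
                  refine Real.exp_le_exp.2 ?_
                  have h7 : ∑ i ∈ CBB c j, (k : ℝ) / (q i - k) =
                      k * ∑ i ∈ CBB c j, 1 / (q i - k) := by
                    rw [mul_sum]
                    exact sum_congr rfl fun i _ => by ring
                  rw [h7]
                  exact mul_le_mul_of_nonneg_left (hx1 _ hσD) (by positivity)
          linarith
    _ = _ := by
        rw [← sum_mul, hK]
        ring

end Pool.Agent.N422.MK
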