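import Pool.Agent.N422.MK.Stm

/-! Project MK (helper422), subtask 2307: assembly of the combinatorial inequality (helper157). -/

set_option autoImplicit false

open Finset

namespace Pool.Agent.N422.MK

/-- comparison of the local weights -/
lemma comb_w (m : ℕ) {q : ℝ} (h1 : (m : ℝ) + 1 < q) (h2 : 2 ≤ q) (j : Fin (m + 1)) (c : Col (m + 1))
    (hc : c ≠ some (some j)) :
    w1 q j c ≤ (1 - 1 / q) * w0 q c * Real.exp (if c ≠ none then ((m : ℝ) + 2) * (1 / (q - (m + 1))) else 0) := by
  have hm : (0 : ℝ) ≤ m := Nat.cast_nonneg m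
  have hq0 : 0 < q := by linarith
  have hqk : 0 < q - (m + 1) := by linarith
  have hq1 : 0 < q - 1 := by linarith
  have hy : 0 < 1 / (q - (m + 1)) := by positivity
  have hexp : ∀ a : ℝ, 0 ≤ a → 1 + a * (1 / (q - (m + 1))) ≤ Real.exp (a * (1 / (q - (m + 1)))) := by
    intro a _
    have := Real.add_one_le_exp (a * (1 / (q - (m + 1))))
    linarith
  have h11 : 1 / (q - 1) ≤ 1 / (q - (m + 1)) := by
    apply one_div_le_one_div_of_le hqk
    linarith
  have hA : 1 ≤ (1 - 1 / q) * (1 + 1 * (1 / (q - (m + 1)))) := by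
    have : (1 : ℝ) = (1 - 1 / q) * (1 + 1 / (q - 1)) := by field_simp; ring
    calc (1 : ℝ) = (1 - 1 / q) * (1 + 1 / (q - 1)) := this
      _ ≤ (1 - 1 / q) * (1 + 1 * (1 / (q - (m + 1)))) := by
          apply mul_le_mul_of_nonneg_left
          · linarith
          · rw [sub_nonneg, div_le_one hq0]; linarith
  have hV : 0 ≤ 1 - 1 / q := by rw [sub_nonneg, div_le_one hq0]; linarith
  have hsplit : Real.exp (((m : ℝ) + 2) * (1 / (q - (m + 1)))) =
      Real.exp (1 * (1 / (q - (m + 1)))) * Real.exp (((m : ℝ) + 1) * (1 / (q - (m + 1)))) := by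
    rw [← Real.exp_add]; congr 1; ring
  match c, hc with
  | none, _ => simp [w1, w0]
  | some none, _ =>
    have : (if (some none : Col (m + 1)) ≠ none then ((m : ℝ) + 2) * (1 / (q - (m + 1))) else 0) =
        ((m : ℝ) + 2) * (1 / (q - (m + 1))) := by simp
    rw [this, hsplit]
    simp only [w1, w0, mul_one]
    have e1 := hexp 1 (by norm_num)
    have e2 : 1 ≤ Real.exp (((m : ℝ) + 1) * (1 / (q - (m + 1)))) := Real.one_le_exp (by positivity)
    calc (1 : ℝ) ≤ (1 - 1 / q) * (1 + 1 * (1 / (q - (m + 1)))) := hA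
      _ ≤ (1 - 1 / q) * Real.exp (1 * (1 / (q - (m + 1)))) := mul_le_mul_of_nonneg_left e1 hV
      _ ≤ (1 - 1 / q) * (Real.exp (1 * (1 / (q - (m + 1)))) * Real.exp (((m : ℝ) + 1) * (1 / (q - (m + 1))))) := by
          apply mul_le_mul_of_nonneg_left _ hV
          exact le_mul_of_one_le_right (Real.exp_nonneg _) e2
  | some (some l), hc =>
    have hl : l ≠ j := fun h => hc (by rw [h])
    have : (if (some (some l) : Col (m + 1)) ≠ none then ((m : ℝ) + 2) * (1 / (q - (m + 1))) else 0) =
        ((m : ℝ) + 2) * (1 / (q - (m + 1))) := by simp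
    rw [this, hsplit]
    simp only [w1, w0, if_neg hl]
    push_cast
    have e1 := hexp 1 (by norm_num)
    have e2 := hexp ((m : ℝ) + 1) (by positivity)
    have h3 : 1 / (q - (m + 1)) = 1 / q * (1 + ((m : ℝ) + 1) * (1 / (q - (m + 1)))) := by
      field_simp; ring
    have hB : 1 ≤ (1 - 1 / q) * Real.exp (1 * (1 / (q - (m + 1)))) := hA.trans (mul_le_mul_of_nonneg_left e1 hV)
    calc 1 / (q - (m + 1)) = 1 * (1 / q * (1 + ((m : ℝ) + 1) * (1 / (q - (m + 1))))) := by rw [one_mul]; exact h3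
      _ ≤ ((1 - 1 / q) * Real.exp (1 * (1 / (q - (m + 1))))) *
          (1 / q * Real.exp (((m : ℝ) + 1) * (1 / (q - (m + 1))))) := by
          apply mul_le_mul hB _ (by positivity) (by positivity)
          exact mul_le_mul_of_nonneg_left e2 (by positivity)
      _ = _ := by ring

lemma comb_w0_nonneg {k : ℕ} {q : ℝ} (h : 0 ≤ q) (c : Col k) : 0 ≤ w0 q c := by
  match c with
  | none => simp [w0]
  | some none => simp [w0]
  | some (some l) => simp only [w0]; positivity

lemma comb_w1_nonneg (m : ℕ) {q : ℝ} (h1 : (m : ℝ) + 1 < q) (h2 : 2 ≤ q) (j : Fin (m + 1)) (c : Col (m + 1)) :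
    0 ≤ w1 q j c := by
  have hq0 : 0 < q := by linarith
  have hqk : 0 < q - (m + 1) := by linarith
  match c with
  | none => simp only [w1]; rw [sub_nonneg, div_le_one hq0]; linarith
  | some none => simp [w1]
  | some (some l) =>
    simp only [w1]
    push_cast
    split_ifs
    · positivity
    · positivity

/-- the sums along the site -/
lemma comb_t (m : ℕ) {n : ℕ} (q σ : Fin n → ℝ) (h1 : ∀ i, ((m : ℝ) + 1) < q i) (h2 : ∀ i, 2 ≤ q i) {Λ x : ℝ}
    (hx : ∀ t : Finset (Fin n), ∑ i ∈ t, σ i ≤ Λ → ∑ i ∈ t, 1 / (q i - (m + 1)) ≤ x)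
    (t : Finset (Fin n)) (ht : ∑ i ∈ t, σ i ≤ Λ) :
    ∏ i ∈ t, 1 / (q i - 1) ≤ Real.exp x * ∏ i ∈ t, 1 / q i := by
  have hm : (0 : ℝ) ≤ m := Nat.cast_nonneg m
  calc ∏ i ∈ t, 1 / (q i - 1) ≤ ∏ i ∈ t, (Real.exp (1 / (q i - (m + 1))) * (1 / q i)) := by
        apply prod_le_prod
        · intro i _
          have := h2 i
          have : 0 < q i - 1 := by linarith
          positivity
        · intro i _
          have a1 := h1 i
          have a2 := h2 i
          have hqk : 0 < q i - (m + 1) := by linarith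
          have hq1 : 0 < q i - 1 := by linarith
          have hq0 : 0 < q i := by linarith
          have h11 : 1 / (q i - 1) ≤ 1 / (q i - (m + 1)) := by
            apply one_div_le_one_div_of_le hqk
            linarith
          have := Real.add_one_le_exp (1 / (q i - (m + 1)))
          calc 1 / (q i - 1) = (1 / (q i - 1) + 1) * (1 / q i) := by field_simp; ring
            _ ≤ _ := mul_le_mul_of_nonneg_right (by linarith) (by positivity)
    _ = Real.exp (∑ i ∈ t, 1 / (q i - (m + 1))) * ∏ i ∈ t, 1 / q i := by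
        rw [prod_mul_distrib, Real.exp_sum]
    _ ≤ _ := by
        apply mul_le_mul_of_nonneg_right (Real.exp_le_exp.2 (hx t ht))
        apply prod_nonneg
        intro i _
        have := h2 i
        positivity

/-- the combinatorial inequality from the main terms and the errors at one site -/
theorem t_COMB (ha : S_CA) (hb : S_CB) : S_COMB := by
  intro m M hM n q σ hq1 hq2 hσ Λ C ε x hΛ hC hε hx0 hx hcount g hg
  have hm : (0 : ℝ) ≤ m := Nat.cast_nonneg m
  have hq0 : ∀ i, 0 < q i := fun i => by have := hq2 i; linarith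
  set V := ∏ i, (1 - 1 / q i) with hV
  have hV0 : 0 ≤ V := by
    apply prod_nonneg
    intro i _
    rw [sub_nonneg, div_le_one (hq0 i)]
    have := hq2 i
    linarith
  set En := ∑ c : Fin n → Col (m + 1), (∏ i, w0 (q i) (c i)) * g c ^ 2 with hEn
  -- inclusion of supports
  have hsub1 : ∀ (c : Fin n → Col (m + 1)) (j : Fin (m + 1)) (t : Finset (Fin n)), g (recol c j t) ≠ 0 →
      ∑ i ∈ univ.filter (fun i => c i ≠ none), σ i ≤ Λ := by
    intro c j t h
    refine le_trans (sum_le_sum_of_subset_of_nonneg ?_ (fun i _ _ => hσ i)) (hg _ h)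
    intro i hi
    rw [mem_filter] at hi ⊢
    refine ⟨mem_univ _, ?_⟩
    unfold recol
    split_ifs
    · simp
    · exact hi.2
  have hsub2 : ∀ (c : Fin n → Col (m + 1)) (j : Fin (m + 1)) (t : Finset (Fin n)), g (recol c j t) ≠ 0 →
      ∑ i ∈ t, σ i ≤ Λ := by
    intro c j t h
    refine le_trans (sum_le_sum_of_subset_of_nonneg ?_ (fun i _ _ => hσ i)) (hg _ h)
    intro i hi
    rw [mem_filter]
    refine ⟨mem_univ _, ?_⟩
    unfold recol
    rw [if_pos hi]
    simp
  have hprodnn : ∀ t : Finset (Fin n), 0 ≤ ∏ i ∈ t, 1 / q i := fun t =>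
    prod_nonneg (fun i _ => by have := hq0 i; positivity)
  have hprodnn1 : ∀ t : Finset (Fin n), 0 ≤ ∏ i ∈ t, 1 / (q i - 1) := fun t =>
    prod_nonneg (fun i _ => by have := hq2 i; have : 0 < q i - 1 := by linarith
                               positivity)
  have hw0 : ∀ c : Fin n → Col (m + 1), 0 ≤ ∏ i, w0 (q i) (c i) := fun c =>
    prod_nonneg (fun i _ => comb_w0_nonneg (hq0 i).le _)
  -- first part, one colouring
  have hone : ∀ (j : Fin (m + 1)) (c : Fin n → Col (m + 1)), (∀ i, c i ≠ some (some j)) →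
      (∏ i, w1 (q i) j (c i)) * (∑ t ∈ (Es c).powerset, (∏ i ∈ t, 1 / (q i - 1)) * g (recol c j t)) ^ 2 ≤
      (V * Real.exp ((m + 4) * x)) *
        ((∏ i, w0 (q i) (c i)) * (∑ t ∈ (Es c).powerset, (∏ i ∈ t, 1 / q i) * |g (recol c j t)|) ^ 2) := by
    intro j c hc
    by_cases hN : ∑ i ∈ univ.filter (fun i => c i ≠ none), σ i ≤ Λ
    · have hW : ∏ i, w1 (q i) j (c i) ≤ V * (∏ i, w0 (q i) (c i)) * Real.exp ((m + 2) * x) := by
        calc ∏ i, w1 (q i) j (c i) ≤ ∏ i, ((1 - 1 / q i) * w0 (q i) (c i) *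
              Real.exp (if c i ≠ none then ((m : ℝ) + 2) * (1 / (q i - (m + 1))) else 0)) := by
              apply prod_le_prod
              · intro i _
                exact comb_w1_nonneg m (hq1 i) (hq2 i) j _
              · intro i _
                exact comb_w m (hq1 i) (hq2 i) j _ (hc i)
          _ = V * (∏ i, w0 (q i) (c i)) *
              Real.exp (∑ i, if c i ≠ none then ((m : ℝ) + 2) * (1 / (q i - (m + 1))) else 0) := by
              rw [prod_mul_distrib, prod_mul_distrib, Real.exp_sum]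
          _ ≤ _ := by
              apply mul_le_mul_of_nonneg_left _ (mul_nonneg hV0 (hw0 c))
              apply Real.exp_le_exp.2
              rw [← sum_filter, ← mul_sum]
              exact mul_le_mul_of_nonneg_left (hx _ hN) (by positivity)
      have hS : |∑ t ∈ (Es c).powerset, (∏ i ∈ t, 1 / (q i - 1)) * g (recol c j t)| ≤
          Real.exp x * ∑ t ∈ (Es c).powerset, (∏ i ∈ t, 1 / q i) * |g (recol c j t)| := by
        rw [mul_sum]
        refine (abs_sum_le_sum_abs _ _).trans (sum_le_sum ?_)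
        intro t _
        rw [abs_mul, abs_of_nonneg (hprodnn1 t)]
        by_cases h0 : g (recol c j t) = 0
        · rw [h0]; simp
        · have := comb_t m q σ hq1 hq2 hx t (hsub2 c j t h0)
          calc (∏ i ∈ t, 1 / (q i - 1)) * |g (recol c j t)| ≤
                (Real.exp x * ∏ i ∈ t, 1 / q i) * |g (recol c j t)| :=
                mul_le_mul_of_nonneg_right this (abs_nonneg _)
            _ = _ := by ring
      have hS2 : (∑ t ∈ (Es c).powerset, (∏ i ∈ t, 1 / (q i - 1)) * g (recol c j t)) ^ 2 ≤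
          Real.exp (2 * x) * (∑ t ∈ (Es c).powerset, (∏ i ∈ t, 1 / q i) * |g (recol c j t)|) ^ 2 := by
        rw [← sq_abs]
        calc |∑ t ∈ (Es c).powerset, (∏ i ∈ t, 1 / (q i - 1)) * g (recol c j t)| ^ 2 ≤
              (Real.exp x * ∑ t ∈ (Es c).powerset, (∏ i ∈ t, 1 / q i) * |g (recol c j t)|) ^ 2 :=
              pow_le_pow_left₀ (abs_nonneg _) hS 2
          _ = _ := by
              rw [mul_pow, ← Real.exp_nat_mul]
              norm_num
      calc _ ≤ (V * (∏ i, w0 (q i) (c i)) * Real.exp ((m + 2) * x)) *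
            (Real.exp (2 * x) * (∑ t ∈ (Es c).powerset, (∏ i ∈ t, 1 / q i) * |g (recol c j t)|) ^ 2) := by
            apply mul_le_mul hW hS2 (sq_nonneg _)
            exact mul_nonneg (mul_nonneg hV0 (hw0 c)) (Real.exp_nonneg _)
        _ = _ := by
            have : Real.exp (((m : ℝ) + 4) * x) = Real.exp ((m + 2) * x) * Real.exp (2 * x) := by
              rw [← Real.exp_add]; congr 1; ring
            rw [this]; ring
    · have hz : ∑ t ∈ (Es c).powerset, (∏ i ∈ t, 1 / (q i - 1)) * g (recol c j t) = 0 := by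
        apply sum_eq_zero
        intro t _
        have : g (recol c j t) = 0 := by
          by_contra h
          exact hN (hsub1 c j t h)
        rw [this, mul_zero]
      rw [hz]
      have h0 : (0 : ℝ) ^ 2 = 0 := by norm_num
      rw [h0, mul_zero]
      exact mul_nonneg (mul_nonneg hV0 (Real.exp_nonneg _)) (mul_nonneg (hw0 c) (sq_nonneg _))
  -- second part
  have hsecond : ∀ j : Fin (m + 1), ∑ c ∈ univ.filter (fun c : Fin n → Col (m + 1) => ∃ i, c i = some (some j)),
        (∏ i, w1 (q i) j (c i)) * (∑ t ∈ (Es c).powerset, (∏ i ∈ t, 1 / (q i - 1)) * g (recol c j t)) ^ 2 ≤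
      V * Real.exp ((m + 4) * x) * C * (1 + ε) * (Real.exp ((m + 1) * x) - 1) * En := by
    intro j
    have h := hb (m + 1) n q σ (fun i => by push_cast; exact hq1 i) hq2 hσ Λ C ε x hΛ hC hε hx0
      (fun t ht => by push_cast; exact hx t ht)
      (by
        have := hcount Λ hΛ.le le_rfl
        rwa [div_self hΛ.ne'] at this) g hg j
    push_cast at h
    have e : ((m : ℝ) + 1 + 3) = m + 4 := by ring
    rw [e] at h
    exact h
  -- main part
  have hmain := ha m M hM n q σ hq2 hσ Λ C ε hΛ hC hε hcount (fun c => |g c|) (fun c h => hg c (by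
    intro h0; apply h; simp [h0]))
  have hEn' : ∑ c : Fin n → Col (m + 1), (∏ i, w0 (q i) (c i)) * |g c| ^ 2 = En := by
    rw [hEn]
    apply sum_congr rfl
    intro c _
    rw [sq_abs]
  rw [hEn'] at hmain
  have hfirst : ∑ j : Fin (m + 1), ∑ c ∈ univ.filter (fun c : Fin n → Col (m + 1) => ∀ i, c i ≠ some (some j)),
        (∏ i, w1 (q i) j (c i)) * (∑ t ∈ (Es c).powerset, (∏ i ∈ t, 1 / (q i - 1)) * g (recol c j t)) ^ 2 ≤
      (V * Real.exp ((m + 4) * x)) * (C * (1 + (m + 1) * ε) * M * En) := by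
    refine le_trans ?_ (mul_le_mul_of_nonneg_left hmain (mul_nonneg hV0 (Real.exp_nonneg _)))
    rw [mul_sum]
    apply sum_le_sum
    intro j _
    rw [mul_sum]
    apply sum_le_sum
    intro c hc
    rw [mem_filter] at hc
    exact hone j c hc.2
  have hsplit : ∀ j : Fin (m + 1), ∑ c : Fin n → Col (m + 1), (∏ i, w1 (q i) j (c i)) *
        (∑ t ∈ (Es c).powerset, (∏ i ∈ t, 1 / (q i - 1)) * g (recol c j t)) ^ 2 =
      ∑ c ∈ univ.filter (fun c : Fin n → Col (m + 1) => ∀ i, c i ≠ some (some j)), (∏ i, w1 (q i) j (c i)) *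
        (∑ t ∈ (Es c).powerset, (∏ i ∈ t, 1 / (q i - 1)) * g (recol c j t)) ^ 2 +
      ∑ c ∈ univ.filter (fun c : Fin n → Col (m + 1) => ∃ i, c i = some (some j)), (∏ i, w1 (q i) j (c i)) *
        (∑ t ∈ (Es c).powerset, (∏ i ∈ t, 1 / (q i - 1)) * g (recol c j t)) ^ 2 := by
    intro j
    rw [← sum_filter_add_sum_filter_not univ (fun c : Fin n → Col (m + 1) => ∀ i, c i ≠ some (some j))]
    congr 1
    apply sum_congr _ (fun _ _ => rfl)
    ext c
    simp
  rw [sum_congr rfl (fun j _ => hsplit j), sum_add_distrib]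
  have hs2 : ∑ j : Fin (m + 1), ∑ c ∈ univ.filter (fun c : Fin n → Col (m + 1) => ∃ i, c i = some (some j)),
        (∏ i, w1 (q i) j (c i)) * (∑ t ∈ (Es c).powerset, (∏ i ∈ t, 1 / (q i - 1)) * g (recol c j t)) ^ 2 ≤
      ((m : ℝ) + 1) * (V * Real.exp ((m + 4) * x) * C * (1 + ε) * (Real.exp ((m + 1) * x) - 1) * En) := by
    refine (sum_le_sum (fun j _ => hsecond j)).trans ?_
    rw [sum_const, card_univ, Fintype.card_fin, nsmul_eq_mul]
    push_cast
    exact le_rfl
  refine (add_le_add hfirst hs2).trans (le_of_eq ?_)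
  ring

end Pool.Agent.N422.MK
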