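import Pool.Agent.N422.MK.Stm

/-! Project MK, piece LOG (helper216). -/

set_option autoImplicit false

open Finset MeasureTheory

namespace Pool.Agent.N422.MK

theorem LOG_int (m : ℕ) (hm : 1 ≤ m) (a : ℝ) (ha : 0 < a) :
    ∫ t in (0 : ℝ)..a, (a + m * t)⁻¹ = Real.log ((m : ℝ) + 1) / m := by
  have hm0 : (0 : ℝ) < m := by exact_mod_cast hm
  have hpos : ∀ t ∈ Set.uIcc (0 : ℝ) a, 0 < a + m * t := by
    intro t ht
    rw [Set.uIcc_of_le ha.le] at ht
    have := mul_nonneg hm0.le ht.1
    linarith
  have h1 : ∀ t ∈ Set.uIcc (0 : ℝ) a,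
      HasDerivAt (fun t : ℝ => Real.log (a + m * t) / m) ((a + m * t)⁻¹) t := by
    intro t ht
    have h2 : HasDerivAt (fun t : ℝ => a + m * t) m t := by
      simpa using ((hasDerivAt_id t).const_mul (m : ℝ)).const_add a
    have h3 := (h2.log (hpos t ht).ne').div_const (m : ℝ)
    have h4 : (m : ℝ) / (a + m * t) / m = (a + m * t)⁻¹ := by
      field_simp
    rwa [h4] at h3
  have hint : IntervalIntegrable (fun t : ℝ => (a + m * t)⁻¹) volume 0 a := by
    apply ContinuousOn.intervalIntegrable
    intro t ht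
    exact ((continuous_const.add (continuous_const.mul continuous_id)).continuousAt.inv₀
      (hpos t ht).ne').continuousWithinAt
  rw [intervalIntegral.integral_eq_sub_of_hasDerivAt h1 hint]
  rw [mul_zero, add_zero, ← sub_div, ← Real.log_div (by positivity) ha.ne']
  congr 2
  field_simp
  ring

theorem LOG_one (m : ℕ) (hm : 1 ≤ m) (h : ℝ → ℝ) (hh : Measurable h) (C : ℝ) (hC : ∀ t, |h t| ≤ C)
    (s : ℝ) (hs : ∀ t, h t ≠ 0 → 0 ≤ t ∧ t + s ≤ 1) :
    (∫ t, h t) ^ 2 ≤ Real.log ((m : ℝ) + 1) / m * ∫ t, h t ^ 2 * (1 - s + m * t) := by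
  have hm0 : (0 : ℝ) < m := by exact_mod_cast hm
  have hL : 0 < Real.log ((m : ℝ) + 1) / m := div_pos (Real.log_pos (by linarith)) hm0
  by_cases hs1 : 1 ≤ s
  · have h0 : ∫ t, h t = 0 := by
      refine integral_eq_zero_of_ae ?_
      have : ∀ᵐ t : ℝ, t ≠ 0 := by
        simp [ae_iff, measure_singleton]
      filter_upwards [this] with t ht
      by_contra hne
      obtain ⟨h1, h2⟩ := hs t hne
      exact ht (le_antisymm (by linarith) h1)
    rw [h0]
    have h1 : 0 ≤ ∫ t, h t ^ 2 * (1 - s + m * t) := by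
      refine integral_nonneg fun t => ?_
      by_cases hne : h t = 0
      · simp [hne]
      · obtain ⟨h1, h2⟩ := hs t hne
        have := mul_nonneg hm0.le h1
        exact mul_nonneg (sq_nonneg _) (by linarith)
    rw [zero_pow two_ne_zero]
    exact mul_nonneg hL.le h1
  · push Not at hs1
    set a : ℝ := 1 - s with ha
    have ha0 : 0 < a := by linarith
    set L : ℝ := Real.log ((m : ℝ) + 1) / m with hLd
    have hC0 : 0 ≤ C := (abs_nonneg _).trans (hC 0)
    have e1 : ∫ t, h t = ∫ t in (0 : ℝ)..a, h t := by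
      rw [intervalIntegral.integral_of_le ha0.le, ← integral_Icc_eq_integral_Ioc]
      refine (setIntegral_eq_integral_of_forall_compl_eq_zero fun t ht => ?_).symm
      by_contra hne
      obtain ⟨h1, h2⟩ := hs t hne
      exact ht ⟨h1, by linarith⟩
    have e2 : ∫ t, h t ^ 2 * (a + m * t) = ∫ t in (0 : ℝ)..a, h t ^ 2 * (a + m * t) := by
      rw [intervalIntegral.integral_of_le ha0.le, ← integral_Icc_eq_integral_Ioc]
      refine (setIntegral_eq_integral_of_forall_compl_eq_zero fun t ht => ?_).symm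
      by_cases hne : h t = 0
      · simp [hne]
      · obtain ⟨h1, h2⟩ := hs t hne
        exact absurd ⟨h1, by linarith⟩ ht
    rw [e1, e2]
    have i1 : IntervalIntegrable h volume 0 a := by
      rw [intervalIntegrable_iff_integrableOn_Ioc_of_le ha0.le]
      exact Measure.integrableOn_of_bounded (M := C) (by simp) hh.aestronglyMeasurable
        (Filter.Eventually.of_forall fun t => by rw [Real.norm_eq_abs]; exact hC t)
    have i2 : IntervalIntegrable (fun t => h t ^ 2 * (a + m * t)) volume 0 a := by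
      rw [intervalIntegrable_iff_integrableOn_Ioc_of_le ha0.le]
      refine Measure.integrableOn_of_bounded (M := C ^ 2 * (a + m * a)) (by simp)
        (by fun_prop) ?_
      rw [ae_restrict_iff' measurableSet_Ioc]
      refine Filter.Eventually.of_forall fun t ht => ?_
      rw [Real.norm_eq_abs, abs_mul, abs_of_nonneg (sq_nonneg (h t))]
      have h1 : h t ^ 2 ≤ C ^ 2 := by
        rw [← sq_abs]
        exact pow_le_pow_left₀ (abs_nonneg _) (hC t) 2
      have h2 : |a + m * t| ≤ a + m * a := by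
        rw [abs_of_nonneg (by have := mul_nonneg hm0.le ht.1.le; linarith)]
        have := mul_le_mul_of_nonneg_left ht.2 hm0.le
        linarith
      exact mul_le_mul h1 h2 (abs_nonneg _) (sq_nonneg _)
    have hpos : ∀ t ∈ Set.Icc (0 : ℝ) a, 0 < a + m * t := by
      intro t ht
      have := mul_nonneg hm0.le ht.1
      linarith
    have i3 : IntervalIntegrable (fun t : ℝ => (a + m * t)⁻¹) volume 0 a := by
      apply ContinuousOn.intervalIntegrable
      rw [Set.uIcc_of_le ha0.le]
      intro t ht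
      exact ((continuous_const.add (continuous_const.mul continuous_id)).continuousAt.inv₀
        (hpos t ht).ne').continuousWithinAt
    set B := ∫ t in (0 : ℝ)..a, h t with hB
    set A := ∫ t in (0 : ℝ)..a, h t ^ 2 * (a + m * t) with hA
    set lam := B / L with hlam
    have key : 0 ≤ ∫ t in (0 : ℝ)..a,
        (h t ^ 2 * (a + m * t) - 2 * lam * h t + lam ^ 2 * (a + m * t)⁻¹) := by
      refine intervalIntegral.integral_nonneg ha0.le fun t ht => ?_
      have h1 := hpos t ht
      have h2 : h t ^ 2 * (a + m * t) - 2 * lam * h t + lam ^ 2 * (a + m * t)⁻¹ =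
          (h t * (a + m * t) - lam) ^ 2 * (a + m * t)⁻¹ := by
        field_simp
        ring
      rw [h2]
      positivity
    rw [intervalIntegral.integral_add (i2.sub (i1.const_mul (2 * lam))) (i3.const_mul (lam ^ 2)),
      intervalIntegral.integral_sub i2 (i1.const_mul (2 * lam)),
      intervalIntegral.integral_const_mul, intervalIntegral.integral_const_mul,
      LOG_int m hm a ha0, ← hA, ← hB, ← hLd] at key
    have h3 : A - 2 * lam * B + lam ^ 2 * L = A - B ^ 2 / L := by
      rw [hlam]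
      field_simp
      ring
    rw [h3] at key
    have h4 : B ^ 2 / L ≤ A := by linarith
    rw [div_le_iff₀ hL] at h4
    linarith

theorem LOG_meas {m : ℕ} (j : Fin (m + 1)) (y : Fin m → ℝ) :
    Measurable (fun t : ℝ => (j.insertNth t y : Fin (m + 1) → ℝ)) := by
  have : Continuous (fun t : ℝ => (j.insertNth t y : Fin (m + 1) → ℝ)) := by
    refine continuous_pi fun i => ?_
    refine Fin.succAboveCases j ?_ (fun k => ?_) i
    · simp only [Fin.insertNth_apply_same]; exact continuous_id
    · simp only [Fin.insertNth_apply_succAbove]; exact continuous_const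
  exact this.measurable

theorem LOG_fub {m : ℕ} (j : Fin (m + 1)) (G : (Fin (m + 1) → ℝ) → ℝ) (hG : Integrable G) :
    Integrable (fun y : Fin m → ℝ => ∫ t : ℝ, G (j.insertNth t y)) ∧
      ∫ y : Fin m → ℝ, ∫ t : ℝ, G (j.insertNth t y) = ∫ x, G x := by
  have hmp := (volume_preserving_piFinSuccAbove (fun _ : Fin (m + 1) => ℝ) j).symm
  have h1 : Integrable (G ∘ (MeasurableEquiv.piFinSuccAbove (fun _ : Fin (m + 1) => ℝ) j).symm)
      (volume.prod volume) :=
    (hmp.integrable_comp_emb (MeasurableEquiv.measurableEmbedding _)).2 hG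
  refine ⟨h1.integral_prod_right, ?_⟩
  rw [← hmp.integral_comp (MeasurableEquiv.measurableEmbedding _) G]
  exact (integral_prod_symm _ h1).symm

theorem t_LOG : S_LOG := by
  intro m hm F hF ⟨C, hC⟩ hsupp
  have hm0 : (0 : ℝ) < m := by exact_mod_cast hm
  set L : ℝ := Real.log ((m : ℝ) + 1) / m with hLd
  have hL : 0 < L := div_pos (Real.log_pos (by linarith)) hm0
  have hC0 : 0 ≤ C := (abs_nonneg _).trans (hC 0)
  -- weights
  have hW : ∀ (j : Fin (m + 1)) (x : Fin (m + 1) → ℝ), F x ≠ 0 →
      0 ≤ 1 - ∑ i, x i + (m + 1) * x j ∧ 1 - ∑ i, x i + (m + 1) * x j ≤ m + 2 := by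
    intro j x hx
    obtain ⟨h1, h2⟩ := hsupp x hx
    have h3 : x j ≤ ∑ i, x i := Finset.single_le_sum (fun i _ => h1 i) (Finset.mem_univ j)
    have h4 : 0 ≤ ((m : ℝ) + 1) * x j := mul_nonneg (by positivity) (h1 j)
    have h5 : ((m : ℝ) + 1) * x j ≤ (m + 1) * 1 :=
      mul_le_mul_of_nonneg_left (h3.trans h2) (by positivity)
    have h6 : 0 ≤ ∑ i, x i := (h1 j).trans h3
    constructor <;> linarith
  have hbd : ∀ (G : (Fin (m + 1) → ℝ) → ℝ), Measurable G → (∃ K, ∀ x, |G x| ≤ K) →
      (∀ x, G x ≠ 0 → F x ≠ 0) → Integrable G := by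
    intro G hG ⟨K, hK⟩ hGF
    have h1 : IntegrableOn G (Set.Icc 0 1) :=
      Measure.integrableOn_of_bounded (M := K) isCompact_Icc.measure_lt_top.ne
        hG.aestronglyMeasurable
        (Filter.Eventually.of_forall fun t => by rw [Real.norm_eq_abs]; exact hK t)
    refine (integrableOn_iff_integrable_of_support_subset fun x hx => ?_).1 h1
    obtain ⟨h2, h3⟩ := hsupp x (hGF x hx)
    exact ⟨fun i => h2 i, fun i =>
      (Finset.single_le_sum (fun i _ => h2 i) (Finset.mem_univ i)).trans h3⟩
  have hI2 : Integrable (fun x => F x ^ 2) := by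
    refine hbd _ (hF.pow_const 2) ⟨C ^ 2, fun x => ?_⟩ fun x hx h0 => hx (by simp [h0])
    rw [abs_of_nonneg (sq_nonneg _), ← sq_abs]
    exact pow_le_pow_left₀ (abs_nonneg _) (hC x) 2
  have hIW : ∀ j : Fin (m + 1),
      Integrable (fun x => F x ^ 2 * (1 - ∑ i, x i + (m + 1) * x j)) := by
    intro j
    refine hbd _ (by fun_prop) ⟨C ^ 2 * (m + 2), fun x => ?_⟩ fun x hx h0 => hx (by simp [h0])
    by_cases h0 : F x = 0
    · rw [h0]; simp only [ne_eq, OfNat.ofNat_ne_zero, not_false_eq_true, zero_pow, zero_mul,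
        abs_zero]; positivity
    · obtain ⟨h1, h2⟩ := hW j x h0
      rw [abs_mul, abs_of_nonneg h1, abs_of_nonneg (sq_nonneg _), ← sq_abs]
      exact mul_le_mul (pow_le_pow_left₀ (abs_nonneg _) (hC x) 2) h2 h1 (sq_nonneg _)
  have hj : ∀ j : Fin (m + 1), ∫ y : Fin m → ℝ, (∫ t : ℝ, F (j.insertNth t y)) ^ 2 ≤
      L * ∫ x, F x ^ 2 * (1 - ∑ i, x i + (m + 1) * x j) := by
    intro j
    obtain ⟨h1, h2⟩ := LOG_fub j _ (hIW j)
    rw [← h2, ← integral_const_mul]
    refine integral_mono_of_nonneg (Filter.Eventually.of_forall fun y => sq_nonneg _)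
      (h1.const_mul L) (Filter.Eventually.of_forall fun y => ?_)
    have h3 := LOG_one m hm (fun t => F (j.insertNth t y)) (hF.comp (LOG_meas j y)) C
      (fun t => hC _) (∑ i, y i) (fun t ht => by
        obtain ⟨h4, h5⟩ := hsupp _ ht
        rw [Fin.sum_univ_succAbove _ j] at h5
        simp only [Fin.insertNth_apply_same, Fin.insertNth_apply_succAbove] at h5
        have h6 := h4 j
        rw [Fin.insertNth_apply_same] at h6
        exact ⟨h6, h5⟩)
    refine h3.trans_eq ?_
    simp only
    congr 1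
    refine integral_congr_ae (Filter.Eventually.of_forall fun t => ?_)
    simp only
    rw [Fin.sum_univ_succAbove _ j]
    simp only [Fin.insertNth_apply_same, Fin.insertNth_apply_succAbove]
    ring
  calc ∑ j : Fin (m + 1), ∫ y : Fin m → ℝ, (∫ t : ℝ, F (j.insertNth t y)) ^ 2
      ≤ ∑ j : Fin (m + 1), L * ∫ x, F x ^ 2 * (1 - ∑ i, x i + (m + 1) * x j) :=
        Finset.sum_le_sum fun j _ => hj j
    _ = L * ∫ x, ∑ j : Fin (m + 1), F x ^ 2 * (1 - ∑ i, x i + (m + 1) * x j) := by
        rw [← Finset.mul_sum, integral_finsetSum _ fun j _ => hIW j]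
    _ = L * ∫ x, ((m : ℝ) + 1) * F x ^ 2 := by
        congr 1
        refine integral_congr_ae (Filter.Eventually.of_forall fun x => ?_)
        simp only
        rw [← Finset.mul_sum, Finset.sum_add_distrib, ← Finset.mul_sum]
        simp only [Finset.sum_const, Finset.card_univ, Fintype.card_fin, nsmul_eq_mul]
        push_cast
        ring
    _ = ((m : ℝ) + 1) / m * Real.log ((m : ℝ) + 1) * ∫ x, F x ^ 2 := by
        rw [integral_const_mul, hLd]
        ring

end Pool.Agent.N422.MK
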