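import Pool.Agent.N422.MK.MOD
import Pool.Agent.N422.MK.LOG
import Pool.Agent.N422.MT8

/-! Project MK: primes in `n + H`, on average with respect to a sum of squares with nonnegative cofactors.
Author: helper422. -/

set_option autoImplicit false

namespace Pool.Agent.N422.MK

open Finset Filter Topology Pool.Agent.Y829 Pool.Agent.Y829.RP Pool.Agent.N422.MT
open H343E (pi1)

/-- a finite sum of squares of functions of level `R`, with nonnegative cofactors of period at most `X` -/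
def SqX (X R : ℕ) (w : ℕ → ℝ) : Prop := ∃ (m : ℕ) (e : ℕ → ℕ) (u : ℕ → ℕ → ℝ) (v : ℕ → ℕ → ℕ → ℝ),
  (∀ j, 1 ≤ e j ∧ e j ≤ X ∧ Function.Periodic (u j) (e j) ∧ ∀ n, 0 ≤ u j n) ∧
  (∀ j d, Function.Periodic (v j d) d) ∧ ∀ n, w n = ∑ j ∈ range m, u j n * (∑ d ∈ Icc 1 R, v j d n) ^ 2

theorem SqX.nonneg {X R : ℕ} {w : ℕ → ℝ} (h : SqX X R w) (n : ℕ) : 0 ≤ w n := by
  obtain ⟨m, e, u, v, hu, -, hw⟩ := h
  rw [hw]
  exact sum_nonneg fun j _ => mul_nonneg ((hu j).2.2.2 n) (sq_nonneg _)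

/-- the singular series of the shifts in `H` -/
theorem GG_le (m0 : ℕ) (Mc : ℝ) (hM : MBound m0 Mc) (hMc : 0 ≤ Mc) (e e1 : ℝ) (he : 0 < e) (he1 : 0 < e1) :
    ∃ X0 : ℕ, ∀ X : ℕ, X0 ≤ X →
    ∀ Q R : ℕ, Q ≤ X → R ≤ X → ∀ c : ℕ → ℕ → ℝ, SqX X R (wt Q c) → ∀ H : Finset ℕ, H.card = m0 + 1 → (∀ h ∈ H, h ≤ X) →
    ∑ h ∈ H, GG Q c h ≤ (Mc + e) * max (Real.log R) (e1 * Real.log X) * mu Q c := by
  classical
  obtain ⟨k, hk⟩ : ∃ k, k = m0 + 1 := ⟨_, rfl⟩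
  obtain ⟨Λ0, hmod⟩ := modelK m0 Mc hM hMc e (((k : ℝ) ^ 2 + 1) / e1) he (by positivity)
  obtain ⟨X2, hX2⟩ := (log_tend.eventually_ge_atTop (Λ0 / e1)).exists_forall_of_atTop
  refine ⟨max X2 3, ?_⟩
  intro X hX Q R hQX hRX c hsq H hH hHX
  have hX3 : 3 ≤ X := (le_max_right _ _).trans hX
  have hL := hX2 X ((le_max_left _ _).trans hX)
  have hw := hsq.nonneg
  obtain ⟨m, es, u, v, hu, hv, hwv⟩ := hsq
  rw [← hk] at hH
  -- the enumeration of the sites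
  obtain ⟨hs, hsd⟩ : ∃ hs : Fin (m0 + 1) → ℕ, hs = fun i => ((H.equivFinOfCardEq (hH.trans hk)).symm i : ℕ) := ⟨_, rfl⟩
  have hsH : ∀ i, hs i ∈ H := fun i => by rw [hsd]; exact ((H.equivFinOfCardEq (hH.trans hk)).symm i).2
  have hsinj : Function.Injective hs := by
    intro a b hab
    rw [hsd] at hab
    exact (H.equivFinOfCardEq (hH.trans hk)).symm.injective (Subtype.ext hab)
  have hsum' : ∀ g : ℕ → ℝ, ∑ h ∈ H, g h = ∑ i, g (hs i) := by
    intro g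
    rw [hsd, ((H.equivFinOfCardEq (hH.trans hk)).symm).sum_comp (fun h : H => g (h : ℕ))]
    exact (sum_coe_sort H g).symm
  obtain ⟨L, hLd⟩ : ∃ L, L = Real.log X := ⟨_, rfl⟩
  rw [← hLd] at hL ⊢
  rw [div_le_iff₀ he1] at hL
  obtain ⟨Λ, hΛ⟩ : ∃ Λ, Λ = max (Real.log R) (e1 * L) := ⟨_, rfl⟩
  rw [← hΛ]
  have hΛR : Real.log R ≤ Λ := by rw [hΛ]; exact le_max_left _ _
  have hΛL : e1 * L ≤ Λ := by rw [hΛ]; exact le_max_right _ _
  have hL0 : 0 ≤ L := by rw [hLd]; exact Real.log_natCast_nonneg X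
  obtain ⟨N, hN⟩ : ∃ N, N = X.factorial := ⟨_, rfl⟩
  have hN0 : 0 < N := by rw [hN]; exact Nat.factorial_pos _
  have hXN : ∀ d, 1 ≤ d → d ≤ X → d ∣ N := fun d h1 h2 => by rw [hN]; exact Nat.dvd_factorial (by omega) h2
  have hdN : ∀ d ∈ Icc 1 Q, d ∣ N := fun d hd => by
    rw [mem_Icc] at hd
    exact hXN d hd.1 (hd.2.trans hQX)
  have hPN : ∀ p ∈ PQ Q, p ∣ N := fun p hp => by
    have := mem_PQ.1 hp
    exact hXN p this.1.one_lt.le (this.2.trans hQX)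
  -- the primes dividing a difference
  obtain ⟨D, hD⟩ : ∃ D, D = ∏ z ∈ (H ×ˢ H).filter (fun z => z.1 < z.2), (z.2 - z.1) := ⟨_, rfl⟩
  have hD0 : 0 < D := by
    rw [hD]
    refine prod_pos fun z hz => ?_
    rw [mem_filter] at hz
    omega
  obtain ⟨Bd, hBd⟩ : ∃ Bd : ℕ → Finset ℕ, ∀ j, Bd j = (PQ Q).filter (fun p => p ∣ D * es j) :=
    ⟨fun j => (PQ Q).filter (fun p => p ∣ D * es j), fun _ => rfl⟩
  have hlD : Real.log D ≤ k ^ 2 * L := by
    rw [hD]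
    push_cast
    rw [Real.log_prod (by
      intro z hz
      rw [mem_filter] at hz
      have : 0 < z.2 - z.1 := by omega
      exact_mod_cast this.ne')]
    have h1 : ∀ z ∈ (H ×ˢ H).filter (fun z => z.1 < z.2), Real.log ((z.2 - z.1 : ℕ) : ℝ) ≤ L := by
      intro z hz
      rw [mem_filter, mem_product] at hz
      rw [hLd]
      have h2 := hHX z.2 hz.1.2
      apply Real.log_le_log
      · exact_mod_cast (by omega : 0 < z.2 - z.1)
      · exact_mod_cast (by omega : z.2 - z.1 ≤ X)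
    refine (sum_le_sum h1).trans ?_
    rw [sum_const, nsmul_eq_mul]
    apply mul_le_mul_of_nonneg_right _ hL0
    have h2 : ((H ×ˢ H).filter (fun z => z.1 < z.2)).card ≤ k ^ 2 := by
      refine (card_filter_le _ _).trans ?_
      rw [card_product, hH, sq]
    exact_mod_cast h2
  have hBl : ∀ j, lg (Bd j) ≤ ((k : ℝ) ^ 2 + 1) / e1 * Λ := by
    intro j
    obtain ⟨hj1, hj2, -, -⟩ := hu j
    have hDj : 0 < D * es j := Nat.mul_pos hD0 hj1
    have h1 : lg (Bd j) ≤ lg (D * es j).primeFactors := by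
      apply lg_mono
      intro p hp
      rw [hBd, mem_filter] at hp
      exact Nat.mem_primeFactors.2 ⟨(mem_PQ.1 hp.1).1, hp.2, hDj.ne'⟩
    have h2 : ((k : ℝ) ^ 2 + 1) * L ≤ ((k : ℝ) ^ 2 + 1) / e1 * Λ := by
      have h3 := mul_le_mul_of_nonneg_left hΛL (show 0 ≤ ((k : ℝ) ^ 2 + 1) / e1 by positivity)
      refine le_trans (le_of_eq ?_) h3
      field_simp
    have h4 : Real.log ((D * es j : ℕ) : ℝ) = Real.log D + Real.log (es j) := by
      push_cast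
      exact Real.log_mul (by exact_mod_cast hD0.ne') (by exact_mod_cast (by omega : es j ≠ 0))
    have h5 : Real.log (es j) ≤ L := by
      rw [hLd]
      exact Real.log_le_log (by exact_mod_cast hj1) (by exact_mod_cast hj2)
    have h6 := lg_pf hDj
    linarith
  have hj : ∀ j ∈ range m, _ := fun j (_ : j ∈ range m) => hmod Λ (hL.trans (by linarith)) (PQ Q)
    (fun p hp => (mem_PQ.1 hp).1) (Icc 1 R) (fun d => d) (fun d => v j d) (fun d hd => by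
      rw [mem_Icc] at hd
      refine ⟨by omega, le_trans (Real.log_le_log ?_ ?_) hΛR, hv j d⟩
      · exact_mod_cast (by omega : 0 < d)
      · exact_mod_cast hd.2) N hN0 hPN (fun d hd => by
      rw [mem_Icc] at hd
      exact hXN d hd.1 (hd.2.trans hRX)) (fun i _ => hs i) (Bd j) (by rw [hBd]; exact filter_subset _ _) (hBl j)
    (fun p hp hpB n i i' h1 h2 => by
      have key : ∀ a b, a ∈ H → b ∈ H → p ∣ n + a → p ∣ n + b → ¬ a < b := by
        intro a b ha hb h3 h4 h5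
        apply hpB
        rw [hBd, mem_filter]
        refine ⟨hp, ?_⟩
        have h6 : p ∣ b - a := by
          have h7 := Nat.dvd_sub h4 h3
          have e : n + b - (n + a) = b - a := by omega
          rwa [e] at h7
        refine (h6.trans ?_).trans (Dvd.intro _ rfl)
        rw [hD]
        exact dvd_prod_of_mem (fun z : ℕ × ℕ => z.2 - z.1) (mem_filter.2 ⟨mem_product.2 ⟨ha, hb⟩, h5⟩ : (a, b) ∈ _)
      have h3 := key _ _ (hsH i) (hsH i') h1 h2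
      have h4 := key _ _ (hsH i') (hsH i) h2 h1
      apply hsinj
      omega) (u j) (es j) (hu j).2.2.2 (hu j).2.2.1 (hXN _ (hu j).1 (hu j).2.1) (fun p hp hpe => by
      rw [hBd, mem_filter]
      exact ⟨hp, hpe.trans (Dvd.intro_left _ rfl)⟩)
  have hsum := sum_le_sum hj
  rw [← mul_sum, ← mul_sum] at hsum
  have e2 : ∑ j ∈ range m, ∑ n ∈ range N, u j n * (∑ d ∈ Icc 1 R, v j d n) ^ 2 = N * mu Q c := by
    rw [← sum_wt Q N c hdN, sum_comm]
    exact sum_congr rfl fun n _ => (hwv n).symm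
  have e3 : ∑ j ∈ range m, ∑ i : Fin (m0 + 1), ∑ n ∈ range N,
      (if ∀ p ∈ PQ Q, ¬ p ∣ n + hs i then u j n * (∑ d ∈ Icc 1 R, v j d n) ^ 2 else 0) =
      N * V (PQ Q) * ∑ h ∈ H, GG Q c h := by
    rw [sum_comm, mul_sum, hsum']
    refine sum_congr rfl fun i _ => ?_
    obtain ⟨h, hh⟩ : ∃ h, h = hs i := ⟨_, rfl⟩
    rw [← hh]
    rw [← sum_wt_free Q N h c hN0 hdN, sum_comm]
    refine sum_congr rfl fun n _ => ?_
    rw [hwv]
    by_cases h1 : ∀ p ∈ PQ Q, ¬ p ∣ n + h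
    · simp only [if_pos h1, mul_one]
    · simp only [if_neg h1, mul_zero, sum_const_zero]
  rw [e2, e3] at hsum
  have hV0 : 0 < V (PQ Q) := V_pos fun p hp => (mem_PQ.1 hp).1
  have hNr : (0 : ℝ) < N := by exact_mod_cast hN0
  have hNV : 0 < (N : ℝ) * V (PQ Q) := by positivity
  have hsum2 : N * V (PQ Q) * ∑ h ∈ H, GG Q c h ≤
      N * V (PQ Q) * ((Mc + e) * Λ * mu Q c) := by
    refine hsum.trans (le_of_eq ?_)
    unfold V
    ring
  exact le_of_mul_le_mul_left hsum2 hNV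

/-- **the theorem** -/
theorem main (m0 K : ℕ) (Mc : ℝ) (hM : MBound m0 Mc) (hMc : 0 ≤ Mc) (ε : ℝ) (hε : 0 < ε) :
    ∃ B X0 : ℕ, ∀ X : ℕ, X0 ≤ X → ∀ Q R : ℕ,
    1 ≤ Q → (Q : ℝ) ^ 2 * Real.log X ^ B ≤ X → R ≤ X →
    ∀ c : ℕ → ℕ → ℝ, SqX X R (wt Q c) → ∑ d ∈ Icc 1 Q, ss c d ^ 2 / d ≤ Real.log X ^ K →
    X / Real.log X ^ K ≤ ∑ n ∈ Ioc X (2 * X), wt Q c n →
    ∀ H : Finset ℕ, H.card = m0 + 1 → (∀ h ∈ H, h ≤ X) →
      ∑ n ∈ Ioc X (2 * X), wt Q c n * cnt H n ≤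
        (Mc * (Real.log R / Real.log X) + ε) * ∑ n ∈ Ioc X (2 * X), wt Q c n := by
  obtain ⟨κ, hκ⟩ : ∃ κ : ℝ, κ = Mc := ⟨_, rfl⟩
  have hκ0 : 0 ≤ κ := by rw [hκ]; exact hMc
  obtain ⟨e, he⟩ : ∃ e : ℝ, e = ε / 4 := ⟨_, rfl⟩
  have he0 : 0 < e := by rw [he]; positivity
  obtain ⟨eta, heta⟩ : ∃ eta : ℝ, eta = ε / (4 * (3 * κ + 3 * e + 1) + ε) := ⟨_, rfl⟩
  have heta0 : 0 < eta := by rw [heta]; positivity
  have heta1 : eta ≤ 1 := by
    rw [heta, div_le_one (by positivity)]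
    have : 0 ≤ 4 * (3 * κ + 3 * e + 1) := by positivity
    linarith
  have heta2 : eta * (3 * κ + 3 * e + 1) ≤ ε / 4 := by
    rw [heta, div_mul_eq_mul_div, div_le_div_iff₀ (by positivity) (by norm_num)]
    nlinarith [sq_nonneg ε]
  obtain ⟨e1, he1⟩ : ∃ e1 : ℝ, e1 = ε / (4 * κ + ε) := ⟨_, rfl⟩
  have he10 : 0 < e1 := by rw [he1]; positivity
  have he11 : e1 ≤ 1 := by
    rw [he1, div_le_one (by positivity)]
    linarith
  have he12 : κ * e1 ≤ ε / 4 := by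
    rw [he1, mul_div_assoc', div_le_div_iff₀ (by positivity) (by norm_num)]
    nlinarith [sq_nonneg ε]
  obtain ⟨B, X0, hred⟩ := reducH (m0 + 1) K eta heta0 heta1
  obtain ⟨X1, hGG⟩ := GG_le m0 Mc hM hMc e e1 he0 he10
  obtain ⟨X2, hX2⟩ := (log_tend.eventually_ge_atTop (1 : ℝ)).exists_forall_of_atTop
  refine ⟨B, max (max X0 X1) (max X2 3), ?_⟩
  intro X hX Q R hQ hQX hRX c hsq hc hW H hH hHX
  have hX0' : X0 ≤ X := (le_max_left _ _).trans ((le_max_left _ _).trans hX)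
  have hX1' : X1 ≤ X := (le_max_right _ _).trans ((le_max_left _ _).trans hX)
  have hX3 : 3 ≤ X := (le_max_right _ _).trans ((le_max_right _ _).trans hX)
  have hL1 := hX2 X ((le_max_left _ _).trans ((le_max_right _ _).trans hX))
  have hXr : (0 : ℝ) < X := by exact_mod_cast (by omega : 0 < X)
  have hQr : (1 : ℝ) ≤ Q := by exact_mod_cast hQ
  have hQleX : Q ≤ X := by
    have h1 : (1 : ℝ) ≤ Real.log X ^ B := one_le_pow₀ hL1
    have h2 : (Q : ℝ) ≤ X := by nlinarith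
    exact_mod_cast h2
  have hw := hsq.nonneg
  have h1 := hGG X hX1' Q R hQleX hRX c hsq H hH hHX
  rw [← hκ] at h1 ⊢
  obtain ⟨L, hLd⟩ : ∃ L, L = Real.log X := ⟨_, rfl⟩
  obtain ⟨Λ, hΛ⟩ : ∃ Λ, Λ = max (Real.log R) (e1 * L) := ⟨_, rfl⟩
  rw [← hLd, ← hΛ] at h1
  have hL0 : 0 < L := by rw [hLd]; linarith
  have hR0 : 0 ≤ Real.log R := Real.log_natCast_nonneg R
  have hRL : Real.log R ≤ L := by
    rw [hLd]
    rcases Nat.eq_zero_or_pos R with h2 | h2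
    · rw [h2]
      simp
      linarith
    · exact Real.log_le_log (by exact_mod_cast h2) (by exact_mod_cast hRX)
  have hΛ1 : Λ ≤ L := by
    rw [hΛ]
    exact max_le hRL (by nlinarith)
  have hΛ2 : Λ ≤ Real.log R + e1 * L := by
    rw [hΛ]
    exact max_le (by nlinarith) (by linarith)
  have hΛ0 : 0 ≤ Λ := by rw [hΛ]; exact le_max_of_le_left hR0
  have h2 := hred X hX0' Q hQ hQX c hw hc hW H hH hHX ((κ + e) * Λ) (by positivity) h1
  refine h2.trans ?_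
  rw [← hLd]
  have hW0 : 0 ≤ ∑ n ∈ Ioc X (2 * X), wt Q c n := sum_nonneg fun n _ => hw n
  apply mul_le_mul_of_nonneg_right _ hW0
  obtain ⟨x, hx⟩ : ∃ x, x = Λ / L := ⟨_, rfl⟩
  have hx1 : x ≤ 1 := by rw [hx, div_le_one hL0]; exact hΛ1
  have hx0 : 0 ≤ x := by rw [hx]; positivity
  have hx2 : x ≤ Real.log R / L + e1 := by
    rw [hx, div_le_iff₀ hL0, add_mul, div_mul_cancel₀ _ hL0.ne']
    exact hΛ2
  have e5 : (κ + e) * Λ / L = (κ + e) * x := by rw [hx]; ring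
  rw [e5]
  have h3 : (1 + eta) ^ 2 ≤ 1 + 3 * eta := by nlinarith
  have h4 : (1 + eta) ^ 2 * ((κ + e) * x) ≤ (1 + 3 * eta) * ((κ + e) * x) :=
    mul_le_mul_of_nonneg_right h3 (by positivity)
  have h5 : (1 + 3 * eta) * ((κ + e) * x) = κ * x + (e + 3 * eta * (κ + e)) * x := by ring
  have h6 : (e + 3 * eta * (κ + e)) * x ≤ e + 3 * eta * (κ + e) :=
    mul_le_of_le_one_right (by positivity) hx1
  have h7 : κ * x ≤ κ * (Real.log R / L) + κ * e1 := by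
    have := mul_le_mul_of_nonneg_left hx2 hκ0
    linarith
  have h8 : 3 * eta * (κ + e) + eta ≤ ε / 4 := by
    refine le_trans (le_of_eq ?_) heta2
    ring
  linarith

end Pool.Agent.N422.MK
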