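import Pool.Agent.N422.MK.Stm

/-! MK/TR (helper391): the transport lemma. -/

set_option autoImplicit false
set_option linter.unusedSectionVars false

open Finset MeasureTheory

namespace Pool.Agent.N422.MK

namespace TR

noncomputable section

variable {α : Type} [Fintype α]

/-- the indicator function of the interval `[s a, s a + l a)` -/
def ind (s l : α → ℝ) (a : α) (x : ℝ) : ℝ := (Set.Ico (s a) (s a + l a)).indicator (fun _ => (1 : ℝ)) x

variable {s l : α → ℝ}

lemma ind_of_mem {a : α} {x : ℝ} (h : x ∈ Set.Ico (s a) (s a + l a)) : ind s l a x = 1 :=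
  Set.indicator_of_mem h _

lemma ind_of_notMem {a : α} {x : ℝ} (h : x ∉ Set.Ico (s a) (s a + l a)) : ind s l a x = 0 :=
  Set.indicator_of_notMem h _

lemma ind_nonneg (a : α) (x : ℝ) : 0 ≤ ind s l a x := by
  by_cases h : x ∈ Set.Ico (s a) (s a + l a)
  · rw [ind_of_mem h]
    exact zero_le_one
  · rw [ind_of_notMem h]

lemma ind_le (a : α) (x : ℝ) : ind s l a x ≤ 1 := by
  by_cases h : x ∈ Set.Ico (s a) (s a + l a)
  · rw [ind_of_mem h]
  · rw [ind_of_notMem h]
    exact zero_le_one

lemma ind_meas (a : α) : Measurable (ind s l a) :=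
  measurable_const.indicator measurableSet_Ico

lemma ind_int (hl : ∀ a, 0 ≤ l a) (a : α) : ∫ x, ind s l a x = l a := by
  unfold ind
  rw [integral_indicator measurableSet_Ico, setIntegral_const, smul_eq_mul, mul_one,
    Real.volume_real_Ico_of_le (by linarith [hl a])]
  ring

lemma ind_integrable (a : α) : Integrable (ind s l a) := by
  unfold ind
  rw [integrable_indicator_iff measurableSet_Ico]
  exact integrableOn_const (by simp)

/-- the step function with the values `G` -/
def stp (s l : α → ℝ) {n : ℕ} (G : (Fin n → α) → ℝ) (x : Fin n → ℝ) : ℝ :=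
  ∑ T : Fin n → α, G T * ∏ i, ind s l (T i) (x i)

lemma stp_meas {n : ℕ} (G : (Fin n → α) → ℝ) : Measurable (stp s l G) := by
  unfold stp
  refine Finset.measurable_sum _ fun T _ => Measurable.mul measurable_const ?_
  exact Finset.measurable_prod _ fun i _ => (ind_meas (T i)).comp (measurable_pi_apply i)

lemma stp_bound {n : ℕ} (G : (Fin n → α) → ℝ) (x : Fin n → ℝ) :
    |stp s l G x| ≤ ∑ T, |G T| := by
  unfold stp
  refine (Finset.abs_sum_le_sum_abs _ _).trans (Finset.sum_le_sum fun T _ => ?_)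
  rw [abs_mul, abs_of_nonneg (Finset.prod_nonneg fun i _ => ind_nonneg _ _)]
  exact mul_le_of_le_one_right (abs_nonneg _)
    (Finset.prod_le_one (fun i _ => ind_nonneg _ _) fun i _ => ind_le _ _)

lemma ind_mul [DecidableEq α]
    (hd : ∀ a b, a ≠ b → Disjoint (Set.Ico (s a) (s a + l a)) (Set.Ico (s b) (s b + l b)))
    (a b : α) (x : ℝ) : ind s l a x * ind s l b x = if a = b then ind s l a x else 0 := by
  by_cases hab : a = b
  · subst hab
    rw [if_pos rfl]
    by_cases h : x ∈ Set.Ico (s a) (s a + l a)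
    · rw [ind_of_mem h, one_mul]
    · rw [ind_of_notMem h, zero_mul]
  · rw [if_neg hab]
    by_cases h : x ∈ Set.Ico (s a) (s a + l a)
    · have h' : x ∉ Set.Ico (s b) (s b + l b) := fun h' => Set.disjoint_left.1 (hd a b hab) h h'
      rw [ind_of_notMem h', mul_zero]
    · rw [ind_of_notMem h, zero_mul]

lemma stp_sq
    (hd : ∀ a b, a ≠ b → Disjoint (Set.Ico (s a) (s a + l a)) (Set.Ico (s b) (s b + l b)))
    {n : ℕ} (G : (Fin n → α) → ℝ) (x : Fin n → ℝ) :
    stp s l G x ^ 2 = stp s l (fun T => G T ^ 2) x := by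
  classical
  unfold stp
  rw [sq, Finset.sum_mul_sum]
  refine Finset.sum_congr rfl fun T _ => ?_
  rw [Finset.sum_eq_single T]
  · have : (∏ i, ind s l (T i) (x i)) * (∏ i, ind s l (T i) (x i)) =
        ∏ i, ind s l (T i) (x i) := by
      rw [← Finset.prod_mul_distrib]
      refine Finset.prod_congr rfl fun i _ => ?_
      rw [ind_mul hd, if_pos rfl]
    calc _ = G T ^ 2 * ((∏ i, ind s l (T i) (x i)) * (∏ i, ind s l (T i) (x i))) := by ring
      _ = _ := by rw [this]
  · intro S _ hS
    have : (∏ i, ind s l (T i) (x i)) * (∏ i, ind s l (S i) (x i)) = 0 := by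
      rw [← Finset.prod_mul_distrib]
      obtain ⟨i, hi⟩ := Function.ne_iff.1 hS.symm
      refine Finset.prod_eq_zero (Finset.mem_univ i) ?_
      rw [ind_mul hd, if_neg hi]
    calc _ = G T * G S * ((∏ i, ind s l (T i) (x i)) * (∏ i, ind s l (S i) (x i))) := by ring
      _ = _ := by rw [this, mul_zero]
  · intro h
    exact absurd (Finset.mem_univ T) h

lemma stp_int (hl : ∀ a, 0 ≤ l a) {n : ℕ} (G : (Fin n → α) → ℝ) :
    ∫ x, stp s l G x = ∑ T, G T * ∏ i, l (T i) := by
  unfold stp
  rw [integral_finsetSum]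
  · refine Finset.sum_congr rfl fun T _ => ?_
    rw [integral_const_mul]
    congr 1
    rw [integral_fintype_prod_volume_eq_prod (fun i => ind s l (T i))]
    exact Finset.prod_congr rfl fun i _ => ind_int hl _
  · intro T _
    refine Integrable.const_mul ?_ _
    exact Integrable.fintype_prod (f := fun i => ind s l (T i)) fun i => ind_integrable (T i)

lemma stp_insert (hl : ∀ a, 0 ≤ l a) {m : ℕ} (f : (Fin (m + 1) → α) → ℝ) (j : Fin (m + 1))
    (y : Fin m → ℝ) :
    ∫ t : ℝ, stp s l f (j.insertNth t y) =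
      stp s l (fun T => ∑ a, l a * f (j.insertNth a T)) y := by
  have h : ∀ t : ℝ, stp s l f (j.insertNth t y) =
      ∑ a, ∑ T : Fin m → α, (f (j.insertNth a T) * ∏ i, ind s l (T i) (y i)) * ind s l a t := by
    intro t
    unfold stp
    rw [← (Fin.insertNthEquiv (fun _ => α) j).sum_comp, Fintype.sum_prod_type]
    refine Finset.sum_congr rfl fun a _ => Finset.sum_congr rfl fun T _ => ?_
    have e : (Fin.insertNthEquiv (fun _ => α) j) (a, T) = j.insertNth a T := rfl
    rw [Fin.prod_univ_succAbove _ j, e]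
    simp only [Fin.insertNth_apply_same, Fin.insertNth_apply_succAbove]
    ring
  simp_rw [h]
  have hi : ∀ (a : α) (T : Fin m → α), Integrable fun t : ℝ =>
      (f (j.insertNth a T) * ∏ i, ind s l (T i) (y i)) * ind s l a t := fun a T =>
    (ind_integrable a).const_mul _
  rw [integral_finsetSum _ fun a _ => integrable_finsetSum _ fun T _ => hi a T]
  have h2 : ∀ a : α, ∫ t : ℝ, ∑ T : Fin m → α,
      (f (j.insertNth a T) * ∏ i, ind s l (T i) (y i)) * ind s l a t =
      ∑ T : Fin m → α, (f (j.insertNth a T) * ∏ i, ind s l (T i) (y i)) * l a := by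
    intro a
    rw [integral_finsetSum _ fun T _ => hi a T]
    refine Finset.sum_congr rfl fun T _ => ?_
    rw [integral_const_mul, ind_int hl]
  simp_rw [h2]
  rw [Finset.sum_comm]
  unfold stp
  refine Finset.sum_congr rfl fun T _ => ?_
  rw [Finset.sum_mul]
  refine Finset.sum_congr rfl fun a _ => ?_
  ring

/-- the inequality for the step functions -/
lemma main (hl : ∀ a, 0 ≤ l a)
    (hd : ∀ a b, a ≠ b → Disjoint (Set.Ico (s a) (s a + l a)) (Set.Ico (s b) (s b + l b)))
    {m : ℕ} {M : ℝ} (hM : MBound m M) (f : (Fin (m + 1) → α) → ℝ)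
    (hf : ∀ T, f T ≠ 0 → ∀ x : Fin (m + 1) → ℝ,
      (∀ i, x i ∈ Set.Ico (s (T i)) (s (T i) + l (T i))) → (∀ i, 0 ≤ x i) ∧ ∑ i, x i ≤ 1) :
    ∑ j : Fin (m + 1), ∑ T : Fin m → α,
        (∑ a, l a * f (j.insertNth a T)) ^ 2 * ∏ i, l (T i) ≤
      M * ∑ T : Fin (m + 1) → α, f T ^ 2 * ∏ i, l (T i) := by
  have h := hM (stp s l f) (stp_meas f) ⟨_, stp_bound f⟩ (by
    intro x hx
    obtain ⟨T, -, hT⟩ := Finset.exists_ne_zero_of_sum_ne_zero hx
    refine hf T (left_ne_zero_of_mul hT) x fun i => ?_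
    by_contra hcon
    refine right_ne_zero_of_mul hT (Finset.prod_eq_zero (Finset.mem_univ i) ?_)
    exact ind_of_notMem hcon)
  simp_rw [stp_insert hl, stp_sq hd, stp_int hl] at h
  exact h

end

end TR

theorem t_TR : S_TR := by
  classical
  intro m M hM α _ μ σ hμ hσ Λ c ε hΛ hc hε hcount f hf
  have hm : (0 : ℝ) < 1 + (m + 1) * ε := by positivity
  set c' : ℝ := c * (1 + (m + 1) * ε) with hc'
  have hc0 : 0 < c' := mul_pos hc hm
  set l : α → ℝ := fun a => μ a / c' with hl
  have hl0 : ∀ a, 0 < l a := fun a => div_pos (hμ a) hc0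
  let enc := Fintype.equivFin α
  let lt : α → α → Prop := fun a b => σ a < σ b ∨ (σ a = σ b ∧ enc a < enc b)
  have lt_irr : ∀ a, ¬ lt a a := by
    rintro a (h | ⟨-, h⟩)
    · exact lt_irrefl _ h
    · exact lt_irrefl _ h
  have lt_trans' : ∀ a b d, lt a b → lt b d → lt a d := by
    rintro a b d (h | ⟨h, h'⟩) (g | ⟨g, g'⟩)
    · exact Or.inl (h.trans g)
    · exact Or.inl (h.trans_eq g)
    · exact Or.inl (h.trans_lt g)
    · exact Or.inr ⟨h.trans g, h'.trans g'⟩
  have lt_tot : ∀ a b, a ≠ b → lt a b ∨ lt b a := by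
    intro a b hab
    rcases lt_trichotomy (σ a) (σ b) with h | h | h
    · exact Or.inl (Or.inl h)
    · rcases lt_trichotomy (enc a) (enc b) with h' | h' | h'
      · exact Or.inl (Or.inr ⟨h, h'⟩)
      · exact absurd (enc.injective h') hab
      · exact Or.inr (Or.inr ⟨h.symm, h'⟩)
    · exact Or.inr (Or.inl h)
  set s : α → ℝ := fun a => ∑ b ∈ univ.filter (fun b => lt b a), l b with hs
  have hs0 : ∀ a, 0 ≤ s a := fun a => Finset.sum_nonneg fun b _ => (hl0 b).le
  have hins : ∀ a, s a + l a = ∑ b ∈ insert a (univ.filter (fun b => lt b a)), l b := by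
    intro a
    rw [Finset.sum_insert (by simpa using lt_irr a), add_comm]
  have hle : ∀ a b, lt a b → s a + l a ≤ s b := by
    intro a b hab
    rw [hins]
    refine Finset.sum_le_sum_of_subset_of_nonneg ?_ fun b _ _ => (hl0 b).le
    intro d hd
    rw [Finset.mem_insert] at hd
    rw [Finset.mem_filter]
    refine ⟨Finset.mem_univ _, ?_⟩
    rcases hd with rfl | hd
    · exact hab
    · exact lt_trans' _ _ _ (Finset.mem_filter.1 hd).2 hab
  have hdis : ∀ a b, a ≠ b →
      Disjoint (Set.Ico (s a) (s a + l a)) (Set.Ico (s b) (s b + l b)) := by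
    intro a b hab
    rw [Set.disjoint_left]
    intro x hx hx'
    rcases lt_tot a b hab with h | h
    · have := hle a b h
      linarith [hx.2, hx'.1]
    · have := hle b a h
      linarith [hx.1, hx'.2]
  have hup : ∀ a, σ a ≤ Λ → s a + l a ≤ (σ a / Λ + ε) / (1 + (m + 1) * ε) := by
    intro a ha
    have h1 : s a + l a ≤ ∑ b ∈ univ.filter (fun b => σ b ≤ σ a), l b := by
      rw [hins]
      refine Finset.sum_le_sum_of_subset_of_nonneg ?_ fun b _ _ => (hl0 b).le
      intro d hd
      rw [Finset.mem_insert] at hd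
      rw [Finset.mem_filter]
      refine ⟨Finset.mem_univ _, ?_⟩
      rcases hd with rfl | hd
      · exact le_rfl
      · rcases (Finset.mem_filter.1 hd).2 with h | ⟨h, -⟩
        · exact h.le
        · exact h.le
    refine h1.trans ?_
    simp only [hl]
    rw [← Finset.sum_div, div_le_div_iff₀ hc0 hm]
    have h2 := hcount (σ a) (hσ a) ha
    calc _ ≤ (c * (σ a / Λ + ε)) * (1 + (m + 1) * ε) := mul_le_mul_of_nonneg_right h2 hm.le
      _ = _ := by rw [hc']; ring
  have key := TR.main (s := s) (l := l) (fun a => (hl0 a).le) hdis hM f (by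
    intro T hT x hx
    have hsum := hf T hT
    have hi : ∀ i, σ (T i) ≤ Λ := fun i =>
      (Finset.single_le_sum (f := fun i => σ (T i)) (fun i _ => hσ _) (Finset.mem_univ i)).trans hsum
    refine ⟨fun i => (hs0 _).trans (hx i).1, ?_⟩
    calc ∑ i, x i ≤ ∑ i, (σ (T i) / Λ + ε) / (1 + (m + 1) * ε) :=
          Finset.sum_le_sum fun i _ => ((hx i).2.le).trans (hup _ (hi i))
      _ = ((∑ i, σ (T i)) / Λ + (m + 1) * ε) / (1 + (m + 1) * ε) := by
          rw [← Finset.sum_div, Finset.sum_add_distrib, Finset.sum_div, Finset.sum_const,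
            Finset.card_univ, Fintype.card_fin, nsmul_eq_mul]
          push_cast
          ring
      _ ≤ 1 := by
          rw [div_le_one hm]
          have : (∑ i, σ (T i)) / Λ ≤ 1 := (div_le_one hΛ).2 hsum
          linarith)
  have e1 : ∀ (j : Fin (m + 1)) (T : Fin m → α),
      (∑ a, l a * f (j.insertNth a T)) ^ 2 * ∏ i, l (T i) =
      (1 / c' ^ (m + 2)) * ((∏ i, μ (T i)) * (∑ t : α, μ t * f (j.insertNth t T)) ^ 2) := by
    intro j T
    simp only [hl]
    rw [Finset.prod_div_distrib, Finset.prod_const, Finset.card_univ, Fintype.card_fin]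
    have : ∑ a, μ a / c' * f (j.insertNth a T) = (∑ t : α, μ t * f (j.insertNth t T)) / c' := by
      rw [Finset.sum_div]
      refine Finset.sum_congr rfl fun a _ => ?_
      ring
    rw [this]
    field_simp
    ring
  have e2 : ∀ T : Fin (m + 1) → α, f T ^ 2 * ∏ i, l (T i) =
      (1 / c' ^ (m + 1)) * ((∏ i, μ (T i)) * f T ^ 2) := by
    intro T
    simp only [hl]
    rw [Finset.prod_div_distrib, Finset.prod_const, Finset.card_univ, Fintype.card_fin]
    ring
  simp only [e1, e2, ← Finset.mul_sum] at key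
  have hpos : 0 < c' ^ (m + 2) := pow_pos hc0 _
  have h3 := mul_le_mul_of_nonneg_left key hpos.le
  have h4 : c' ^ (m + 2) * (1 / c' ^ (m + 2) * ∑ j : Fin (m + 1), ∑ T : Fin m → α,
      (∏ i, μ (T i)) * (∑ t : α, μ t * f (j.insertNth t T)) ^ 2) =
      ∑ j : Fin (m + 1), ∑ T : Fin m → α,
      (∏ i, μ (T i)) * (∑ t : α, μ t * f (j.insertNth t T)) ^ 2 := by
    field_simp
  rw [h4] at h3
  refine h3.trans (le_of_eq ?_)
  have h5 : c' ^ (m + 2) * (M * (1 / c' ^ (m + 1) *
      ∑ T : Fin (m + 1) → α, (∏ i, μ (T i)) * f T ^ 2)) =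
      c' * M * ∑ T : Fin (m + 1) → α, (∏ i, μ (T i)) * f T ^ 2 := by
    rw [pow_succ c' (m + 1)]
    field_simp
  rw [h5]

end Pool.Agent.N422.MK
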