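import Pool.Agent.N422.MK.OP4
import Pool.Agent.N422.MK.CA
import Pool.Agent.N422.MK.CB
import Pool.Agent.N422.MK.COMB
import Pool.Agent.N422.MK.TR

/-! Project MK: the model with the constant of Maynard. Author: helper422. -/

set_option autoImplicit false

namespace Pool.Agent.N422.MK

open Finset Filter Topology Pool.Agent.Y835.SB Pool.Agent.N422.MT

theorem combT : S_COMB := t_COMB (t_CA t_TR) t_CB

/-- continuity of the constant -/
theorem smallK (m : ℕ) (Mc ε : ℝ) (hε : 0 < ε) : ∃ t : ℝ, 0 < t ∧ t < 1 / 2 ∧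
    Real.exp ((m + 4) * t) * Real.exp t * (1 / (1 - t)) * (Mc * (1 + (m + 1) * t) + (m + 1) * (1 + t) * (Real.exp ((m + 1) * t) - 1)) ≤
      Mc + ε := by
  have h1 : ContinuousAt (fun t : ℝ => Real.exp ((m + 4) * t) * Real.exp t * (1 / (1 - t)) *
      (Mc * (1 + (m + 1) * t) + (m + 1) * (1 + t) * (Real.exp ((m + 1) * t) - 1))) 0 := by
    have : (1 : ℝ) - 0 ≠ 0 := by norm_num
    fun_prop (disch := assumption)
  have h2 : (fun t : ℝ => Real.exp ((m + 4) * t) * Real.exp t * (1 / (1 - t)) *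
      (Mc * (1 + (m + 1) * t) + (m + 1) * (1 + t) * (Real.exp ((m + 1) * t) - 1))) 0 < Mc + ε := by
    simp
    exact hε
  have h3 := h1.eventually (eventually_lt_nhds h2)
  rw [Metric.eventually_nhds_iff] at h3
  obtain ⟨e, he, h4⟩ := h3
  refine ⟨min (e / 2) (1 / 4), by positivity, ?_, ?_⟩
  · have := min_le_right (e / 2) (1 / 4 : ℝ)
    linarith
  · refine (h4 ?_).le
    have h5 : 0 < min (e / 2) (1 / 4 : ℝ) := by positivity
    rw [Real.dist_eq, sub_zero, abs_of_pos h5]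
    have := min_le_left (e / 2) (1 / 4 : ℝ)
    linarith

/-- sums over the sets of places -/
theorem enumT {P : Finset ℕ} {n : ℕ} {q : Fin n → ℕ} (hinj : Function.Injective q) (hq : ∀ i, q i ∈ P)
    (u : ℝ) : ∑ t ∈ univ.filter (fun t : Finset (Fin n) => ∑ i ∈ t, Real.log (q i) ≤ u), ∏ i ∈ t, 1 / (q i : ℝ) ≤
      ∑ T ∈ P.powerset.filter (fun T => lg T ≤ u), 1 / (∏ p ∈ T, (p : ℝ)) := by
  classical
  have h1 : ∀ t : Finset (Fin n), ∑ i ∈ t, Real.log (q i) = lg (t.image q) := by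
    intro t
    unfold lg
    rw [sum_image (fun a _ b _ hab => hinj hab)]
  have h2 : ∀ t : Finset (Fin n), ∏ i ∈ t, 1 / (q i : ℝ) = 1 / (∏ p ∈ t.image q, (p : ℝ)) := by
    intro t
    rw [prod_image (fun a _ b _ hab => hinj hab), one_div, ← prod_inv_distrib]
    exact prod_congr rfl fun i _ => one_div _
  have h3 : ∑ t ∈ univ.filter (fun t : Finset (Fin n) => ∑ i ∈ t, Real.log (q i) ≤ u), ∏ i ∈ t, 1 / (q i : ℝ) =
      ∑ T ∈ ((univ.filter (fun t : Finset (Fin n) => ∑ i ∈ t, Real.log (q i) ≤ u)).image (fun t => t.image q) :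
        Finset (Finset ℕ)), 1 / (∏ p ∈ T, (p : ℝ)) := by
    rw [sum_image]
    · exact sum_congr rfl fun t _ => h2 t
    · intro a _ b _ hab
      exact image_injective hinj hab
  rw [h3]
  apply sum_le_sum_of_subset_of_nonneg
  · intro T hT
    rw [mem_image] at hT
    obtain ⟨t, ht, rfl⟩ := hT
    rw [mem_filter] at ht ⊢
    refine ⟨mem_powerset.2 ?_, ?_⟩
    · intro p hp
      rw [mem_image] at hp
      obtain ⟨i, _, rfl⟩ := hp
      exact hq i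
    · rw [← h1]
      exact ht.2
  · intro T _ _
    exact one_div_nonneg.2 (prod_nonneg fun p _ => Nat.cast_nonneg p)

/-- sums over small sets of large primes -/
theorem inv_le {m Y : ℕ} (hY : 2 ≤ Y) (hm : m + 1 ≤ Y) {Λ t : ℝ} (ht : 2 * (Λ / (Y * Real.log Y)) ≤ t)
    {P : Finset ℕ} (hP : ∀ p ∈ P, Y < p) {n : ℕ} {q : Fin n → ℕ} (hinj : Function.Injective q) (hq : ∀ i, q i ∈ P)
    (hYm : 2 * (m + 1) ≤ Y)
    (s : Finset (Fin n)) (hs : ∑ i ∈ s, Real.log (q i) ≤ Λ) : ∑ i ∈ s, 1 / ((q i : ℝ) - (m + 1)) ≤ t := by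
  classical
  have h1 : lg (s.image q) ≤ Λ := by
    unfold lg
    rw [sum_image (fun a _ b _ hab => hinj hab)]
    exact hs
  have h2 := sum_inv_le' hY (P := s.image q) (fun p hp => by
    rw [mem_image] at hp
    obtain ⟨i, _, rfl⟩ := hp
    exact hP _ (hq i)) h1
  rw [sum_image (fun a _ b _ hab => hinj hab)] at h2
  have h3 : ∀ i ∈ s, 1 / ((q i : ℝ) - (m + 1)) ≤ 2 * (1 / ((q i : ℝ) - 1)) := by
    intro i _
    have h4 : (Y : ℝ) + 1 ≤ q i := by exact_mod_cast hP _ (hq i)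
    have h5 : 2 * ((m : ℝ) + 1) ≤ Y := by exact_mod_cast hYm
    have hm0 : (0 : ℝ) ≤ m := Nat.cast_nonneg m
    rw [mul_one_div, div_le_div_iff₀ (by linarith) (by linarith)]
    linarith
  refine (sum_le_sum h3).trans ?_
  rw [← mul_sum]
  linarith

/-- **the model** -/
theorem modelK (m : ℕ) (Mc : ℝ) (hM : MBound m Mc) (hMc : 0 ≤ Mc) (ε B1 : ℝ) (hε : 0 < ε) (hB1 : 0 ≤ B1) :
    ∃ Λ0 : ℝ, ∀ Λ : ℝ, Λ0 ≤ Λ →
    ∀ P0 : Finset ℕ, (∀ p ∈ P0, p.Prime) → ∀ {ι : Type} (I : Finset ι) (d : ι → ℕ) (f : ι → ℕ → ℝ),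
    (∀ i ∈ I, 0 < d i ∧ Real.log (d i) ≤ Λ ∧ Function.Periodic (f i) (d i)) → ∀ N : ℕ, 0 < N →
    (∀ p ∈ P0, p ∣ N) → (∀ i ∈ I, d i ∣ N) → ∀ (ρ : Fin (m + 1) → ℕ → ℕ) (Bd : Finset ℕ),
    Bd ⊆ P0 → lg Bd ≤ B1 * Λ →
    (∀ p ∈ P0, p ∉ Bd → ∀ n, ∀ i j, p ∣ n + ρ i p → p ∣ n + ρ j p → i = j) →
    ∀ (u : ℕ → ℝ) (e : ℕ), (∀ n, 0 ≤ u n) → Function.Periodic u e → e ∣ N → (∀ p ∈ P0, p ∣ e → p ∈ Bd) →
    ∑ j : Fin (m + 1), ∑ n ∈ range N, (if ∀ p ∈ P0, ¬ p ∣ n + ρ j p then u n * (∑ i ∈ I, f i n) ^ 2 else 0) ≤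
      (∏ p ∈ P0, (1 - 1 / (p : ℝ))) *
        ((Mc + ε) * Λ * ∑ n ∈ range N, u n * (∑ i ∈ I, f i n) ^ 2) := by
  classical
  obtain ⟨t, ht0, ht1, ht⟩ := smallK m Mc ε hε
  obtain ⟨j, hj⟩ := exists_pow_lt_of_lt_one (show 0 < t / 2 by positivity) (show (1 / 2 : ℝ) < 1 by norm_num)
  obtain ⟨J, hJ⟩ : ∃ J, J = j + 2 := ⟨_, rfl⟩
  have hJ2 : 2 ≤ J := by omega
  have hJt : 2 * (1 / 2 : ℝ) ^ J ≤ t := by
    have h1 : (1 / 2 : ℝ) ^ J ≤ (1 / 2 : ℝ) ^ j := pow_le_pow_of_le_one (by norm_num) (by norm_num) (by omega)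
    linarith
  have hJr : (2 : ℝ) ≤ J := by exact_mod_cast hJ2
  have hl4 : 0 < Real.log 4 := Real.log_pos (by norm_num)
  have hm0 : (0 : ℝ) ≤ m := Nat.cast_nonneg m
  obtain ⟨θ, hθ⟩ : ∃ θ : ℝ, θ = t / (2 * J * Real.log 4) := ⟨_, rfl⟩
  have hθ0 : 0 < θ := by rw [hθ]; positivity
  obtain ⟨E, hE⟩ : ∃ E : ℝ, E = Real.exp (4 * (1 + B1) / (θ * t)) := ⟨_, rfl⟩
  have hE0 : 0 < E := by rw [hE]; exact Real.exp_pos _
  refine ⟨2 / t + (E + 4 + 2 * (m + 1)) / θ, ?_⟩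
  intro Λ hΛ P0 hP0 ι I d f hf N hN hPN hIN ρ Bd hBd hBdl hρ u e hu0 hue heN heB
  have hΛ1 : 2 / t ≤ Λ := by
    have : 0 ≤ (E + 4 + 2 * (m + 1)) / θ := by positivity
    linarith
  have hΛ2 : (E + 4 + 2 * (m + 1)) / θ ≤ Λ := by
    have : 0 ≤ 2 / t := by positivity
    linarith
  have hΛ0 : 0 < Λ := lt_of_lt_of_le (by positivity) hΛ1
  rw [div_le_iff₀ (by positivity)] at hΛ1
  rw [div_le_iff₀ hθ0] at hΛ2
  obtain ⟨Y, hY⟩ : ∃ Y, Y = ⌊θ * Λ⌋₊ := ⟨_, rfl⟩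
  have hYle : (Y : ℝ) ≤ θ * Λ := by rw [hY]; exact Nat.floor_le (by positivity)
  have hYlt : θ * Λ < Y + 1 := by rw [hY]; exact Nat.lt_floor_add_one _
  have hY3 : (3 : ℝ) ≤ Y := by linarith
  have hYm' : 2 * ((m : ℝ) + 1) ≤ Y := by linarith
  have hYm : 2 * (m + 1) ≤ Y := by exact_mod_cast hYm'
  have hY2 : 2 ≤ Y := by
    have : (2 : ℝ) ≤ Y := by linarith
    exact_mod_cast this
  have hYE : E ≤ Y := by linarith
  have hYr : (0 : ℝ) < Y := by linarith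
  have hYhalf : θ * Λ / 2 ≤ Y := by linarith
  have hlY : 4 * (1 + B1) / (θ * t) ≤ Real.log Y := by
    rw [Real.le_log_iff_exp_le hYr, ← hE]
    exact hYE
  have hlY0 : 0 < Real.log Y := lt_of_lt_of_le (by positivity) hlY
  have hx1 : 2 * (1 + B1) * (Λ / (Y * Real.log Y)) ≤ t := by
    rw [mul_div_assoc', div_le_iff₀ (by positivity)]
    have h1 : θ * Λ / 2 * (4 * (1 + B1) / (θ * t)) ≤ Y * Real.log Y := mul_le_mul hYhalf hlY (by positivity) (by positivity)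
    have h2 := mul_le_mul_of_nonneg_left h1 ht0.le
    refine le_trans (le_of_eq ?_) h2
    field_simp
    ring
  have hx0 : 0 ≤ Λ / (Y * Real.log Y) := by positivity
  have hx : 2 * (Λ / (Y * Real.log Y)) ≤ t := by nlinarith
  have hxB : B1 * (Λ / (Y * Real.log Y)) ≤ t := by nlinarith
  -- the primes
  obtain ⟨A, hA⟩ : ∃ A, A = P0.filter (fun p => p ≤ Y) := ⟨_, rfl⟩
  obtain ⟨P, hP⟩ : ∃ P, P = P0.filter (fun p => Y < p ∧ p ∉ Bd) := ⟨_, rfl⟩
  obtain ⟨Bp, hBp⟩ : ∃ Bp, Bp = P0.filter (fun p => Y < p ∧ p ∈ Bd) := ⟨_, rfl⟩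
  have hAm : ∀ p ∈ A, p.Prime ∧ p ≤ Y := by
    intro p hp
    rw [hA, mem_filter] at hp
    exact ⟨hP0 p hp.1, hp.2⟩
  have hPm : ∀ p ∈ P, (p.Prime ∧ Y < p) ∧ p ∈ P0 := by
    intro p hp
    rw [hP, mem_filter] at hp
    exact ⟨⟨hP0 p hp.1, hp.2.1⟩, hp.1⟩
  have hPB : ∀ p ∈ P, p ∉ Bd := by
    intro p hp
    rw [hP, mem_filter] at hp
    exact hp.2.2
  have hBm : ∀ p ∈ Bp, (p.Prime ∧ Y < p) ∧ p ∈ Bd := by
    intro p hp
    rw [hBp, mem_filter] at hp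
    exact ⟨⟨hP0 p hp.1, hp.2.1⟩, hp.2.2⟩
  have hVsplit : ∏ p ∈ P0, (1 - 1 / (p : ℝ)) = (∏ p ∈ P, (1 - 1 / (p : ℝ))) * (∏ p ∈ A, (1 - 1 / (p : ℝ))) *
      ∏ p ∈ Bp, (1 - 1 / (p : ℝ)) := by
    have e1 := prod_filter_mul_prod_filter_not P0 (fun p => p ≤ Y) (fun p => 1 - 1 / (p : ℝ))
    have e2 := prod_filter_mul_prod_filter_not (P0.filter (fun p => ¬ p ≤ Y)) (fun p => p ∈ Bd) (fun p => 1 - 1 / (p : ℝ))
    rw [filter_filter, filter_filter] at e2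
    have e3 : P0.filter (fun p => ¬ p ≤ Y ∧ p ∈ Bd) = Bp := by
      rw [hBp]
      exact filter_congr fun p _ => by rw [not_le]
    have e4 : P0.filter (fun p => ¬ p ≤ Y ∧ p ∉ Bd) = P := by
      rw [hP]
      exact filter_congr fun p _ => by rw [not_le]
    rw [e3, e4] at e2
    rw [← e1, ← e2, ← hA]
    ring
  have hVB : 1 ≤ Real.exp t * ∏ p ∈ Bp, (1 - 1 / (p : ℝ)) := by
    apply one_le_V (fun p hp => (hBm p hp).1.1.two_le)
    refine (sum_inv_le' hY2 (fun p hp => (hBm p hp).1.2) ((lg_mono fun p hp => (hBm p hp).2).trans hBdl)).trans ?_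
    have e : B1 * Λ / (Y * Real.log Y) = B1 * (Λ / (Y * Real.log Y)) := by ring
    rw [e]
    exact hxB
  have hlgA : lg A ≤ Y * Real.log 4 := lg_primes hAm
  have hlgA0 := lg_nonneg A
  -- coordinates
  set M : ℕ → ℕ := fun p => N / p ^ N.factorization p with hMd
  set K : ℕ → ℕ := fun p => p ^ N.factorization p with hK
  have hD : Dat N M K P := dat_of hN fun p hp => ⟨(hPm p hp).1.1, hPN p (hPm p hp).2⟩
  obtain ⟨F, hF⟩ : ∃ F : ℕ → ℝ, F = fun n => ∑ i ∈ I, f i n := ⟨_, rfl⟩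
  have hFN : Function.Periodic F N := by
    intro n
    rw [hF]
    exact sum_congr rfl fun i hi => per_of_dvd (hf i hi).2.2 (hIN i hi) n
  have hVA : 0 < ∏ p ∈ A, (1 - 1 / (p : ℝ)) := by
    refine prod_pos fun p hp => ?_
    have h2 : (2 : ℝ) ≤ p := by exact_mod_cast (hAm p hp).1.two_le
    rw [sub_pos, div_lt_one (by linarith)]
    linarith
  have hVP : 0 ≤ ∏ p ∈ P, (1 - 1 / (p : ℝ)) :=
    prod_nonneg fun p hp => fac_nn (by exact_mod_cast (hPm p hp).1.1.two_le)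
  have h1J : 0 < 1 - 2 * (1 / 2 : ℝ) ^ J := by linarith
  obtain ⟨C, hC⟩ : ∃ C : ℝ, C = (∏ p ∈ A, (1 - 1 / (p : ℝ))) / (1 - 2 * (1 / 2 : ℝ) ^ J) * Λ := ⟨_, rfl⟩
  have hC0 : 0 < C := by rw [hC]; positivity
  have hcle : (1 + J * lg A) / Λ ≤ t := by
    rw [div_le_iff₀ hΛ0]
    have h1 : J * lg A ≤ t * Λ / 2 := by
      have h2 : (J : ℝ) * lg A ≤ J * (θ * Λ * Real.log 4) := by
        apply mul_le_mul_of_nonneg_left _ (by positivity)
        exact hlgA.trans (mul_le_mul_of_nonneg_right hYle hl4.le)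
      refine h2.trans (le_of_eq ?_)
      rw [hθ]
      field_simp
    linarith
  have hAP : Disjoint A P := by
    rw [disjoint_left]
    intro p h1 h2
    have := (hAm p h1).2
    have := (hPm p h2).1.2
    omega
  -- the enumeration
  obtain ⟨q, hqd⟩ : ∃ q : Fin P.card → ℕ, q = fun i => (P.equivFin.symm i : ℕ) := ⟨_, rfl⟩
  have hqP : ∀ i, q i ∈ P := fun i => by rw [hqd]; exact (P.equivFin.symm i).2
  have hinj : Function.Injective q := by
    intro a b hab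
    rw [hqd] at hab
    exact P.equivFin.symm.injective (Subtype.ext hab)
  have hqsurj : ∀ p ∈ P, ∃ i, q i = p := by
    intro p hp
    refine ⟨P.equivFin ⟨p, hp⟩, ?_⟩
    rw [hqd]
    simp
  have hprod : ∏ i, (1 - 1 / (q i : ℝ)) = ∏ p ∈ P, (1 - 1 / (p : ℝ)) := by
    rw [hqd, (P.equivFin.symm).prod_comp (fun p : P => 1 - 1 / ((p : ℕ) : ℝ))]
    exact prod_coe_sort P (fun p => 1 - 1 / (p : ℝ))
  have hPY : ∀ p ∈ P, Y < p := fun p hp => (hPm p hp).1.2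
  have hkP : ∀ p ∈ P, ((m : ℝ) + 1) < p := by
    intro p hp
    have h1 : (Y : ℝ) < p := by exact_mod_cast hPY p hp
    linarith
  have hcomb := combT m Mc hM P.card (fun i => (q i : ℝ)) (fun i => Real.log (q i)) (fun i => hkP _ (hqP i))
    (fun i => two hD (hqP i)) (fun i => Real.log_natCast_nonneg _) Λ C t t hΛ0 hC0 ht0.le ht0.le
    (fun s hs => inv_le hY2 (by omega) hx hPY hinj hqP hYm s hs)
    (by
      intro v hv hvΛ
      refine (enumT hinj hqP v).trans ?_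
      have h1 := sumT J (by omega) (fun p hp => (hAm p hp).1) (fun p hp => (hPm p hp).1.1) hAP hv
      have h2 : ∑ T ∈ P.powerset.filter (fun T => lg T ≤ v), 1 / (∏ p ∈ T, (p : ℝ)) ≤
          (∏ p ∈ A, (1 - 1 / (p : ℝ))) * (1 + J * lg A + v) / (1 - 2 * (1 / 2 : ℝ) ^ J) := by
        rw [le_div_iff₀ h1J, mul_comm]
        exact h1
      refine h2.trans ?_
      have h3 : (∏ p ∈ A, (1 - 1 / (p : ℝ))) * (1 + J * lg A + v) / (1 - 2 * (1 / 2 : ℝ) ^ J) =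
          C * (v / Λ + (1 + J * lg A) / Λ) := by
        rw [hC]
        field_simp
        ring
      rw [h3]
      exact mul_le_mul_of_nonneg_left (by linarith) hC0.le)
  -- the sites
  have hMe : ∀ p ∈ P, Function.Periodic u (M p) := fun p hp =>
    per_of_dvd hue (dvd_compl (hPm p hp).1.1 heN fun h1 => hPB p hp (heB p (hPm p hp).2 h1))
  obtain ⟨Uj, hUj⟩ : ∃ Uj : Fin (m + 1) → ℕ → ℝ, Uj = fun j n => if ∀ p ∈ A, ¬ p ∣ n + ρ j p then u n else 0 := ⟨_, rfl⟩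
  have hUv : ∀ j n, Uj j n = if ∀ p ∈ A, ¬ p ∣ n + ρ j p then u n else 0 := fun j n => by rw [hUj]
  obtain ⟨CC, hCC⟩ : ∃ CC : ℝ, CC = (∏ p ∈ P, (1 - 1 / (p : ℝ))) * Real.exp ((m + 4) * t) * C *
      (Mc * (1 + (m + 1) * t) + (m + 1) * (1 + t) * (Real.exp ((m + 1) * t) - 1)) := ⟨_, rfl⟩
  have hbr : 0 ≤ Mc * (1 + (m + 1) * t) + (m + 1) * (1 + t) * (Real.exp ((m + 1) * t) - 1) := by
    have h1 : 1 ≤ Real.exp ((m + 1) * t) := Real.one_le_exp (by positivity)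
    have h2 : 0 ≤ Real.exp ((m + 1) * t) - 1 := by linarith
    positivity
  have hCC0 : 0 ≤ CC := by rw [hCC]; positivity
  have hmain := sitesK hD ρ (fun p hp => hρ p (hPm p hp).2 (hPB p hp)) (fun p hp => by
      push_cast
      exact hkP p hp) hinj hqP hu0 hMe (Uj := Uj)
    (fun j n => by rw [hUv]; split_ifs; exacts [hu0 n, le_rfl])
    (fun j n => by rw [hUv]; split_ifs; exacts [le_rfl, hu0 n]) (fun j p hp n => by
      rw [hUv, hUv, hMe p hp n]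
      refine if_congr ?_ rfl rfl
      refine forall₂_congr fun r hr => not_congr ?_
      refine dvd_shift ?_
      have h1 := hAm r hr
      have h2 := (hPm p hp).1
      refine dvd_compl h2.1 (hPN r (by rw [hA, mem_filter] at hr; exact hr.1)) fun h3 => ?_
      have h4 := (Nat.prime_dvd_prime_iff_eq h2.1 h1.1).1 h3
      omega)
    I f (fun i => (d i).primeFactors) (Λ := Λ) (fun i hi => ⟨fun p hp hpd => by
      refine per_of_dvd (hf i hi).2.2 (dvd_compl (hPm p hp).1.1 (hIN i hi) fun h1 => hpd ?_)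
      exact Nat.mem_primeFactors.2 ⟨(hPm p hp).1.1, h1, (hf i hi).1.ne'⟩, by
      have h1 : ∏ p ∈ P.filter (fun p => p ∈ (d i).primeFactors), p ∣ d i := by
        have h2 : ∏ p ∈ P.filter (fun p => p ∈ (d i).primeFactors), p ∣
            ∏ p ∈ (d i).primeFactors, p :=
          prod_dvd_prod_of_subset _ _ _ fun p hp => (mem_filter.1 hp).2
        exact h2.trans (Nat.prod_primeFactors_dvd (d i))
      have h3 := Nat.le_of_dvd (hf i hi).1 h1
      have h4 : lg (P.filter (fun p => p ∈ (d i).primeFactors)) =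
          Real.log ((∏ p ∈ P.filter (fun p => p ∈ (d i).primeFactors), p : ℕ) : ℝ) := by
        unfold lg
        push_cast
        rw [Real.log_prod]
        intro p hp
        exact_mod_cast (hPm p (mem_filter.1 hp).1).1.1.ne_zero
      rw [h4]
      refine le_trans (Real.log_le_log ?_ ?_) (hf i hi).2.1
      · exact_mod_cast prod_pos fun p hp => (hPm p (mem_filter.1 hp).1).1.1.pos
      · exact_mod_cast h3⟩) hF hFN (CC := CC) hCC0 (by
      intro g hg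
      refine (hcomb g hg).trans (le_of_eq ?_)
      rw [hCC, ← hprod])
  -- conclusion
  have hleft : ∑ j : Fin (m + 1), ∑ n ∈ range N, (if ∀ p ∈ P0, ¬ p ∣ n + ρ j p then u n * (∑ i ∈ I, f i n) ^ 2 else 0) ≤
      ∑ j : Fin (m + 1), ∑ n ∈ range N, Uj j n * (if ∀ i, ¬ q i ∣ n + ρ j (q i) then F n ^ 2 else 0) := by
    refine sum_le_sum fun j _ => sum_le_sum fun n _ => ?_
    rw [hUv, hF]
    by_cases h1 : ∀ p ∈ P0, ¬ p ∣ n + ρ j p
    · rw [if_pos h1, if_pos (fun p hp => h1 p (by rw [hA, mem_filter] at hp; exact hp.1)),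
        if_pos (fun i => h1 _ (hPm _ (hqP i)).2)]
    · rw [if_neg h1]
      apply mul_nonneg
      · split_ifs; exacts [hu0 n, le_rfl]
      · split_ifs
        · exact sq_nonneg _
        · exact le_rfl
  refine hleft.trans (hmain.trans ?_)
  have hFs : ∑ n ∈ range N, u n * F n ^ 2 = ∑ n ∈ range N, u n * (∑ i ∈ I, f i n) ^ 2 := by rw [hF]
  rw [hFs, hVsplit]
  obtain ⟨SS, hSS⟩ : ∃ SS : ℝ, SS = ∑ n ∈ range N, u n * (∑ i ∈ I, f i n) ^ 2 := ⟨_, rfl⟩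
  rw [← hSS]
  have hSS0 : 0 ≤ SS := by rw [hSS]; exact sum_nonneg fun n _ => mul_nonneg (hu0 n) (sq_nonneg _)
  have h1 : C ≤ (∏ p ∈ A, (1 - 1 / (p : ℝ))) * (1 / (1 - t)) * Λ := by
    rw [hC]
    apply mul_le_mul_of_nonneg_right _ hΛ0.le
    rw [div_eq_mul_one_div]
    exact mul_le_mul_of_nonneg_left (one_div_le_one_div_of_le (by linarith) (by linarith)) hVA.le
  have hB0 : 0 ≤ ∏ p ∈ Bp, (1 - 1 / (p : ℝ)) :=
    prod_nonneg fun p hp => fac_nn (by exact_mod_cast (hBm p hp).1.1.two_le)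
  obtain ⟨VP, hVPd⟩ : ∃ VP, VP = ∏ p ∈ P, (1 - 1 / (p : ℝ)) := ⟨_, rfl⟩
  obtain ⟨VA, hVAd⟩ : ∃ VA, VA = ∏ p ∈ A, (1 - 1 / (p : ℝ)) := ⟨_, rfl⟩
  obtain ⟨VB, hVBd⟩ : ∃ VB, VB = ∏ p ∈ Bp, (1 - 1 / (p : ℝ)) := ⟨_, rfl⟩
  obtain ⟨br, hbrd⟩ : ∃ br, br = Mc * (1 + (m + 1) * t) + (m + 1) * (1 + t) * (Real.exp ((m + 1) * t) - 1) := ⟨_, rfl⟩
  rw [hCC]
  rw [← hVPd, ← hVAd, ← hVBd, ← hbrd]
  rw [← hbrd] at ht hbr
  rw [← hVAd] at h1 hVA
  rw [← hVPd] at hVP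
  rw [← hVBd] at hVB hB0
  have hk1 : VP * Real.exp ((m + 4) * t) * C * br ≤
      VP * Real.exp ((m + 4) * t) * (VA * (1 / (1 - t)) * Λ) * br := by
    apply mul_le_mul_of_nonneg_right _ hbr
    exact mul_le_mul_of_nonneg_left h1 (by positivity)
  have h1t : 0 < 1 - t := by linarith
  have hk2 : VP * Real.exp ((m + 4) * t) * (VA * (1 / (1 - t)) * Λ) * br ≤
      (Real.exp t * VB) * (VP * Real.exp ((m + 4) * t) * (VA * (1 / (1 - t)) * Λ) * br) := by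
    have h2 := mul_le_mul_of_nonneg_right hVB
      (show 0 ≤ VP * Real.exp ((m + 4) * t) * (VA * (1 / (1 - t)) * Λ) * br by positivity)
    linarith
  have hk3 : (Real.exp t * VB) * (VP * Real.exp ((m + 4) * t) * (VA * (1 / (1 - t)) * Λ) * br) ≤
      VP * VA * VB * ((Mc + ε) * Λ) := by
    have h2 := mul_le_mul_of_nonneg_left ht (show 0 ≤ VP * VA * VB * Λ by positivity)
    refine le_trans (le_of_eq ?_) (h2.trans (le_of_eq ?_))
    · ring
    · ring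
  have hk4 := mul_le_mul_of_nonneg_right (hk1.trans (hk2.trans hk3)) hSS0
  refine hk4.trans (le_of_eq ?_)
  ring

end Pool.Agent.N422.MK
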