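import Pool.Agent.N422.MK.Stm
import Pool.Agent.N422.MT6

/-! Project MK: local operators at a prime for `k` sites. Author: helper422. -/

set_option autoImplicit false

namespace Pool.Agent.N422.MK

open Finset Pool.Agent.Y835.SB Pool.Agent.N422.MT

theorem fib2 {τ : Type} (T : Finset τ) (k : ℕ) {Kc p : ℝ} (hp0 : 0 < p) (hp : (k : ℝ) < p) (hcard : (T.card : ℝ) = Kc)
    (h : Fin k → τ → ℝ) (h01 : ∀ i, ∀ t ∈ T, h i t * h i t = h i t)
    (hd : ∀ i j, i ≠ j → ∀ t ∈ T, h i t * h j t = 0) (hs : ∀ i, ∑ t ∈ T, h i t = Kc / p) (F : τ → ℝ) (e : ℝ)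
    (d : Fin k → ℝ) (he : e * Kc = ∑ t ∈ T, F t) (hdd : ∀ i, (e + d i) * (Kc / p) = ∑ t ∈ T, h i t * F t) (R : τ → ℝ)
    (hR : ∀ t ∈ T, R t = F t - e - ∑ i, d i * (h i t - (1 - ∑ j, h j t) / (p - k))) :
    ∑ t ∈ T, F t ^ 2 = Kc * (e ^ 2 + 1 / p * ∑ i, d i ^ 2 + (∑ i, d i) ^ 2 / (p * (p - k))) + ∑ t ∈ T, R t ^ 2 ∧
    ∀ j, ∑ t ∈ T, (1 - h j t) * F t ^ 2 = Kc * ((1 - 1 / p) * e ^ 2 - 2 * e * d j / p +
      1 / p * (∑ i, d i ^ 2 - d j ^ 2) + (∑ i, d i) ^ 2 / (p * (p - k))) + ∑ t ∈ T, (1 - h j t) * R t ^ 2 := by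
  have hpk : p - k ≠ 0 := by linarith
  have hp' : p ≠ 0 := hp0.ne'
  obtain ⟨D, hD⟩ : ∃ D, D = ∑ i, d i := ⟨_, rfl⟩
  obtain ⟨a, ha⟩ : ∃ a, a = e - D / (p - k) := ⟨_, rfl⟩
  obtain ⟨b, hb⟩ : ∃ b : Fin k → ℝ, ∀ i, b i = d i + D / (p - k) := ⟨fun i => d i + D / (p - k), fun _ => rfl⟩
  rw [← hD]
  have hab : ∀ i, a + b i = e + d i := fun i => by rw [ha, hb]; ring
  have hsb : ∑ i, b i = D * p / (p - k) := by
    simp only [hb]
    rw [sum_add_distrib, ← hD, sum_const, card_univ, Fintype.card_fin, nsmul_eq_mul]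
    field_simp
    ring
  have hF : ∀ t ∈ T, F t = a + ∑ i, b i * h i t + R t := by
    intro t ht
    rw [hR t ht]
    have e1 : ∑ i, d i * (h i t - (1 - ∑ j, h j t) / (p - k)) =
        ∑ i, d i * h i t - D * ((1 - ∑ j, h j t) / (p - k)) := by
      rw [hD, sum_mul, ← sum_sub_distrib]
      exact sum_congr rfl fun i _ => by ring
    have e2 : ∑ i, b i * h i t = ∑ i, d i * h i t + D / (p - k) * ∑ j, h j t := by
      rw [mul_sum, ← sum_add_distrib]
      exact sum_congr rfl fun i _ => by rw [hb]; ring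
    rw [e1, e2, ha]
    ring
  have hhP : ∀ j, ∀ t ∈ T, h j t * ∑ i, b i * h i t = b j * h j t := by
    intro j t ht
    rw [mul_sum, sum_eq_single j]
    · have := h01 j t ht
      calc h j t * (b j * h j t) = b j * (h j t * h j t) := by ring
        _ = _ := by rw [this]
    · intro i _ hij
      have := hd j i hij.symm t ht
      calc h j t * (b i * h i t) = b i * (h j t * h i t) := by ring
        _ = _ := by rw [this, mul_zero]
    · intro h1
      exact absurd (mem_univ j) h1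
  -- the rest is orthogonal
  have hR1 : ∀ j, ∑ t ∈ T, h j t * R t = 0 := by
    intro j
    have e1 : ∑ t ∈ T, h j t * R t = ∑ t ∈ T, h j t * F t - (a + b j) * ∑ t ∈ T, h j t := by
      rw [mul_sum, ← sum_sub_distrib]
      refine sum_congr rfl fun t ht => ?_
      have h1 := hF t ht
      have h2 := hhP j t ht
      have h3 : h j t * F t = a * h j t + h j t * ∑ i, b i * h i t + h j t * R t := by rw [h1]; ring
      rw [h3, h2]
      ring
    rw [e1, hs, ← hdd, hab]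
    ring
  have hR0 : ∑ t ∈ T, R t = 0 := by
    have e1 : ∑ t ∈ T, R t = ∑ t ∈ T, F t - Kc * a - ∑ i, b i * ∑ t ∈ T, h i t := by
      have e2 : ∑ i, b i * ∑ t ∈ T, h i t = ∑ t ∈ T, ∑ i, b i * h i t := by
        simp only [mul_sum]
        rw [sum_comm]
      have e3 : Kc * a = ∑ t ∈ T, a := by rw [sum_const, nsmul_eq_mul, hcard]
      rw [e2, e3, ← sum_sub_distrib, ← sum_sub_distrib]
      exact sum_congr rfl fun t ht => by rw [hF t ht]; ring
    rw [e1, ← he]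
    simp only [hs]
    rw [← sum_mul, hsb, ha]
    field_simp
    ring
  have hP2 : ∀ t ∈ T, (a + ∑ i, b i * h i t) ^ 2 = a ^ 2 + ∑ i, (2 * a * b i + b i ^ 2) * h i t := by
    intro t ht
    have e1 : (∑ i, b i * h i t) ^ 2 = ∑ i, b i ^ 2 * h i t := by
      rw [sq, sum_mul]
      refine sum_congr rfl fun i _ => ?_
      rw [mul_assoc, hhP i t ht]
      ring
    have e2 : ∑ i, (2 * a * b i + b i ^ 2) * h i t = 2 * a * ∑ i, b i * h i t + ∑ i, b i ^ 2 * h i t := by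
      rw [mul_sum, ← sum_add_distrib]
      exact sum_congr rfl fun i _ => by ring
    rw [e2, ← e1]
    ring
  have hPR : ∑ t ∈ T, (a + ∑ i, b i * h i t) * R t = 0 := by
    have e1 : ∑ t ∈ T, (a + ∑ i, b i * h i t) * R t = a * ∑ t ∈ T, R t + ∑ i, b i * ∑ t ∈ T, h i t * R t := by
      have e2 : ∑ i, b i * ∑ t ∈ T, h i t * R t = ∑ t ∈ T, ∑ i, b i * (h i t * R t) := by
        simp only [mul_sum]
        rw [sum_comm]
      rw [e2, mul_sum, ← sum_add_distrib]
      refine sum_congr rfl fun t _ => ?_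
      rw [add_mul, sum_mul]
      congr 1
      exact sum_congr rfl fun i _ => by ring
    rw [e1, hR0]
    simp [hR1]
  have hP2s : ∑ t ∈ T, (a + ∑ i, b i * h i t) ^ 2 = Kc * (e ^ 2 + 1 / p * ∑ i, d i ^ 2 + D ^ 2 / (p * (p - k))) := by
    rw [sum_congr rfl hP2, sum_add_distrib, sum_const, nsmul_eq_mul, hcard, sum_comm]
    simp only [← mul_sum, hs]
    have e2 : ∑ i, (2 * a * b i + b i ^ 2) = ∑ i, d i ^ 2 + 2 * (a + D / (p - k)) * D + k * (2 * a * (D / (p - k)) + (D / (p - k)) ^ 2) := by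
      have e3 : ∀ i, 2 * a * b i + b i ^ 2 = d i ^ 2 + 2 * (a + D / (p - k)) * d i + (2 * a * (D / (p - k)) + (D / (p - k)) ^ 2) := by
        intro i
        rw [hb]
        ring
      simp only [e3]
      rw [sum_add_distrib, sum_add_distrib, ← mul_sum, ← hD, sum_const, card_univ, Fintype.card_fin, nsmul_eq_mul]
    rw [← sum_mul, e2, ha]
    field_simp
    ring
  refine ⟨?_, ?_⟩
  · have e1 : ∑ t ∈ T, F t ^ 2 = ∑ t ∈ T, (a + ∑ i, b i * h i t) ^ 2 + 2 * ∑ t ∈ T, (a + ∑ i, b i * h i t) * R t +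
        ∑ t ∈ T, R t ^ 2 := by
      rw [mul_sum, ← sum_add_distrib, ← sum_add_distrib]
      exact sum_congr rfl fun t ht => by rw [hF t ht]; ring
    rw [e1, hPR, hP2s]
    ring
  · intro j
    have hhF : ∀ t ∈ T, h j t * F t ^ 2 = (a + b j) ^ 2 * h j t + 2 * (a + b j) * (h j t * R t) + h j t * R t ^ 2 := by
      intro t ht
      have h1 : h j t * F t = (a + b j) * h j t + h j t * R t := by
        rw [hF t ht]
        have h2 := hhP j t ht
        calc h j t * (a + ∑ i, b i * h i t + R t) = a * h j t + h j t * ∑ i, b i * h i t + h j t * R t := by ring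
          _ = _ := by rw [h2]; ring
      have h3 := h01 j t ht
      calc h j t * F t ^ 2 = (h j t * h j t) * F t ^ 2 := by rw [h3]
        _ = (h j t * F t) ^ 2 := by ring
        _ = ((a + b j) * h j t + h j t * R t) ^ 2 := by rw [h1]
        _ = (a + b j) ^ 2 * (h j t * h j t) + 2 * (a + b j) * ((h j t * h j t) * R t) + (h j t * h j t) * R t ^ 2 := by ring
        _ = _ := by rw [h3]
    have e1 : ∑ t ∈ T, (1 - h j t) * F t ^ 2 = ∑ t ∈ T, F t ^ 2 - ((a + b j) ^ 2 * ∑ t ∈ T, h j t +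
        2 * (a + b j) * ∑ t ∈ T, h j t * R t + ∑ t ∈ T, h j t * R t ^ 2) := by
      rw [mul_sum, mul_sum, ← sum_add_distrib, ← sum_add_distrib, ← sum_sub_distrib]
      exact sum_congr rfl fun t ht => by rw [← hhF t ht]; ring
    have e2 : ∑ t ∈ T, F t ^ 2 = ∑ t ∈ T, (a + ∑ i, b i * h i t) ^ 2 + 2 * ∑ t ∈ T, (a + ∑ i, b i * h i t) * R t +
        ∑ t ∈ T, R t ^ 2 := by
      rw [mul_sum, ← sum_add_distrib, ← sum_add_distrib]
      exact sum_congr rfl fun t ht => by rw [hF t ht]; ring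
    have e3 : ∑ t ∈ T, (1 - h j t) * R t ^ 2 = ∑ t ∈ T, R t ^ 2 - ∑ t ∈ T, h j t * R t ^ 2 := by
      rw [← sum_sub_distrib]
      exact sum_congr rfl fun t _ => by ring
    rw [e1, e2, e3, hPR, hP2s, hR1, hs, hab]
    field_simp
    ring

end Pool.Agent.N422.MK
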