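import Pool.Agent.N422.MK.OP1

/-! Project MK: the local inequalities. Author: helper422. -/

set_option autoImplicit false

namespace Pool.Agent.N422.MK

open Finset Pool.Agent.Y835.SB Pool.Agent.N422.MT

/-- the indicator function of the multiples of `p` at the site `i` -/
noncomputable def ind {k : ℕ} (ρ : Fin k → ℕ → ℕ) (p : ℕ) (i : Fin k) (n : ℕ) : ℝ := if p ∣ n + ρ i p then 1 else 0

/-- the centred function of the site `i` -/
noncomputable def hh {k : ℕ} (ρ : Fin k → ℕ → ℕ) (p : ℕ) (i : Fin k) (n : ℕ) : ℝ :=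
  ind ρ p i n - (1 - ∑ j, ind ρ p j n) / ((p : ℝ) - k)

/-- the rest -/
noncomputable def RR {k : ℕ} (M K : ℕ → ℕ) (ρ : Fin k → ℕ → ℕ) (p : ℕ) (F : ℕ → ℝ) : ℕ → ℝ :=
  fun n => F n - EE M K p F n - ∑ i, DD M K (ρ i) p F n * hh ρ p i n

/-- the local operators -/
noncomputable def op {k : ℕ} (M K : ℕ → ℕ) (ρ : Fin k → ℕ → ℕ) (p : ℕ) : Col k → (ℕ → ℝ) → (ℕ → ℝ)
  | none => EE M K p
  | some none => RR M K ρ p
  | some (some i) => DD M K (ρ i) p

/-- the mean value over the places not hit by the site `j` -/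
noncomputable def ZZ {k : ℕ} (M K : ℕ → ℕ) (ρ : Fin k → ℕ → ℕ) (j : Fin k) (p : ℕ) (F : ℕ → ℝ) : ℕ → ℝ :=
  fun n => EE M K p F n - 1 / ((p : ℝ) - 1) * DD M K (ρ j) p F n

/-- the local operators for the site `j` -/
noncomputable def opj {k : ℕ} (M K : ℕ → ℕ) (ρ : Fin k → ℕ → ℕ) (j : Fin k) (p : ℕ) : Col k → (ℕ → ℝ) → (ℕ → ℝ)
  | none => ZZ M K ρ j p
  | some c => op M K ρ p (some c)

theorem ind_per {k : ℕ} {ρ : Fin k → ℕ → ℕ} {p m : ℕ} (h : p ∣ m) (i : Fin k) : Function.Periodic (ind ρ p i) m := by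
  intro n
  unfold ind
  exact if_congr (dvd_shift h) rfl rfl

theorem hh_per {k : ℕ} {ρ : Fin k → ℕ → ℕ} {p m : ℕ} (h : p ∣ m) (i : Fin k) : Function.Periodic (hh ρ p i) m := by
  intro n
  unfold hh
  simp only [ind_per h _ n]

theorem sum_per {k m : ℕ} {F : Fin k → ℕ → ℝ} (h : ∀ i, Function.Periodic (F i) m) :
    Function.Periodic (fun n => ∑ i, F i n) m := fun n => sum_congr rfl fun i _ => h i n

section one

variable {N : ℕ} {M K : ℕ → ℕ} {P : Finset ℕ} {k : ℕ}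

theorem RR_per {ρ : Fin k → ℕ → ℕ} {p m : ℕ} (h : p ∣ m) {F : ℕ → ℝ} (hD : Dat N M K P) (hp : p ∈ P)
    (hF : Function.Periodic F m) : Function.Periodic (RR M K ρ p F) m := by
  intro n
  unfold RR
  have h1 := (EE_loc M K P p).per F m h hF n
  have h2 : ∀ i, DD M K (ρ i) p F (n + m) = DD M K (ρ i) p F n := fun i => (DD_loc hD (ρ i) hp).per F m h hF n
  rw [hF n, h1]
  simp only [h2, hh_per h _ n]

theorem op_per (hD : Dat N M K P) {p m : ℕ} (hp : p ∈ P) (h : p ∣ m) (ρ : Fin k → ℕ → ℕ) (c : Col k) {F : ℕ → ℝ}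
    (hF : Function.Periodic F m) : Function.Periodic (op M K ρ p c F) m := by
  rcases c with _ | _ | i
  · exact (EE_loc M K P p).per F m h hF
  · exact RR_per h hD hp hF
  · exact (DD_loc hD (ρ i) hp).per F m h hF

theorem ZZ_per (hD : Dat N M K P) {p m : ℕ} (hp : p ∈ P) (h : p ∣ m) (ρ : Fin k → ℕ → ℕ) (j : Fin k) {F : ℕ → ℝ}
    (hF : Function.Periodic F m) : Function.Periodic (ZZ M K ρ j p F) m := by
  intro n
  unfold ZZ
  rw [(EE_loc M K P p).per F m h hF n, (DD_loc hD (ρ j) hp).per F m h hF n]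

theorem opj_per (hD : Dat N M K P) {p m : ℕ} (hp : p ∈ P) (h : p ∣ m) (ρ : Fin k → ℕ → ℕ) (j : Fin k) (c : Col k)
    {F : ℕ → ℝ} (hF : Function.Periodic F m) : Function.Periodic (opj M K ρ j p c F) m := by
  rcases c with _ | c
  · exact ZZ_per hD hp h ρ j hF
  · exact op_per hD hp h ρ _ hF

/-- linearity -/
theorem RR_lin (hD : Dat N M K P) {p : ℕ} (hp : p ∈ P) (ρ : Fin k → ℕ → ℕ) (F G : ℕ → ℝ) (a : ℝ) :
    RR M K ρ p (fun n => F n + G n * a) = fun n => RR M K ρ p F n + RR M K ρ p G n * a := by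
  funext n
  unfold RR
  have h1 : EE M K p (fun n => F n + G n * a) = fun n => EE M K p F n + EE M K p G n * a := by
    rw [(EE_loc M K P p).add F (fun n => G n * a), (EE_loc M K P p).smul]
  have h2 : ∀ i, DD M K (ρ i) p (fun n => F n + G n * a) = fun n => DD M K (ρ i) p F n + DD M K (ρ i) p G n * a := by
    intro i
    rw [(DD_loc hD (ρ i) hp).add F (fun n => G n * a), (DD_loc hD (ρ i) hp).smul]
  rw [h1]
  simp only [h2]
  have h3 : ∑ i, (DD M K (ρ i) p F n + DD M K (ρ i) p G n * a) * hh ρ p i n =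
      ∑ i, DD M K (ρ i) p F n * hh ρ p i n + (∑ i, DD M K (ρ i) p G n * hh ρ p i n) * a := by
    rw [sum_mul, ← sum_add_distrib]
    exact sum_congr rfl fun i _ => by ring
  rw [h3]
  ring

theorem op_lin (hD : Dat N M K P) {p : ℕ} (hp : p ∈ P) (ρ : Fin k → ℕ → ℕ) (c : Col k) (F G : ℕ → ℝ) (a : ℝ) :
    op M K ρ p c (fun n => F n + G n * a) = fun n => op M K ρ p c F n + op M K ρ p c G n * a := by
  rcases c with _ | _ | i
  · show EE M K p (fun n => F n + G n * a) = _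
    rw [(EE_loc M K P p).add F (fun n => G n * a), (EE_loc M K P p).smul]
    rfl
  · exact RR_lin hD hp ρ F G a
  · show DD M K (ρ i) p (fun n => F n + G n * a) = _
    rw [(DD_loc hD (ρ i) hp).add F (fun n => G n * a), (DD_loc hD (ρ i) hp).smul]
    rfl

/-- functions without the coordinate `p` -/
theorem op_zero (hD : Dat N M K P) {p : ℕ} (hp : p ∈ P) (ρ : Fin k → ℕ → ℕ) {c : Col k} (hc : c ≠ none) {F : ℕ → ℝ}
    (hF : Function.Periodic F (M p)) : op M K ρ p c F = fun _ => 0 := by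
  rcases c with _ | _ | i
  · exact absurd rfl hc
  · show RR M K ρ p F = _
    funext n
    unfold RR EE
    rw [Av_of_per (hD.Kpos hp) hF]
    simp only [DD_zero hD _ hp hF]
    simp
  · exact DD_zero hD (ρ i) hp hF

/-- the component in terms of the values on the hits -/
theorem DD_eq (hD : Dat N M K P) (ρ : ℕ → ℕ) {p : ℕ} (hp : p ∈ P) {F : ℕ → ℝ}
    (hF : Function.Periodic F N) (n : ℕ) : DD M K ρ p F n =
      p * Av (M p) (K p) (fun n => (if p ∣ n + ρ p then 1 else 0) * (F n - EE M K p F n)) n := by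
  have h2 := two hD hp
  have h1 : (0 : ℝ) < (p : ℝ) - 1 := by linarith
  set e := EE M K p F with he
  have hep : Function.Periodic e (M p) := EE_perM hD hp hF
  have hF0 : Av (M p) (K p) (fun n => F n - e n) n = 0 := by
    have : (fun n => F n - e n) = F - e := rfl
    rw [this, Av_sub, Pi.sub_apply, Av_of_per (hD.Kpos hp) hep]
    exact sub_self _
  have hk0 : Av (M p) (K p) (fun n => kk ρ p n * e n) n = 0 := by
    rw [Av_mul hep, Av_kk hD ρ hp, zero_mul]
  have e1 : Av (M p) (K p) (fun n => F n * kk ρ p n) n =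
      Av (M p) (K p) (fun n => (F n - e n) * kk ρ p n) n + Av (M p) (K p) (fun n => kk ρ p n * e n) n := by
    unfold Av
    rw [← add_div, ← sum_add_distrib]
    congr 1
    exact sum_congr rfl fun t _ => by ring
  have e2 : ((p : ℝ) - 1) * Av (M p) (K p) (fun n => (F n - e n) * kk ρ p n) n =
      p * Av (M p) (K p) (fun n => (if p ∣ n + ρ p then 1 else 0) * (F n - e n)) n -
        Av (M p) (K p) (fun n => F n - e n) n := by
    unfold Av
    rw [mul_div_assoc', mul_div_assoc', ← sub_div, mul_sum, mul_sum, ← sum_sub_distrib]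
    congr 1
    refine sum_congr rfl fun t _ => ?_
    unfold kk
    beta_reduce
    split_ifs
    · ring
    · field_simp
      ring
  unfold DD
  rw [e1, hk0, add_zero, e2, hF0, sub_zero]

/-- the two local identities on a fibre -/
theorem fibre (hD : Dat N M K P) {p : ℕ} (hp : p ∈ P) (hk : (k : ℝ) < p) (ρ : Fin k → ℕ → ℕ)
    (hρ : ∀ n, ∀ i j, p ∣ n + ρ i p → p ∣ n + ρ j p → i = j) {F : ℕ → ℝ} (hF : Function.Periodic F N) (n : ℕ) :
    Av (M p) (K p) (fun n => F n ^ 2) n = EE M K p F n ^ 2 + 1 / p * ∑ i, DD M K (ρ i) p F n ^ 2 +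
      (∑ i, DD M K (ρ i) p F n) ^ 2 / (p * (p - k)) + Av (M p) (K p) (fun n => RR M K ρ p F n ^ 2) n ∧
    ∀ j, Av (M p) (K p) (fun n => (1 - ind ρ p j n) * F n ^ 2) n = (1 - 1 / p) * EE M K p F n ^ 2 -
      2 * EE M K p F n * DD M K (ρ j) p F n / p +
      1 / p * (∑ i, DD M K (ρ i) p F n ^ 2 - DD M K (ρ j) p F n ^ 2) +
      (∑ i, DD M K (ρ i) p F n) ^ 2 / (p * (p - k)) + Av (M p) (K p) (fun n => (1 - ind ρ p j n) * RR M K ρ p F n ^ 2) n := by
  have h2 := two hD hp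
  have hp0 : (0 : ℝ) < p := by linarith
  have hK0 : (0 : ℝ) < K p := by exact_mod_cast hD.Kpos hp
  have hat : ∀ {G : ℕ → ℝ}, Function.Periodic G (M p) → ∀ t, G (n + M p * t) = G n := by
    intro G hG t
    have := hG.nat_mul t n
    rwa [Nat.cast_id, mul_comm] at this
  have hAv : ∀ G : ℕ → ℝ, Av (M p) (K p) G n * K p = ∑ t ∈ range (K p), G (n + M p * t) := by
    intro G
    unfold Av
    rw [div_mul_cancel₀ _ hK0.ne']
  have hs : ∀ i, ∑ t ∈ range (K p), ind ρ p i (n + M p * t) = K p / p := by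
    intro i
    rw [← hAv]
    have h3 := Av_hit hD hp (ρ i p) 1 0 n
    have h4 : Av (M p) (K p) (ind ρ p i) n = 1 / p := by
      have e : ind ρ p i = fun n => if p ∣ n + ρ i p then (1 : ℝ) else 0 := rfl
      rw [e, h3]
      ring
    rw [h4]
    ring
  have key := fib2 (range (K p)) k hp0 hk (by rw [card_range]) (fun i t => ind ρ p i (n + M p * t))
    (fun i t _ => by unfold ind; split_ifs <;> norm_num)
    (fun i j hij t _ => by
      unfold ind
      by_cases h3 : p ∣ n + M p * t + ρ i p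
      · rw [if_neg (fun h4 => hij (hρ _ i j h3 h4)), mul_zero]
      · rw [if_neg h3, zero_mul]) hs (fun t => F (n + M p * t)) (EE M K p F n) (fun i => DD M K (ρ i) p F n)
    (by
      unfold EE
      exact hAv F)
    (fun i => by
      have h3 := DD_eq hD (ρ i) hp hF n
      have h4 := hAv (fun n => (if p ∣ n + ρ i p then 1 else 0) * (F n - EE M K p F n))
      have h5 : ∑ t ∈ range (K p), ind ρ p i (n + M p * t) * F (n + M p * t) =
          ∑ t ∈ range (K p), (if p ∣ n + M p * t + ρ i p then (1 : ℝ) else 0) * (F (n + M p * t) - EE M K p F (n + M p * t)) +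
          EE M K p F n * ∑ t ∈ range (K p), ind ρ p i (n + M p * t) := by
        rw [mul_sum, ← sum_add_distrib]
        refine sum_congr rfl fun t _ => ?_
        rw [hat (EE_perM hD hp hF)]
        unfold ind
        ring
      rw [h5, hs, ← h4, h3]
      field_simp
      ring)
    (fun t => RR M K ρ p F (n + M p * t)) (fun t _ => by
      unfold RR hh
      simp only [hat (EE_perM hD hp hF), hat (DD_perM hD _ hp hF)])
  obtain ⟨key1, key2⟩ := key
  have hdiv : ∀ {a b c : ℝ}, a * K p = K p * b + c * K p → a = b + c := by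
    intro a b c h
    have : (a - (b + c)) * K p = 0 := by linarith
    rcases mul_eq_zero.1 this with h6 | h6
    · linarith
    · exact absurd h6 hK0.ne'
  refine ⟨?_, ?_⟩
  · apply hdiv
    rw [hAv, hAv]
    exact key1
  · intro j
    apply hdiv
    rw [hAv, hAv]
    exact key2 j

theorem Av_le (hD : Dat N M K P) {p : ℕ} (hp : p ∈ P) {F G : ℕ → ℝ} (h : ∀ n, F n ≤ G n) (n : ℕ) :
    Av (M p) (K p) F n ≤ Av (M p) (K p) G n := by
  have hK0 : (0 : ℝ) < K p := by exact_mod_cast hD.Kpos hp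
  unfold Av
  exact div_le_div_of_nonneg_right (sum_le_sum fun t _ => h _) hK0.le

/-- summation over the fibres of a pointwise inequality -/
theorem avsum (hD : Dat N M K P) {p : ℕ} (hp : p ∈ P) {F U : ℕ → ℝ} (hF : Function.Periodic F N)
    (hU : Function.Periodic U (M p)) : ∑ n ∈ range N, U n * F n = ∑ n ∈ range N, U n * Av (M p) (K p) F n := by
  have h1 := A1 hD hp hF hU
  rw [sum_congr rfl fun n _ => mul_comm (U n) (F n), h1]
  exact sum_congr rfl fun n _ => mul_comm _ _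

/-- **the energy inequality at a prime** -/
theorem LB (hD : Dat N M K P) {p : ℕ} (hp : p ∈ P) (hk : (k : ℝ) < p) (ρ : Fin k → ℕ → ℕ)
    (hρ : ∀ n, ∀ i j, p ∣ n + ρ i p → p ∣ n + ρ j p → i = j) {F U : ℕ → ℝ} (hF : Function.Periodic F N)
    (hU : Function.Periodic U (M p)) (hU0 : ∀ n, 0 ≤ U n) :
    ∑ c : Col k, w0 (p : ℝ) c * ∑ n ∈ range N, U n * op M K ρ p c F n ^ 2 ≤ ∑ n ∈ range N, U n * F n ^ 2 := by
  have h2 := two hD hp
  have hp0 : (0 : ℝ) < p := by linarith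
  have hpN := pN hD hp
  have hRN : Function.Periodic (RR M K ρ p F) N := RR_per hpN hD hp hF
  rw [Fintype.sum_option, Fintype.sum_option]
  show 1 * ∑ n ∈ range N, U n * EE M K p F n ^ 2 + (1 * ∑ n ∈ range N, U n * RR M K ρ p F n ^ 2 +
    ∑ i : Fin k, 1 / (p : ℝ) * ∑ n ∈ range N, U n * DD M K (ρ i) p F n ^ 2) ≤ _
  rw [one_mul, one_mul, avsum hD hp (F := fun n => F n ^ 2) (fun n => by simp only [hF n]) hU,
    avsum hD hp (F := fun n => RR M K ρ p F n ^ 2) (fun n => by simp only [hRN n]) hU]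
  have e1 : ∑ i : Fin k, 1 / (p : ℝ) * ∑ n ∈ range N, U n * DD M K (ρ i) p F n ^ 2 =
      ∑ n ∈ range N, U n * (1 / (p : ℝ) * ∑ i, DD M K (ρ i) p F n ^ 2) := by
    simp only [mul_sum]
    rw [sum_comm]
    exact sum_congr rfl fun n _ => sum_congr rfl fun i _ => by ring
  rw [e1, ← sum_add_distrib, ← sum_add_distrib]
  refine sum_le_sum fun n _ => ?_
  rw [← mul_add, ← mul_add]
  refine mul_le_mul_of_nonneg_left ?_ (hU0 n)
  rw [(fibre hD hp hk ρ hρ hF n).1]
  have h3 : 0 ≤ (∑ i, DD M K (ρ i) p F n) ^ 2 / (p * ((p : ℝ) - k)) := by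
    have : 0 < (p : ℝ) - k := by linarith
    positivity
  linarith

/-- **the sieve inequality at a prime** -/
theorem LS (hD : Dat N M K P) {p : ℕ} (hp : p ∈ P) (hk : (k : ℝ) < p) (ρ : Fin k → ℕ → ℕ)
    (hρ : ∀ n, ∀ i j, p ∣ n + ρ i p → p ∣ n + ρ j p → i = j) (j : Fin k) {F U : ℕ → ℝ} (hF : Function.Periodic F N)
    (hU : Function.Periodic U (M p)) (hU0 : ∀ n, 0 ≤ U n) :
    ∑ n ∈ range N, U n * (if p ∣ n + ρ j p then 0 else F n ^ 2) ≤
      ∑ c : Col k, w1 (p : ℝ) j c * ∑ n ∈ range N, U n * opj M K ρ j p c F n ^ 2 := by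
  have h2 := two hD hp
  have hp0 : (0 : ℝ) < p := by linarith
  have hpk : (0 : ℝ) < (p : ℝ) - k := by linarith
  have hp1 : (0 : ℝ) < (p : ℝ) - 1 := by linarith
  have hpN := pN hD hp
  have hRN : Function.Periodic (RR M K ρ p F) N := RR_per hpN hD hp hF
  rw [Fintype.sum_option, Fintype.sum_option]
  show _ ≤ (1 - 1 / (p : ℝ)) * ∑ n ∈ range N, U n * ZZ M K ρ j p F n ^ 2 + (1 * ∑ n ∈ range N, U n * RR M K ρ p F n ^ 2 +
    ∑ i : Fin k, (if i = j then (k : ℝ) / (p * (p - k)) else 1 / ((p : ℝ) - k)) *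
      ∑ n ∈ range N, U n * DD M K (ρ i) p F n ^ 2)
  have e0 : ∑ n ∈ range N, U n * (if p ∣ n + ρ j p then 0 else F n ^ 2) =
      ∑ n ∈ range N, U n * ((1 - ind ρ p j n) * F n ^ 2) := by
    refine sum_congr rfl fun n _ => ?_
    unfold ind
    split_ifs <;> ring
  rw [e0, one_mul, avsum hD hp (F := fun n => (1 - ind ρ p j n) * F n ^ 2)
      (fun n => by simp only [hF n, ind_per hpN j n]) hU,
    avsum hD hp (F := fun n => RR M K ρ p F n ^ 2) (fun n => by simp only [hRN n]) hU]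
  have e1 : ∑ i : Fin k, (if i = j then (k : ℝ) / (p * (p - k)) else 1 / ((p : ℝ) - k)) *
      ∑ n ∈ range N, U n * DD M K (ρ i) p F n ^ 2 =
      ∑ n ∈ range N, U n * (∑ i : Fin k, (if i = j then (k : ℝ) / (p * (p - k)) else 1 / ((p : ℝ) - k)) *
        DD M K (ρ i) p F n ^ 2) := by
    simp only [mul_sum]
    rw [sum_comm]
    exact sum_congr rfl fun n _ => sum_congr rfl fun i _ => by ring
  have e2 : (1 - 1 / (p : ℝ)) * ∑ n ∈ range N, U n * ZZ M K ρ j p F n ^ 2 =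
      ∑ n ∈ range N, U n * ((1 - 1 / (p : ℝ)) * ZZ M K ρ j p F n ^ 2) := by
    rw [mul_sum]
    exact sum_congr rfl fun n _ => by ring
  rw [e1, e2, ← sum_add_distrib, ← sum_add_distrib]
  refine sum_le_sum fun n _ => ?_
  rw [← mul_add, ← mul_add]
  refine mul_le_mul_of_nonneg_left ?_ (hU0 n)
  rw [(fibre hD hp hk ρ hρ hF n).2 j]
  have h3 : Av (M p) (K p) (fun n => (1 - ind ρ p j n) * RR M K ρ p F n ^ 2) n ≤
      Av (M p) (K p) (fun n => RR M K ρ p F n ^ 2) n := by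
    apply Av_le hD hp
    intro m
    have h4 : 0 ≤ ind ρ p j m := by unfold ind; split_ifs <;> norm_num
    have := mul_nonneg h4 (sq_nonneg (RR M K ρ p F m))
    linarith
  have h4 : (∑ i, DD M K (ρ i) p F n) ^ 2 ≤ k * ∑ i, DD M K (ρ i) p F n ^ 2 := by
    have := sq_sum_le_card_mul_sum_sq (s := (univ : Finset (Fin k))) (f := fun i => DD M K (ρ i) p F n)
    rwa [card_univ, Fintype.card_fin] at this
  have h5 : (∑ i, DD M K (ρ i) p F n) ^ 2 / (p * ((p : ℝ) - k)) ≤ k * (∑ i, DD M K (ρ i) p F n ^ 2) / (p * ((p : ℝ) - k)) :=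
    div_le_div_of_nonneg_right h4 (by positivity)
  have h6 : ∑ i : Fin k, (if i = j then (k : ℝ) / (p * (p - k)) else 1 / ((p : ℝ) - k)) * DD M K (ρ i) p F n ^ 2 =
      1 / ((p : ℝ) - k) * (∑ i, DD M K (ρ i) p F n ^ 2 - DD M K (ρ j) p F n ^ 2) +
        k / (p * (p - k)) * DD M K (ρ j) p F n ^ 2 := by
    rw [← add_sum_erase univ (fun i => (if i = j then (k : ℝ) / (p * (p - k)) else 1 / ((p : ℝ) - k)) *
      DD M K (ρ i) p F n ^ 2) (mem_univ j), ← add_sum_erase univ (fun i => DD M K (ρ i) p F n ^ 2) (mem_univ j),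
      if_pos rfl, add_sub_cancel_left, mul_sum, add_comm]
    congr 1
    refine sum_congr rfl fun i hi => ?_
    rw [if_neg (mem_erase.1 hi).1]
  rw [h6]
  obtain ⟨e, he⟩ : ∃ e, e = EE M K p F n := ⟨_, rfl⟩
  obtain ⟨d, hd⟩ : ∃ d, d = DD M K (ρ j) p F n := ⟨_, rfl⟩
  obtain ⟨S, hS⟩ : ∃ S, S = ∑ i, DD M K (ρ i) p F n ^ 2 := ⟨_, rfl⟩
  have hZ : ZZ M K ρ j p F n = e - 1 / ((p : ℝ) - 1) * d := by unfold ZZ; rw [he, hd]
  rw [hZ, ← he, ← hd, ← hS]
  rw [← hS] at h5
  have h7 : (1 - 1 / (p : ℝ)) * (e - 1 / ((p : ℝ) - 1) * d) ^ 2 = (1 - 1 / (p : ℝ)) * e ^ 2 - 2 * e * d / p +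
      d ^ 2 / (p * (p - 1)) := by
    field_simp
    ring
  have h8 : 1 / (p : ℝ) * (S - d ^ 2) + k * S / (p * ((p : ℝ) - k)) =
      1 / ((p : ℝ) - k) * (S - d ^ 2) + k / (p * (p - k)) * d ^ 2 := by
    field_simp
    ring
  have h9 : 0 ≤ d ^ 2 / ((p : ℝ) * (p - 1)) := by positivity
  rw [h7]
  linarith

end one

end Pool.Agent.N422.MK
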