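import Pool.Agent.N422.MK.OP2

/-! Project MK: words of local operators. Author: helper422. -/

set_option autoImplicit false

namespace Pool.Agent.N422.MK

open Finset Pool.Agent.Y835.SB Pool.Agent.N422.MT

theorem sum_cons {n : ℕ} {α : Type} [Fintype α] (G : (Fin (n + 1) → α) → ℝ) :
    ∑ c, G c = ∑ a : α, ∑ c : Fin n → α, G (Fin.cons a c : Fin (n + 1) → α) := by
  rw [← (Fin.consEquiv (fun _ : Fin (n + 1) => α)).sum_comp, Fintype.sum_prod_type]
  rfl

/-- the component of a word -/
noncomputable def cc {k : ℕ} (M K : ℕ → ℕ) (ρ : Fin k → ℕ → ℕ) : (n : ℕ) → (Fin n → ℕ) → (Fin n → Col k) → (ℕ → ℝ) → (ℕ → ℝ)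
  | 0, _, _, F => F
  | n + 1, q, c, F => cc M K ρ n (fun i => q i.succ) (fun i => c i.succ) (op M K ρ (q 0) (c 0) F)

/-- the component of a word, for the site `j` -/
noncomputable def cj {k : ℕ} (M K : ℕ → ℕ) (ρ : Fin k → ℕ → ℕ) (j : Fin k) :
    (n : ℕ) → (Fin n → ℕ) → (Fin n → Col k) → (ℕ → ℝ) → (ℕ → ℝ)
  | 0, _, _, F => F
  | n + 1, q, c, F => cj M K ρ j n (fun i => q i.succ) (fun i => c i.succ) (opj M K ρ j (q 0) (c 0) F)

section one

variable {N : ℕ} {M K : ℕ → ℕ} {P : Finset ℕ} {k : ℕ}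

/-- **the energy inequality** -/
theorem energy (hD : Dat N M K P) (ρ : Fin k → ℕ → ℕ) (hρ : ∀ p ∈ P, ∀ n, ∀ i j, p ∣ n + ρ i p → p ∣ n + ρ j p → i = j)
    (hk : ∀ p ∈ P, (k : ℝ) < p) {U : ℕ → ℝ} (hU0 : ∀ n, 0 ≤ U n) (hU : ∀ p ∈ P, Function.Periodic U (M p)) :
    ∀ (n : ℕ) (q : Fin n → ℕ), (∀ i, q i ∈ P) → ∀ F : ℕ → ℝ, Function.Periodic F N →
    ∑ c : Fin n → Col k, (∏ i, w0 (q i : ℝ) (c i)) * ∑ x ∈ range N, U x * cc M K ρ n q c F x ^ 2 ≤
      ∑ x ∈ range N, U x * F x ^ 2 := by
  intro n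
  induction n with
  | zero =>
    intro q _ F _
    simp [cc]
  | succ n ih =>
    intro q hq F hF
    have h0 := hq 0
    have hpN := pN hD h0
    rw [sum_cons]
    refine le_trans (sum_le_sum fun a _ => ?_) (LB hD h0 (hk _ h0) ρ (hρ _ h0) hF (hU _ h0) hU0)
    have h1 := ih (fun i => q i.succ) (fun i => hq _) (op M K ρ (q 0) a F) (op_per hD h0 hpN ρ a hF)
    have h2 : 0 ≤ w0 (q 0 : ℝ) a := by
      rcases a with _ | _ | i
      · exact zero_le_one
      · exact zero_le_one
      · exact one_div_nonneg.2 (Nat.cast_nonneg _)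
    refine le_trans (le_of_eq ?_) (mul_le_mul_of_nonneg_left h1 h2)
    rw [mul_sum]
    refine sum_congr rfl fun c _ => ?_
    rw [Fin.prod_univ_succ, mul_assoc]
    rfl

theorem w1_nn {q : ℝ} (h2 : 2 ≤ q) (hk : (k : ℝ) < q) (j : Fin k) (c : Col k) : 0 ≤ w1 q j c := by
  have h1 : 0 < q - k := by linarith
  rcases c with _ | _ | i
  · show 0 ≤ 1 - 1 / q
    rw [sub_nonneg, div_le_one (by linarith)]
    linarith
  · exact zero_le_one
  · show 0 ≤ if i = j then (k : ℝ) / (q * (q - k)) else 1 / (q - k)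
    split_ifs <;> positivity

/-- **the sieve inequality** -/
theorem sieveK (hD : Dat N M K P) (ρ : Fin k → ℕ → ℕ) (hρ : ∀ p ∈ P, ∀ n, ∀ i j, p ∣ n + ρ i p → p ∣ n + ρ j p → i = j)
    (hk : ∀ p ∈ P, (k : ℝ) < p) (j : Fin k) {U : ℕ → ℝ} (hU0 : ∀ n, 0 ≤ U n) (hU : ∀ p ∈ P, Function.Periodic U (M p)) :
    ∀ (n : ℕ) (q : Fin n → ℕ), Function.Injective q → (∀ i, q i ∈ P) → ∀ F : ℕ → ℝ, Function.Periodic F N →
    ∑ x ∈ range N, U x * (if ∀ i, ¬ q i ∣ x + ρ j (q i) then F x ^ 2 else 0) ≤
    ∑ c : Fin n → Col k, (∏ i, w1 (q i : ℝ) j (c i)) * ∑ x ∈ range N, U x * cj M K ρ j n q c F x ^ 2 := by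
  classical
  intro n
  induction n with
  | zero =>
    intro q _ _ F _
    simp [cj]
  | succ n ih =>
    intro q hinj hq F hF
    have h0 := hq 0
    have hpN := pN hD h0
    have hne : ∀ i : Fin n, q i.succ ≠ q 0 := fun i h => Fin.succ_ne_zero i (hinj h)
    -- the weight with the other primes
    obtain ⟨V, hV⟩ : ∃ V : ℕ → ℝ, V = fun x => if ∀ i : Fin n, ¬ q i.succ ∣ x + ρ j (q i.succ) then U x else 0 := ⟨_, rfl⟩
    have hVper : Function.Periodic V (M (q 0)) := by
      intro x
      rw [hV]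
      have h1 : (∀ i : Fin n, ¬ q i.succ ∣ x + M (q 0) + ρ j (q i.succ)) ↔ (∀ i : Fin n, ¬ q i.succ ∣ x + ρ j (q i.succ)) := by
        refine forall_congr' fun i => not_congr ?_
        exact dvd_shift (hD.dvd (q 0) h0 (q i.succ) (hq _) (hne i))
      show (if ∀ i : Fin n, ¬ q i.succ ∣ x + M (q 0) + ρ j (q i.succ) then U (x + M (q 0)) else 0) =
        if ∀ i : Fin n, ¬ q i.succ ∣ x + ρ j (q i.succ) then U x else 0
      rw [hU _ h0 x]
      exact if_congr h1 rfl rfl
    have hV0 : ∀ x, 0 ≤ V x := by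
      intro x
      rw [hV]
      show 0 ≤ if ∀ i : Fin n, ¬ q i.succ ∣ x + ρ j (q i.succ) then U x else 0
      split_ifs
      · exact hU0 x
      · exact le_rfl
    have hstep := LS hD h0 (hk _ h0) ρ (hρ _ h0) j hF hVper hV0
    have hVf : ∀ G : ℕ → ℝ, ∑ x ∈ range N, V x * G x ^ 2 =
        ∑ x ∈ range N, U x * (if ∀ i : Fin n, ¬ q i.succ ∣ x + ρ j (q i.succ) then G x ^ 2 else 0) := by
      intro G
      refine sum_congr rfl fun x _ => ?_
      rw [hV]
      show (if ∀ i : Fin n, ¬ q i.succ ∣ x + ρ j (q i.succ) then U x else 0) * G x ^ 2 = _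
      split_ifs
      · rfl
      · ring
    have hleft : ∑ x ∈ range N, U x * (if ∀ i, ¬ q i ∣ x + ρ j (q i) then F x ^ 2 else 0) =
        ∑ x ∈ range N, V x * (if q 0 ∣ x + ρ j (q 0) then 0 else F x ^ 2) := by
      refine sum_congr rfl fun x _ => ?_
      rw [hV]
      show _ = (if ∀ i : Fin n, ¬ q i.succ ∣ x + ρ j (q i.succ) then U x else 0) * (if q 0 ∣ x + ρ j (q 0) then 0 else F x ^ 2)
      by_cases h1 : q 0 ∣ x + ρ j (q 0)
      · rw [if_pos h1, if_neg (fun h => h 0 h1), mul_zero, mul_zero]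
      · rw [if_neg h1]
        by_cases h2 : ∀ i : Fin n, ¬ q i.succ ∣ x + ρ j (q i.succ)
        · rw [if_pos h2, if_pos]
          intro i
          rcases Fin.eq_zero_or_eq_succ i with h3 | ⟨i', h3⟩
          · rw [h3]; exact h1
          · rw [h3]; exact h2 i'
        · rw [if_neg h2, if_neg (fun h => h2 fun i => h i.succ)]
          ring
    rw [hleft]
    refine hstep.trans ?_
    rw [sum_cons]
    refine sum_le_sum fun a _ => ?_
    have hop := opj_per hD h0 hpN ρ j a hF
    have h1 := ih (fun i => q i.succ) (fun a b h => Fin.succ_injective n (hinj h)) (fun i => hq _) (opj M K ρ j (q 0) a F) hop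
    rw [hVf]
    have h2 : 0 ≤ w1 (q 0 : ℝ) j a := w1_nn (two hD h0) (hk _ h0) j a
    refine le_trans (mul_le_mul_of_nonneg_left h1 h2) (le_of_eq ?_)
    rw [mul_sum]
    refine sum_congr rfl fun c _ => ?_
    rw [Fin.prod_univ_succ, mul_assoc]
    rfl

/-- linearity of the components -/
theorem cc_lin (hD : Dat N M K P) (ρ : Fin k → ℕ → ℕ) : ∀ (n : ℕ) (q : Fin n → ℕ), (∀ i, q i ∈ P) → ∀ (c : Fin n → Col k)
    (F G : ℕ → ℝ) (a : ℝ), cc M K ρ n q c (fun x => F x + G x * a) = fun x => cc M K ρ n q c F x + cc M K ρ n q c G x * a := by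
  intro n
  induction n with
  | zero =>
    intro q _ c F G a
    rfl
  | succ n ih =>
    intro q hq c F G a
    show cc M K ρ n _ _ (op M K ρ (q 0) (c 0) (fun x => F x + G x * a)) = _
    rw [op_lin hD (hq 0), ih _ (fun i => hq _)]
    rfl

theorem cc_zero (hD : Dat N M K P) (ρ : Fin k → ℕ → ℕ) (n : ℕ) (q : Fin n → ℕ) (hq : ∀ i, q i ∈ P) (c : Fin n → Col k) :
    cc M K ρ n q c (fun _ => 0) = fun _ => 0 := by
  have h1 := cc_lin hD ρ n q hq c (fun _ => 0) (fun _ => 0) (-1)
  have e1 : (fun x : ℕ => (fun _ => (0 : ℝ)) x + (fun _ => (0 : ℝ)) x * (-1)) = fun _ => 0 := by funext x; ring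
  rw [e1] at h1
  funext x
  have h2 := congrFun h1 x
  linarith

theorem cc_sum (hD : Dat N M K P) (ρ : Fin k → ℕ → ℕ) (n : ℕ) (q : Fin n → ℕ) (hq : ∀ i, q i ∈ P) (c : Fin n → Col k)
    {ι : Type} (s : Finset ι) (f : ι → ℕ → ℝ) :
    cc M K ρ n q c (fun x => ∑ i ∈ s, f i x) = fun x => ∑ i ∈ s, cc M K ρ n q c (f i) x := by
  classical
  induction s using Finset.induction_on with
  | empty =>
    simp only [sum_empty]
    exact cc_zero hD ρ n q hq c
  | insert i s hi ih =>
    simp only [sum_insert hi]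
    have h1 := cc_lin hD ρ n q hq c (f i) (fun x => ∑ j ∈ s, f j x) 1
    simp only [mul_one] at h1
    rw [h1, ih]

/-- a component with a colour at a coordinate on which the function does not depend -/
theorem cc_per (hD : Dat N M K P) (ρ : Fin k → ℕ → ℕ) : ∀ (n : ℕ) (q : Fin n → ℕ), Function.Injective q → (∀ i, q i ∈ P) →
    ∀ (c : Fin n → Col k) (i : Fin n), c i ≠ none → ∀ F : ℕ → ℝ, Function.Periodic F (M (q i)) →
    cc M K ρ n q c F = fun _ => 0 := by
  intro n
  induction n with
  | zero =>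
    intro q _ _ c i
    exact i.elim0
  | succ n ih =>
    intro q hinj hq c i hi F hF
    show cc M K ρ n _ _ (op M K ρ (q 0) (c 0) F) = _
    rcases Fin.eq_zero_or_eq_succ i with h1 | ⟨i', h1⟩
    · subst h1
      rw [op_zero hD (hq 0) ρ hi hF]
      exact cc_zero hD ρ n _ (fun i => hq _) _
    · subst h1
      have hne : q i'.succ ≠ q 0 := fun h => Fin.succ_ne_zero i' (hinj h)
      have hd : q 0 ∣ M (q i'.succ) := hD.dvd _ (hq _) _ (hq 0) hne.symm
      exact ih (fun i => q i.succ) (fun a b h => Fin.succ_injective n (hinj h)) (fun i => hq _) (fun i => c i.succ) i' hi _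
        (op_per hD (hq 0) hd ρ (c 0) hF)

/-- the components beyond the level vanish -/
theorem cc_level (hD : Dat N M K P) (ρ : Fin k → ℕ → ℕ) {n : ℕ} {q : Fin n → ℕ} (hinj : Function.Injective q)
    (hq : ∀ i, q i ∈ P) {ι : Type} (s : Finset ι) (f : ι → ℕ → ℝ) (A : ι → Finset ℕ) {Λ : ℝ}
    (hf : ∀ i ∈ s, (∀ p ∈ P, p ∉ A i → Function.Periodic (f i) (M p)) ∧ lg (P.filter (fun p => p ∈ A i)) ≤ Λ)
    {c : Fin n → Col k} (h : Λ < ∑ i ∈ univ.filter (fun i => c i ≠ none), Real.log (q i)) :
    cc M K ρ n q c (fun x => ∑ i ∈ s, f i x) = fun _ => 0 := by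
  classical
  rw [cc_sum hD ρ n q hq c]
  funext x
  refine sum_eq_zero fun i hi => ?_
  obtain ⟨h1, h2⟩ := hf i hi
  have h3 : ¬ ((univ.filter (fun i => c i ≠ none)).image q ⊆ P.filter (fun p => p ∈ A i)) := by
    intro h4
    have h5 := lg_mono h4
    unfold lg at h5 h2
    rw [sum_image (fun a _ b _ hab => hinj hab)] at h5
    linarith
  rw [not_subset] at h3
  obtain ⟨p, hp, hpA⟩ := h3
  rw [mem_image] at hp
  obtain ⟨a, ha, rfl⟩ := hp
  rw [mem_filter] at ha
  have h7 : q a ∉ A i := fun h8 => hpA (mem_filter.2 ⟨hq a, h8⟩)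
  rw [cc_per hD ρ n q hinj hq c a ha.2 (f i) (h1 _ (hq a) h7)]

/-- **the expansion** of the components of the site `j` -/
theorem expand (hD : Dat N M K P) (ρ : Fin k → ℕ → ℕ) (j : Fin k) : ∀ (n : ℕ) (q : Fin n → ℕ), (∀ i, q i ∈ P) →
    ∀ (c : Fin n → Col k) (F : ℕ → ℝ) (x : ℕ), cj M K ρ j n q c F x =
      ∑ t ∈ (Es c).powerset, (∏ i ∈ t, (-(1 / ((q i : ℝ) - 1)))) * cc M K ρ n q (recol c j t) F x := by
  classical
  intro n
  induction n with
  | zero =>
    intro q _ c F x
    have h1 : (Es c).powerset = {∅} := by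
      rw [← powerset_empty]
      congr 1
    rw [h1, sum_singleton]
    simp [cj, cc]
  | succ n ih =>
    intro q hq c F x
    obtain ⟨c', hc'⟩ : ∃ c' : Fin n → Col k, c' = fun i => c i.succ := ⟨_, rfl⟩
    obtain ⟨q', hq'⟩ : ∃ q' : Fin n → ℕ, q' = fun i => q i.succ := ⟨_, rfl⟩
    have hqP' : ∀ i, q' i ∈ P := fun i => by rw [hq']; exact hq _
    -- embedding of the sets of places
    have hmap : ∀ t : Finset (Fin n), (∏ i ∈ t.map (Fin.succEmb n), (-(1 / ((q i : ℝ) - 1)))) =
        ∏ i ∈ t, (-(1 / ((q' i : ℝ) - 1))) := by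
      intro t
      rw [prod_map, hq']
      rfl
    have hrec0 : ∀ (t : Finset (Fin n)), cc M K ρ (n + 1) q (recol c j (t.map (Fin.succEmb n))) F =
        cc M K ρ n q' (recol c' j t) (op M K ρ (q 0) (c 0) F) := by
      intro t
      show cc M K ρ n _ _ (op M K ρ (q 0) (recol c j (t.map (Fin.succEmb n)) 0) F) = _
      have e1 : recol c j (t.map (Fin.succEmb n)) 0 = c 0 := by
        unfold recol
        rw [if_neg]
        intro h
        rw [mem_map] at h
        obtain ⟨a, _, ha⟩ := h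
        exact Fin.succ_ne_zero a ha
      have e2 : (fun i : Fin n => recol c j (t.map (Fin.succEmb n)) i.succ) = recol c' j t := by
        funext i
        unfold recol
        rw [hc']
        refine if_congr ?_ rfl rfl
        rw [mem_map]
        constructor
        · rintro ⟨a, ha, hae⟩
          have := Fin.succ_injective n hae
          rwa [← this]
        · intro h
          exact ⟨i, h, rfl⟩
      rw [e1, e2, hq']
    have hrec1 : ∀ (t : Finset (Fin n)), cc M K ρ (n + 1) q (recol c j (insert 0 (t.map (Fin.succEmb n)))) F =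
        cc M K ρ n q' (recol c' j t) (op M K ρ (q 0) (some (some j)) F) := by
      intro t
      show cc M K ρ n _ _ (op M K ρ (q 0) (recol c j (insert 0 (t.map (Fin.succEmb n))) 0) F) = _
      have e1 : recol c j (insert 0 (t.map (Fin.succEmb n))) 0 = some (some j) := by
        unfold recol
        rw [if_pos (mem_insert_self _ _)]
      have e2 : (fun i : Fin n => recol c j (insert 0 (t.map (Fin.succEmb n))) i.succ) = recol c' j t := by
        funext i
        unfold recol
        rw [hc']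
        refine if_congr ?_ rfl rfl
        rw [mem_insert, mem_map]
        constructor
        · rintro (h | ⟨a, ha, hae⟩)
          · exact absurd h (Fin.succ_ne_zero i)
          · have := Fin.succ_injective n hae
            rwa [← this]
        · intro h
          exact Or.inr ⟨i, h, rfl⟩
      rw [e1, e2, hq']
    have h0n : ∀ t : Finset (Fin n), (0 : Fin (n + 1)) ∉ t.map (Fin.succEmb n) := by
      intro t h
      rw [mem_map] at h
      obtain ⟨a, _, ha⟩ := h
      exact Fin.succ_ne_zero a ha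
    have hEs : (Es c).filter (fun i => i ≠ 0) = (Es c').map (Fin.succEmb n) := by
      ext i
      unfold Es
      simp only [mem_filter, mem_univ, true_and, mem_map]
      constructor
      · rintro ⟨h1, h2⟩
        rcases Fin.eq_zero_or_eq_succ i with h3 | ⟨i', h3⟩
        · exact absurd h3 h2
        · refine ⟨i', ?_, h3.symm⟩
          rw [hc']
          show c i'.succ = none
          rw [← h3]
          exact h1
      · rintro ⟨a, ha, rfl⟩
        rw [hc'] at ha
        exact ⟨ha, Fin.succ_ne_zero a⟩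
    have hpm : ((Es c').map (Fin.succEmb n)).powerset = (Es c').powerset.map (mapEmbedding (Fin.succEmb n)).toEmbedding := by
      ext s
      rw [mem_powerset, subset_map_iff, mem_map]
      constructor
      · rintro ⟨u, hu, rfl⟩
        exact ⟨u, mem_powerset.2 hu, rfl⟩
      · rintro ⟨u, hu, rfl⟩
        exact ⟨u, mem_powerset.1 hu, rfl⟩
    show cj M K ρ j n _ _ (opj M K ρ j (q 0) (c 0) F) x = _
    have hqs : ∀ i : Fin n, q i.succ = q' i := fun i => by rw [hq']
    rw [ih _ (fun i => hq _), ← hc', ← hq']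
    simp only [hqs]
    rcases hc0 : c 0 with _ | a
    · -- the colour of the mean value
      have hE : Es c = insert 0 ((Es c').map (Fin.succEmb n)) := by
        rw [← hEs]
        ext i
        simp only [mem_insert, mem_filter]
        constructor
        · intro h
          by_cases h1 : i = 0
          · exact Or.inl h1
          · exact Or.inr ⟨h, h1⟩
        · rintro (h | h)
          · rw [h]
            unfold Es
            rw [mem_filter]
            exact ⟨mem_univ _, hc0⟩
          · exact h.1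
      rw [hE, sum_powerset_insert (h0n _), hpm, sum_map, sum_map]
      rw [← sum_add_distrib]
      refine sum_congr rfl fun t _ => ?_
      show _ = (∏ i ∈ t.map (Fin.succEmb n), (-(1 / ((q i : ℝ) - 1)))) *
        cc M K ρ (n + 1) q (recol c j (t.map (Fin.succEmb n))) F x +
        (∏ i ∈ insert 0 (t.map (Fin.succEmb n)), (-(1 / ((q i : ℝ) - 1)))) *
        cc M K ρ (n + 1) q (recol c j (insert 0 (t.map (Fin.succEmb n)))) F x
      rw [prod_insert (h0n t), hmap, hrec0, hrec1, hc0]
      have e1 : opj M K ρ j (q 0) none F = fun n => op M K ρ (q 0) none F n +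
          op M K ρ (q 0) (some (some j)) F n * (-(1 / ((q 0 : ℝ) - 1))) := by
        funext y
        show EE M K (q 0) F y - 1 / ((q 0 : ℝ) - 1) * DD M K (ρ j) (q 0) F y = EE M K (q 0) F y +
          DD M K (ρ j) (q 0) F y * (-(1 / ((q 0 : ℝ) - 1)))
        ring
      rw [e1, cc_lin hD ρ n q' hqP']
      ring
    · -- the other colours
      have hE : Es c = (Es c').map (Fin.succEmb n) := by
        rw [← hEs]
        ext i
        simp only [mem_filter]
        constructor
        · intro h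
          refine ⟨h, fun h1 => ?_⟩
          rw [h1] at h
          unfold Es at h
          rw [mem_filter, hc0] at h
          exact absurd h.2 (by simp)
        · intro h
          exact h.1
      rw [hE, hpm, sum_map]
      refine sum_congr rfl fun t _ => ?_
      show _ = (∏ i ∈ t.map (Fin.succEmb n), (-(1 / ((q i : ℝ) - 1)))) *
        cc M K ρ (n + 1) q (recol c j (t.map (Fin.succEmb n))) F x
      rw [hmap, hrec0, hc0]
      rfl

end one

end Pool.Agent.N422.MK
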