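import Pool.Agent.N422.MK.OP3

/-! Project MK: all sites, from the combinatorial inequality. Author: helper422. -/

set_option autoImplicit false

namespace Pool.Agent.N422.MK

open Finset Pool.Agent.Y835.SB Pool.Agent.N422.MT

section one

variable {N : ℕ} {M K : ℕ → ℕ} {P : Finset ℕ}

/-- **all sites** -/
theorem sitesK (hD : Dat N M K P) {k : ℕ} (ρ : Fin k → ℕ → ℕ)
    (hρ : ∀ p ∈ P, ∀ n, ∀ i j, p ∣ n + ρ i p → p ∣ n + ρ j p → i = j) (hk : ∀ p ∈ P, (k : ℝ) < p) {n : ℕ}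
    {q : Fin n → ℕ} (hinj : Function.Injective q) (hq : ∀ i, q i ∈ P) {U : ℕ → ℝ} (hU0 : ∀ x, 0 ≤ U x)
    (hU : ∀ p ∈ P, Function.Periodic U (M p)) {Uj : Fin k → ℕ → ℝ} (hUj0 : ∀ j x, 0 ≤ Uj j x)
    (hUjU : ∀ j x, Uj j x ≤ U x) (hUj : ∀ j, ∀ p ∈ P, Function.Periodic (Uj j) (M p))
    {ι : Type} (s : Finset ι) (f : ι → ℕ → ℝ) (A : ι → Finset ℕ) {Λ : ℝ}
    (hf : ∀ i ∈ s, (∀ p ∈ P, p ∉ A i → Function.Periodic (f i) (M p)) ∧ lg (P.filter (fun p => p ∈ A i)) ≤ Λ)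
    {F : ℕ → ℝ} (hF : F = fun n => ∑ i ∈ s, f i n) (hFN : Function.Periodic F N) {CC : ℝ} (hCC : 0 ≤ CC)
    (hcomb : ∀ g : (Fin n → Col k) → ℝ, (∀ c, g c ≠ 0 → ∑ i ∈ univ.filter (fun i => c i ≠ none), Real.log (q i) ≤ Λ) →
      ∑ j : Fin k, ∑ c : Fin n → Col k, (∏ i, w1 (q i : ℝ) j (c i)) *
        (∑ t ∈ (Es c).powerset, (∏ i ∈ t, 1 / ((q i : ℝ) - 1)) * g (recol c j t)) ^ 2 ≤
      CC * ∑ c : Fin n → Col k, (∏ i, w0 (q i : ℝ) (c i)) * g c ^ 2) :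
    ∑ j : Fin k, ∑ x ∈ range N, Uj j x * (if ∀ i, ¬ q i ∣ x + ρ j (q i) then F x ^ 2 else 0) ≤
      CC * ∑ x ∈ range N, U x * F x ^ 2 := by
  classical
  have h1 : ∀ j : Fin k, ∑ x ∈ range N, Uj j x * (if ∀ i, ¬ q i ∣ x + ρ j (q i) then F x ^ 2 else 0) ≤
      ∑ c : Fin n → Col k, (∏ i, w1 (q i : ℝ) j (c i)) * ∑ x ∈ range N, U x *
        (∑ t ∈ (Es c).powerset, (∏ i ∈ t, 1 / ((q i : ℝ) - 1)) * |cc M K ρ n q (recol c j t) F x|) ^ 2 := by
    intro j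
    refine (sieveK hD ρ hρ hk j (hUj0 j) (hUj j) n q hinj hq F hFN).trans ?_
    refine sum_le_sum fun c _ => mul_le_mul_of_nonneg_left ?_
      (prod_nonneg fun i _ => w1_nn (two hD (hq i)) (hk _ (hq i)) j (c i))
    refine sum_le_sum fun x _ => ?_
    have h2 : cj M K ρ j n q c F x ^ 2 ≤
        (∑ t ∈ (Es c).powerset, (∏ i ∈ t, 1 / ((q i : ℝ) - 1)) * |cc M K ρ n q (recol c j t) F x|) ^ 2 := by
      rw [expand hD ρ j n q hq c F x, ← sq_abs]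
      apply pow_le_pow_left₀ (abs_nonneg _)
      refine (abs_sum_le_sum_abs _ _).trans (le_of_eq ?_)
      refine sum_congr rfl fun t _ => ?_
      rw [abs_mul, abs_prod]
      congr 1
      refine prod_congr rfl fun i _ => ?_
      rw [abs_neg, abs_of_nonneg]
      have := two hD (hq i)
      apply one_div_nonneg.2
      linarith
    exact mul_le_mul (hUjU j x) h2 (sq_nonneg _) (hU0 x)
  refine (sum_le_sum fun j _ => h1 j).trans ?_
  have h2 : ∑ j : Fin k, ∑ c : Fin n → Col k, (∏ i, w1 (q i : ℝ) j (c i)) * ∑ x ∈ range N, U x *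
        (∑ t ∈ (Es c).powerset, (∏ i ∈ t, 1 / ((q i : ℝ) - 1)) * |cc M K ρ n q (recol c j t) F x|) ^ 2 =
      ∑ x ∈ range N, U x * ∑ j : Fin k, ∑ c : Fin n → Col k, (∏ i, w1 (q i : ℝ) j (c i)) *
        (∑ t ∈ (Es c).powerset, (∏ i ∈ t, 1 / ((q i : ℝ) - 1)) * |cc M K ρ n q (recol c j t) F x|) ^ 2 := by
    simp only [mul_sum (s := range N)]
    rw [sum_congr rfl fun j _ => sum_comm, sum_comm]
    refine sum_congr rfl fun x _ => ?_
    rw [mul_sum]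
    refine sum_congr rfl fun j _ => ?_
    rw [mul_sum]
    exact sum_congr rfl fun c _ => by ring
  rw [h2]
  have h3 : ∀ x ∈ range N, U x * ∑ j : Fin k, ∑ c : Fin n → Col k, (∏ i, w1 (q i : ℝ) j (c i)) *
        (∑ t ∈ (Es c).powerset, (∏ i ∈ t, 1 / ((q i : ℝ) - 1)) * |cc M K ρ n q (recol c j t) F x|) ^ 2 ≤
      U x * (CC * ∑ c : Fin n → Col k, (∏ i, w0 (q i : ℝ) (c i)) * cc M K ρ n q c F x ^ 2) := by
    intro x _
    refine mul_le_mul_of_nonneg_left ?_ (hU0 x)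
    refine (hcomb (fun c => |cc M K ρ n q c F x|) ?_).trans (le_of_eq ?_)
    · intro c hc
      by_contra h4
      rw [not_le] at h4
      have h5 := cc_level hD ρ hinj hq s f A hf h4
      rw [← hF] at h5
      apply hc
      rw [h5]
      exact abs_zero
    · simp only [sq_abs]
  refine (sum_le_sum h3).trans ?_
  have h4 : ∑ x ∈ range N, U x * (CC * ∑ c : Fin n → Col k, (∏ i, w0 (q i : ℝ) (c i)) * cc M K ρ n q c F x ^ 2) =
      CC * ∑ c : Fin n → Col k, (∏ i, w0 (q i : ℝ) (c i)) * ∑ x ∈ range N, U x * cc M K ρ n q c F x ^ 2 := by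
    simp only [mul_sum]
    rw [sum_comm]
    exact sum_congr rfl fun c _ => sum_congr rfl fun x _ => by ring
  rw [h4]
  exact mul_le_mul_of_nonneg_left (energy hD ρ hρ hk hU0 hU n q hq F hFN) hCC

end one

end Pool.Agent.N422.MK
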