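import Mathlib

/-! Project MK (helper422): the constant of Maynard is the limit for all sums of squares: definitions and statements of the
self-contained pieces. -/

set_option autoImplicit false

open Finset

namespace Pool.Agent.N422.MK

/-- `M` is an upper bound for the ratio of Maynard in dimension `m + 1`: for all bounded measurable functions `F` with
support in the simplex `x_i ≥ 0`, `∑ x_i ≤ 1`, the sum over `j` of `∫ (∫ F dx_j)²` is at most `M ∫ F²` -/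
def MBound (m : ℕ) (M : ℝ) : Prop :=
  ∀ F : (Fin (m + 1) → ℝ) → ℝ, Measurable F → (∃ C : ℝ, ∀ x, |F x| ≤ C) →
    (∀ x, F x ≠ 0 → (∀ i, 0 ≤ x i) ∧ ∑ i, x i ≤ 1) →
    ∑ j : Fin (m + 1), ∫ y : Fin m → ℝ, (∫ t : ℝ, F (j.insertNth t y)) ^ 2 ≤ M * ∫ x, F x ^ 2

/-- the transport lemma (MK/TR) -/
def S_TR : Prop := ∀ (m : ℕ) (M : ℝ), MBound m M → ∀ (α : Type) [Fintype α] (μ σ : α → ℝ),
  (∀ a, 0 < μ a) → (∀ a, 0 ≤ σ a) → ∀ Λ c ε : ℝ, 0 < Λ → 0 < c → 0 ≤ ε →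
  (∀ u : ℝ, 0 ≤ u → u ≤ Λ → ∑ a ∈ univ.filter (fun a => σ a ≤ u), μ a ≤ c * (u / Λ + ε)) →
  ∀ f : (Fin (m + 1) → α) → ℝ, (∀ T, f T ≠ 0 → ∑ i, σ (T i) ≤ Λ) →
    ∑ j : Fin (m + 1), ∑ T : Fin m → α, (∏ i, μ (T i)) * (∑ t : α, μ t * f (j.insertNth t T)) ^ 2 ≤
      c * (1 + (m + 1) * ε) * M * ∑ T : Fin (m + 1) → α, (∏ i, μ (T i)) * f T ^ 2

/-- the bound of Maynard and Polymath for the ratio (MK/LOG) -/
def S_LOG : Prop := ∀ m : ℕ, 1 ≤ m → MBound m (((m : ℝ) + 1) / m * Real.log ((m : ℝ) + 1))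

/-- colours: `none` (mean value), `some none` (rest), `some (some i)` (component along the site `i`) -/
abbrev Col (k : ℕ) := Option (Option (Fin k))

/-- recolour the places of `t` with the colour of the site `j` -/
def recol {n k : ℕ} (c : Fin n → Col k) (j : Fin k) (t : Finset (Fin n)) : Fin n → Col k :=
  fun i => if i ∈ t then some (some j) else c i

/-- the places with the colour `none` -/
def Es {n k : ℕ} (c : Fin n → Col k) : Finset (Fin n) := univ.filter (fun i => c i = none)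

/-- the local weight of the energy -/
noncomputable def w0 {k : ℕ} (q : ℝ) : Col k → ℝ
  | none => 1
  | some none => 1
  | some (some _) => 1 / q

/-- the local weight of the site `j` -/
noncomputable def w1 {k : ℕ} (q : ℝ) (j : Fin k) : Col k → ℝ
  | none => 1 - 1 / q
  | some none => 1
  | some (some i) => if i = j then k / (q * (q - k)) else 1 / (q - k)

/-- the combinatorial inequality, the main terms (MK/CA): the colourings without the colour of the site `j` -/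
def S_CA : Prop := ∀ (m : ℕ) (M : ℝ), MBound m M → ∀ (n : ℕ) (q σ : Fin n → ℝ),
  (∀ i, 2 ≤ q i) → (∀ i, 0 ≤ σ i) → ∀ Λ C ε : ℝ, 0 < Λ → 0 < C → 0 ≤ ε →
  (∀ u : ℝ, 0 ≤ u → u ≤ Λ →
    ∑ t ∈ univ.filter (fun t : Finset (Fin n) => ∑ i ∈ t, σ i ≤ u), ∏ i ∈ t, 1 / q i ≤ C * (u / Λ + ε)) →
  ∀ g : (Fin n → Col (m + 1)) → ℝ, (∀ c, g c ≠ 0 → ∑ i ∈ univ.filter (fun i => c i ≠ none), σ i ≤ Λ) →
    ∑ j : Fin (m + 1), ∑ c ∈ univ.filter (fun c : Fin n → Col (m + 1) => ∀ i, c i ≠ some (some j)),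
        (∏ i, w0 (q i) (c i)) * (∑ t ∈ (Es c).powerset, (∏ i ∈ t, 1 / q i) * g (recol c j t)) ^ 2 ≤
      C * (1 + (m + 1) * ε) * M * ∑ c : Fin n → Col (m + 1), (∏ i, w0 (q i) (c i)) * g c ^ 2

/-- the combinatorial inequality, the errors at one site (MK/CB) -/
def S_CB : Prop := ∀ (k n : ℕ) (q σ : Fin n → ℝ),
  (∀ i, (k : ℝ) < q i) → (∀ i, 2 ≤ q i) → (∀ i, 0 ≤ σ i) → ∀ Λ C ε x : ℝ, 0 < Λ → 0 < C → 0 ≤ ε → 0 ≤ x →
  (∀ t : Finset (Fin n), ∑ i ∈ t, σ i ≤ Λ → ∑ i ∈ t, 1 / (q i - k) ≤ x) →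
  (∑ t ∈ univ.filter (fun t : Finset (Fin n) => ∑ i ∈ t, σ i ≤ Λ), ∏ i ∈ t, 1 / q i ≤ C * (1 + ε)) →
  ∀ g : (Fin n → Col k) → ℝ, (∀ c, g c ≠ 0 → ∑ i ∈ univ.filter (fun i => c i ≠ none), σ i ≤ Λ) →
  ∀ j : Fin k, ∑ c ∈ univ.filter (fun c : Fin n → Col k => ∃ i, c i = some (some j)),
        (∏ i, w1 (q i) j (c i)) * (∑ t ∈ (Es c).powerset, (∏ i ∈ t, 1 / (q i - 1)) * g (recol c j t)) ^ 2 ≤
      (∏ i, (1 - 1 / q i)) * Real.exp ((k + 3) * x) * C * (1 + ε) * (Real.exp (k * x) - 1) *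
        ∑ c : Fin n → Col k, (∏ i, w0 (q i) (c i)) * g c ^ 2

/-- the combinatorial inequality (MK/COMB) -/
def S_COMB : Prop := ∀ (m : ℕ) (M : ℝ), MBound m M → ∀ (n : ℕ) (q σ : Fin n → ℝ),
  (∀ i, ((m : ℝ) + 1) < q i) → (∀ i, 2 ≤ q i) → (∀ i, 0 ≤ σ i) → ∀ Λ C ε x : ℝ, 0 < Λ → 0 < C → 0 ≤ ε → 0 ≤ x →
  (∀ t : Finset (Fin n), ∑ i ∈ t, σ i ≤ Λ → ∑ i ∈ t, 1 / (q i - (m + 1)) ≤ x) →
  (∀ u : ℝ, 0 ≤ u → u ≤ Λ →
    ∑ t ∈ univ.filter (fun t : Finset (Fin n) => ∑ i ∈ t, σ i ≤ u), ∏ i ∈ t, 1 / q i ≤ C * (u / Λ + ε)) →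
  ∀ g : (Fin n → Col (m + 1)) → ℝ, (∀ c, g c ≠ 0 → ∑ i ∈ univ.filter (fun i => c i ≠ none), σ i ≤ Λ) →
    ∑ j : Fin (m + 1), ∑ c : Fin n → Col (m + 1), (∏ i, w1 (q i) j (c i)) *
        (∑ t ∈ (Es c).powerset, (∏ i ∈ t, 1 / (q i - 1)) * g (recol c j t)) ^ 2 ≤
      (∏ i, (1 - 1 / q i)) * Real.exp ((m + 4) * x) * C *
        (M * (1 + (m + 1) * ε) + (m + 1) * (1 + ε) * (Real.exp ((m + 1) * x) - 1)) *
        ∑ c : Fin n → Col (m + 1), (∏ i, w0 (q i) (c i)) * g c ^ 2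

end Pool.Agent.N422.MK
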